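import Pool.Agent.H10.IB.Defs

/-!
MODULE Asym (about 80 lines). Numbers. `l` is the binary logarithm of `n`.
`pow_large`: polynomial against exponential (`2 ^ (l/2)`, natural number division).
`pow_h`: `11^(5(l+1)) * n < 13^(5(l+1))` for `n < 2^(l+1)` since `2 * 11^5 < 13^5`.
`pow_K`: `5^(3 (l/14)) = 125^(l/14) <= 2^(7 (l/14)) <= 2^(l/2)`.
-/

set_option autoImplicit false
set_option linter.unusedSectionVars false

namespace H10.IB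

open Finset H97.Int

variable {V : Type*} [Fintype V] [DecidableEq V] (G : SimpleGraph V) [DecidableRel G.Adj]

theorem pow_large : ∃ l₀ : ℕ, ∀ l ≥ l₀, 10 ^ 20 * (l + 1) ^ 8 ≤ 2 ^ (l / 2) := by
  have h := tendsto_pow_const_div_const_pow_of_one_lt 8 (r := (2 : ℝ)) (by norm_num)
  have h2 := h.eventually (gt_mem_nhds (show (0 : ℝ) < 1 / (10 ^ 20 * 4 ^ 8) by positivity))
  obtain ⟨m₀, hm₀⟩ := Filter.eventually_atTop.mp h2
  refine ⟨2 * m₀ + 2, fun l hl => ?_⟩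
  obtain ⟨m, hm⟩ : ∃ m, l / 2 = m := ⟨_, rfl⟩
  rw [hm]
  have hm1 : m₀ ≤ m := by omega
  have hm2 : l + 1 ≤ 4 * m := by omega
  have h3 := hm₀ m hm1
  rw [div_lt_div_iff₀ (by positivity) (by positivity)] at h3
  have h4 : (m : ℝ) ^ 8 * (10 ^ 20 * 4 ^ 8) ≤ 2 ^ m := by linarith
  have h5 : m ^ 8 * (10 ^ 20 * 4 ^ 8) ≤ 2 ^ m := by exact_mod_cast h4
  calc 10 ^ 20 * (l + 1) ^ 8 ≤ 10 ^ 20 * (4 * m) ^ 8 :=
        Nat.mul_le_mul_left _ (Nat.pow_le_pow_left hm2 8)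
    _ = m ^ 8 * (10 ^ 20 * 4 ^ 8) := by ring
    _ ≤ 2 ^ m := h5

theorem pow_h (n : ℕ) (hn : 0 < n) :
    11 ^ (5 * (Nat.log 2 n + 1)) * n < 13 ^ (5 * (Nat.log 2 n + 1)) := by
  have h1 : n < 2 ^ (Nat.log 2 n + 1) := Nat.lt_pow_succ_log_self (by norm_num) n
  calc 11 ^ (5 * (Nat.log 2 n + 1)) * n < 11 ^ (5 * (Nat.log 2 n + 1)) * 2 ^ (Nat.log 2 n + 1) :=
        Nat.mul_lt_mul_of_pos_left h1 (by positivity)
    _ = (11 ^ 5 * 2) ^ (Nat.log 2 n + 1) := by rw [pow_mul, mul_pow]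
    _ ≤ (13 ^ 5) ^ (Nat.log 2 n + 1) := Nat.pow_le_pow_left (by norm_num) _
    _ = 13 ^ (5 * (Nat.log 2 n + 1)) := by rw [pow_mul]

theorem pow_K (l : ℕ) : 5 ^ (3 * (l / 14)) * 2 ^ (l / 2) ≤ 2 ^ l := by
  calc 5 ^ (3 * (l / 14)) * 2 ^ (l / 2) ≤ 2 ^ (7 * (l / 14)) * 2 ^ (l / 2) := by
        apply Nat.mul_le_mul_right
        rw [pow_mul, pow_mul]
        exact Nat.pow_le_pow_left (by norm_num) _
    _ = 2 ^ (7 * (l / 14) + l / 2) := by rw [pow_add]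
    _ ≤ 2 ^ l := Nat.pow_le_pow_right (by norm_num) (by omega)

end H10.IB
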