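import Pool.Agent.H10.IB.ThBasic

/-!
MODULE Closed (about 130 lines). Degrees inside a theta.
For `v ∈ l₂` the list `s₂` is `p ++ v :: r` with `p, r` nonempty (`a` first, `b` last), so `v` is
adjacent to the last element of `p` and to the head of `r`, two different elements of
`{a, b} ∪ l₂`. For `v = a`: the second elements of `s₂` and of `s₃` are adjacent to `a`, they are
different because `l₂` or `l₃` is nonempty and the interiors are disjoint and avoid `b`.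
For `v = b` use `rev` (or the last but one elements).
`two_le₁`: this argument uses only the sides 2 and 3. `two_le`: monotonicity (`nin_mono`) from
`two_le₁` for `θ` and for `θ.rot` (every vertex is outside `l₁` or outside `l₂`).
`three_a`: the second elements of the three sides are pairwise different.
`E_ge`: `E = Σ nin` (`E_eq_sum_nin`), `nin ≥ 2` everywhere and `nin ≥ 3` at `a` and `b`,
`card_vs`.
-/

set_option autoImplicit false
set_option linter.unusedSectionVars false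

namespace H10.IB

open Finset H97.Int

variable {V : Type*} [Fintype V] [DecidableEq V] (G : SimpleGraph V) [DecidableRel G.Adj]

private lemma closed_two {v x y : V} {S : Finset V} (hx : x ∈ S) (hy : y ∈ S) (hxy : x ≠ y)
    (hvx : G.Adj v x) (hvy : G.Adj v y) : 2 ≤ nin G v S := by
  rw [nin_eq]
  have h1 : ({x, y} : Finset V) ⊆ G.neighborFinset v ∩ S := by
    intro z hz
    rw [Finset.mem_insert, Finset.mem_singleton] at hz
    rw [Finset.mem_inter, SimpleGraph.mem_neighborFinset]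
    rcases hz with rfl | rfl
    · exact ⟨hvx, hx⟩
    · exact ⟨hvy, hy⟩
  have h2 := Finset.card_le_card h1
  rw [Finset.card_pair hxy] at h2
  exact_mod_cast h2

private lemma closed_three {v x y z : V} {S : Finset V} (hx : x ∈ S) (hy : y ∈ S) (hz : z ∈ S)
    (hxy : x ≠ y) (hxz : x ≠ z) (hyz : y ≠ z)
    (hvx : G.Adj v x) (hvy : G.Adj v y) (hvz : G.Adj v z) : 3 ≤ nin G v S := by
  rw [nin_eq]
  have h1 : ({x, y, z} : Finset V) ⊆ G.neighborFinset v ∩ S := by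
    intro w hw
    rw [Finset.mem_insert, Finset.mem_insert, Finset.mem_singleton] at hw
    rw [Finset.mem_inter, SimpleGraph.mem_neighborFinset]
    rcases hw with rfl | rfl | rfl
    · exact ⟨hvx, hx⟩
    · exact ⟨hvy, hy⟩
    · exact ⟨hvz, hz⟩
  have h2 := Finset.card_le_card h1
  rw [Finset.card_eq_three.mpr ⟨x, y, z, hxy, hxz, hyz, rfl⟩] at h2
  exact_mod_cast h2

private lemma closed_head {a b : V} {l : List V} (h : (a :: (l ++ [b])).IsChain G.Adj) :
    ∃ x, G.Adj a x ∧ ((l = [] ∧ x = b) ∨ x ∈ l) := by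
  cases l with
  | nil =>
    rw [List.nil_append, List.isChain_cons_cons] at h
    exact ⟨b, h.1, Or.inl ⟨rfl, rfl⟩⟩
  | cons y l =>
    rw [List.cons_append, List.isChain_cons_cons] at h
    exact ⟨y, h.1, Or.inr List.mem_cons_self⟩

private lemma closed_mid {b v : V} {l : List V} : ∀ {a : V}, (a :: (l ++ [b])).IsChain G.Adj →
    (a :: b :: l).Nodup → v ∈ l →
    ∃ u w, u ≠ w ∧ G.Adj v u ∧ G.Adj v w ∧ (u = a ∨ u ∈ l) ∧ (w = b ∨ w ∈ l) := by
  induction l with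
  | nil =>
    intro a _ _ hv
    exact absurd hv List.not_mem_nil
  | cons y l ih =>
    intro a h hn hv
    rw [List.cons_append, List.isChain_cons_cons] at h
    simp only [List.nodup_cons, List.mem_cons, not_or] at hn
    obtain ⟨⟨hab, hay, hal⟩, ⟨hby, hbl⟩, hyl, hl⟩ := hn
    rcases List.mem_cons.mp hv with rfl | hv
    · obtain ⟨w, hw, hw2⟩ := closed_head G h.2
      refine ⟨a, w, ?_, h.1.symm, hw, Or.inl rfl, ?_⟩
      · rcases hw2 with ⟨_, rfl⟩ | hw2
        · exact hab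
        · rintro rfl
          exact hal hw2
      · rcases hw2 with ⟨_, rfl⟩ | hw2
        · exact Or.inl rfl
        · exact Or.inr (List.mem_cons_of_mem _ hw2)
    · have hn2 : (y :: b :: l).Nodup := by
        simp only [List.nodup_cons, List.mem_cons, not_or]
        exact ⟨⟨Ne.symm hby, hyl⟩, hbl, hl⟩
      obtain ⟨u, w, huw, hvu, hvw, hu, hw⟩ := ih h.2 hn2 hv
      refine ⟨u, w, huw, hvu, hvw, Or.inr ?_, ?_⟩
      · rcases hu with rfl | hu
        · exact List.mem_cons_self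
        · exact List.mem_cons_of_mem _ hu
      · rcases hw with rfl | hw
        · exact Or.inl rfl
        · exact Or.inr (List.mem_cons_of_mem _ hw)

private lemma closed_nodup {θ : Th V} (h : IsTheta G θ) :
    θ.a ≠ θ.b ∧ (θ.a ∉ θ.l₁ ∧ θ.a ∉ θ.l₂ ∧ θ.a ∉ θ.l₃) ∧ (θ.b ∉ θ.l₁ ∧ θ.b ∉ θ.l₂ ∧ θ.b ∉ θ.l₃) ∧
      (θ.l₁.Nodup ∧ θ.l₂.Nodup ∧ θ.l₃.Nodup) ∧
      (∀ v, v ∈ θ.l₁ → v ∉ θ.l₂) ∧ (∀ v, v ∈ θ.l₁ → v ∉ θ.l₃) ∧ (∀ v, v ∈ θ.l₂ → v ∉ θ.l₃) := by
  have hn := h.nodup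
  simp only [List.nodup_cons, List.mem_cons, List.mem_append, not_or, List.nodup_append'] at hn
  obtain ⟨⟨hab, ⟨ha1, ha2⟩, ha3⟩, ⟨⟨hb1, hb2⟩, hb3⟩, ⟨h1, h2, h12⟩, h3, h123⟩ := hn
  refine ⟨hab, ⟨ha1, ha2, ha3⟩, ⟨hb1, hb2, hb3⟩, ⟨h1, h2, h3⟩, ?_, ?_, ?_⟩
  · intro v hv hv2
    exact h12 hv hv2
  · intro v hv hv2
    exact h123 (List.mem_append_left _ hv) hv2
  · intro v hv hv2
    exact h123 (List.mem_append_right _ hv) hv2

private lemma closed_mem {θ : Th V} (h : IsTheta G θ) {v : V} :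
    v ∈ θ.vs \ θ.l₁.toFinset ↔ v = θ.a ∨ v = θ.b ∨ v ∈ θ.l₂ ∨ v ∈ θ.l₃ := by
  obtain ⟨_, ⟨ha1, _, _⟩, ⟨hb1, _, _⟩, _, h12, h13, _⟩ := closed_nodup G h
  rw [Finset.mem_sdiff, Th.mem_vs, List.mem_toFinset]
  constructor
  · rintro ⟨h1 | h1 | h1 | h1 | h1, h2⟩
    · exact Or.inl h1
    · exact Or.inr (Or.inl h1)
    · exact absurd h1 h2
    · exact Or.inr (Or.inr (Or.inl h1))
    · exact Or.inr (Or.inr (Or.inr h1))
  · rintro (rfl | rfl | h1 | h1)
    · exact ⟨Or.inl rfl, ha1⟩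
    · exact ⟨Or.inr (Or.inl rfl), hb1⟩
    · exact ⟨Or.inr (Or.inr (Or.inr (Or.inl h1))), fun h2 => h12 v h2 h1⟩
    · exact ⟨Or.inr (Or.inr (Or.inr (Or.inr h1))), fun h2 => h13 v h2 h1⟩

/-- the second elements of two sides of which one is nonempty -/
private lemma closed_ne {b x y : V} {l m : List V} (hne : l ≠ [] ∨ m ≠ [])
    (hb : b ∉ l) (hb' : b ∉ m) (hlm : ∀ v, v ∈ l → v ∉ m)
    (hx : (l = [] ∧ x = b) ∨ x ∈ l) (hy : (m = [] ∧ y = b) ∨ y ∈ m) : x ≠ y := by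
  rintro rfl
  rcases hx with ⟨hl, hxb⟩ | hx
  · rcases hy with ⟨hm, _⟩ | hy
    · rcases hne with h1 | h1
      · exact h1 hl
      · exact h1 hm
    · exact hb' (hxb ▸ hy)
  · rcases hy with ⟨_, hyb⟩ | hy
    · exact hb (hyb ▸ hx)
    · exact hlm _ hx hy

private lemma closed_a {θ : Th V} (h : IsTheta G θ) :
    2 ≤ nin G θ.a (θ.vs \ θ.l₁.toFinset) := by
  obtain ⟨_, _, ⟨_, hb2, hb3⟩, _, _, _, h23⟩ := closed_nodup G h
  obtain ⟨x, hax, hx⟩ := closed_head G h.chain₂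
  obtain ⟨y, hay, hy⟩ := closed_head G h.chain₃
  refine closed_two G (x := x) (y := y) ?_ ?_ ?_ hax hay
  · rw [closed_mem G h]
    rcases hx with ⟨_, hx⟩ | hx
    · exact Or.inr (Or.inl hx)
    · exact Or.inr (Or.inr (Or.inl hx))
  · rw [closed_mem G h]
    rcases hy with ⟨_, hy⟩ | hy
    · exact Or.inr (Or.inl hy)
    · exact Or.inr (Or.inr (Or.inr hy))
  · exact closed_ne h.ne₂₃ hb2 hb3 h23 hx hy

theorem IsTheta.two_le₁ {θ : Th V} (h : IsTheta G θ) :
    ∀ v ∈ θ.vs \ θ.l₁.toFinset, 2 ≤ nin G v (θ.vs \ θ.l₁.toFinset) := by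
  intro v hv
  obtain ⟨hab, ⟨_, ha2, ha3⟩, ⟨_, hb2, hb3⟩, ⟨_, hn2, hn3⟩, _, _, _⟩ := closed_nodup G h
  rcases (closed_mem G h).mp hv with rfl | rfl | hv2 | hv3
  · exact closed_a G h
  · have h1 := closed_a G h.rev
    have h2 : θ.rev.vs \ θ.rev.l₁.toFinset = θ.vs \ θ.l₁.toFinset := by
      rw [Th.rev_vs]
      congr 1
      ext v
      simp [Th.rev]
    rw [h2] at h1
    exact h1
  · have hn : (θ.a :: θ.b :: θ.l₂).Nodup := by
      simp only [List.nodup_cons, List.mem_cons, not_or]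
      exact ⟨⟨hab, ha2⟩, hb2, hn2⟩
    obtain ⟨u, w, huw, hvu, hvw, hu, hw⟩ := closed_mid G h.chain₂ hn hv2
    refine closed_two G (x := u) (y := w) ?_ ?_ huw hvu hvw
    · rw [closed_mem G h]
      tauto
    · rw [closed_mem G h]
      tauto
  · have hn : (θ.a :: θ.b :: θ.l₃).Nodup := by
      simp only [List.nodup_cons, List.mem_cons, not_or]
      exact ⟨⟨hab, ha3⟩, hb3, hn3⟩
    obtain ⟨u, w, huw, hvu, hvw, hu, hw⟩ := closed_mid G h.chain₃ hn hv3
    refine closed_two G (x := u) (y := w) ?_ ?_ huw hvu hvw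
    · rw [closed_mem G h]
      tauto
    · rw [closed_mem G h]
      tauto

theorem IsTheta.two_le {θ : Th V} (h : IsTheta G θ) : ∀ v ∈ θ.vs, 2 ≤ nin G v θ.vs := by
  intro v hv
  obtain ⟨_, _, _, _, h12, _, _⟩ := closed_nodup G h
  by_cases h1 : v ∈ θ.l₁
  · have h2 : v ∈ θ.rot.vs \ θ.rot.l₁.toFinset := by
      rw [Th.rot_vs, Finset.mem_sdiff]
      refine ⟨hv, ?_⟩
      rw [List.mem_toFinset]
      exact h12 v h1
    have h3 := h.rot.two_le₁ G v h2
    refine h3.trans (nin_mono G ?_ v)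
    rw [Th.rot_vs]
    exact Finset.sdiff_subset
  · have h2 : v ∈ θ.vs \ θ.l₁.toFinset := by
      rw [Finset.mem_sdiff, List.mem_toFinset]
      exact ⟨hv, h1⟩
    exact (h.two_le₁ G v h2).trans (nin_mono G Finset.sdiff_subset v)

lemma IsTheta.three_a {θ : Th V} (h : IsTheta G θ) : 3 ≤ nin G θ.a θ.vs := by
  obtain ⟨_, _, ⟨hb1, hb2, hb3⟩, _, h12, h13, h23⟩ := closed_nodup G h
  obtain ⟨x, hax, hx⟩ := closed_head G h.chain₁
  obtain ⟨y, hay, hy⟩ := closed_head G h.chain₂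
  obtain ⟨z, haz, hz⟩ := closed_head G h.chain₃
  refine closed_three G (x := x) (y := y) (z := z) ?_ ?_ ?_ ?_ ?_ ?_ hax hay haz
  · rw [Th.mem_vs]
    tauto
  · rw [Th.mem_vs]
    tauto
  · rw [Th.mem_vs]
    tauto
  · exact closed_ne h.ne₁₂ hb1 hb2 h12 hx hy
  · exact closed_ne h.ne₁₃ hb1 hb3 h13 hx hz
  · exact closed_ne h.ne₂₃ hb2 hb3 h23 hy hz

theorem IsTheta.E_ge {θ : Th V} (h : IsTheta G θ) :
    2 * (θ.size : ℤ) + 2 ≤ E G θ.vs θ.vs := by
  have hab := (closed_nodup G h).1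
  have h3b : 3 ≤ nin G θ.b θ.vs := by
    have h1 := h.rev.three_a G
    rw [Th.rev_vs] at h1
    exact h1
  have h1 : ∀ v ∈ θ.vs, (2 : ℤ) + (if v = θ.a then 1 else 0) + (if v = θ.b then 1 else 0)
      ≤ nin G v θ.vs := by
    intro v hv
    by_cases hva : v = θ.a
    · have hvb : v ≠ θ.b := by
        rw [hva]
        exact hab
      rw [if_pos hva, if_neg hvb, hva]
      exact h.three_a G
    · by_cases hvb : v = θ.b
      · rw [if_neg hva, if_pos hvb, hvb]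
        exact h3b
      · rw [if_neg hva, if_neg hvb]
        exact h.two_le G v hv
  rw [E_eq_sum_nin]
  refine le_trans (le_of_eq ?_) (Finset.sum_le_sum h1)
  rw [Finset.sum_add_distrib, Finset.sum_add_distrib, Finset.sum_const, h.card_vs G,
    Finset.sum_ite_eq', Finset.sum_ite_eq', if_pos (Th.mem_vs.mpr (Or.inl rfl)),
    if_pos (Th.mem_vs.mpr (Or.inr (Or.inl rfl)))]
  simp only [nsmul_eq_mul]
  ring

end H10.IB
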