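import Pool.Agent.H10.IB.Defs

/-!
MODULE Closure (about 170 lines). Moving a small closed set `Y₀` of `A` to the other side.
Let `B = Aᶜ`, `J = s |Y₀| + 1`, `K = J L₀`. Consider the sets `Y` with `Y₀ ⊆ Y ⊆ A`, `|Y| <= K`,
(i) `2 <= nin G y (Y ∪ B)` for `y ∈ Y`, (ii) `2 (d-1) |Y| <= E Y Y + 2 E Y B + 2 s |Y₀|`.
`Y₀` is one of them (`E Y₀ Y₀ >= 2 |Y₀|`, `2 (d-1) = 2 s + 2`). Take `Y` of maximal cardinality.
If `|Y| < K`: every `a ∈ A \ Y` has `nin G a (Y ∪ B) <= d - 2` (otherwise `insert a Y` is in the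
family: `E` grows by `2 nin a Y`, `E Y B` by `nin a B`), so `A \ Y` is satisfied
(`(A \ Y)ᶜ = Y ∪ B`, `d - 2 <= 2 <= d - (d-2)`), and `(A \ Y)ᶜ = Y ∪ B` is satisfied by (i), `d <= 4`,
and by monotonicity for `v ∈ B`.
If `|Y| = K`: let `A₁ = A \ Y`. `cut A = cut A₁ + d |Y| - E Y Y - 2 E Y A₁` (`cut_union_regular`
with `A₁`, `Y`), `E Y A₁ = d |Y| - E Y Y - E Y B`, so
`cut A₁ = cut A + d |Y| - E Y Y - 2 E Y B <= cut A - s |Y| + 2 s |Y₀|`. Let `X` be the given set:
`cut (A₁ ∪ X) = cut A₁ + d |X| - E X X - 2 E X A₁ <= cut A₁ + s |X| - 2 J`,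
`imb (A₁ ∪ X) = D + 2 |Y| - 2 |X|` (`|X| <= K = |Y|`). So
`s imb (A₁ ∪ X) + 2 cut (A₁ ∪ X) <= s D + 2 cut A + 4 s |Y₀| - 4 J < s imb A + 2 cut A`:
contradiction to `Opt.min`.
-/

set_option autoImplicit false
set_option linter.unusedSectionVars false

namespace H10.IB

open Finset H97.Int

variable {V : Type*} [Fintype V] [DecidableEq V] (G : SimpleGraph V) [DecidableRel G.Adj]

/-- `E` of a set with a new vertex -/
lemma cl_E_insert_self {Y : Finset V} {a : V} (ha : a ∉ Y) :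
    E G (insert a Y) (insert a Y) = E G Y Y + 2 * nin G a Y := by
  have hd : Disjoint Y {a} := by simpa using ha
  have h0 : insert a Y = Y ∪ {a} := by rw [Finset.union_comm, ← Finset.insert_eq]
  rw [h0, E_union_left G hd, E_union_right G hd, E_union_right G hd]
  have h1 : E G {a} {a} = 0 := by simp [E, adj_self]
  have h2 : E G Y {a} = nin G a Y := by rw [E_symm]; rfl
  have h3 : E G {a} Y = nin G a Y := rfl
  rw [h1, h2, h3]
  ring

lemma cl_E_insert_left {Y : Finset V} {a : V} (ha : a ∉ Y) (B : Finset V) :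
    E G (insert a Y) B = E G Y B + nin G a B := by
  have hd : Disjoint Y {a} := by simpa using ha
  have h0 : insert a Y = Y ∪ {a} := by rw [Finset.union_comm, ← Finset.insert_eq]
  rw [h0, E_union_left G hd]
  rfl

/-- the family of partial closures -/
def ClFam (A Y₀ : Finset V) (d s K : ℕ) (Y : Finset V) : Prop :=
  Y₀ ⊆ Y ∧ Y ⊆ A ∧ Y.card ≤ K ∧ (∀ y ∈ Y, 2 ≤ nin G y (Y ∪ Aᶜ)) ∧
    2 * ((d : ℤ) - 1) * Y.card ≤ E G Y Y + 2 * E G Y Aᶜ + 2 * s * Y₀.card

lemma clFam_start {A : Finset V} {d s g D : ℕ} (hO : Opt G A d s g D) {L₀ : ℕ} (hL : 1 ≤ L₀)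
    {Y₀ : Finset V} (hY : Y₀ ⊆ A) (hcl : ∀ y ∈ Y₀, 2 ≤ nin G y Y₀) :
    ClFam G A Y₀ d s ((s * Y₀.card + 1) * L₀) Y₀ := by
  refine ⟨Subset.rfl, hY, ?_, ?_, ?_⟩
  · have hs : 1 ≤ s := by
      have := hO.hd
      have := hO.hs
      omega
    calc Y₀.card ≤ s * Y₀.card := Nat.le_mul_of_pos_left _ hs
      _ ≤ (s * Y₀.card + 1) * 1 := by omega
      _ ≤ (s * Y₀.card + 1) * L₀ := Nat.mul_le_mul_left _ hL
  · intro y hy
    exact (hcl y hy).trans (nin_mono G Finset.subset_union_left y)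
  · have h1 : (2 : ℤ) * Y₀.card ≤ E G Y₀ Y₀ := by
      rw [E_eq_sum_nin]
      calc (2 : ℤ) * Y₀.card = ∑ _y ∈ Y₀, (2 : ℤ) := by simp [mul_comm]
        _ ≤ _ := Finset.sum_le_sum hcl
    have h2 := E_nonneg G Y₀ Aᶜ
    have h3 : (d : ℤ) = s + 2 := by exact_mod_cast hO.hs
    rw [h3]
    linarith

/-- adding a vertex with at least `d - 1` neighbours in `Y ∪ Aᶜ` -/
lemma clFam_insert {A : Finset V} {d s g D : ℕ} (hO : Opt G A d s g D) {K : ℕ}
    {Y₀ Y : Finset V} (hF : ClFam G A Y₀ d s K Y) (hlt : Y.card < K) {a : V} (haA : a ∈ A)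
    (haY : a ∉ Y) (hn : (d : ℤ) - 1 ≤ nin G a (Y ∪ Aᶜ)) :
    ClFam G A Y₀ d s K (insert a Y) := by
  obtain ⟨h1, h2, h3, h4, h5⟩ := hF
  have hdd : (3 : ℤ) ≤ d := by
    have := hO.hd
    omega
  have hdis : Disjoint Y Aᶜ := by
    rw [Finset.disjoint_left]
    intro y hy hyA
    exact (Finset.mem_compl.mp hyA) (h2 hy)
  refine ⟨h1.trans (Finset.subset_insert _ _), Finset.insert_subset haA h2, ?_, ?_, ?_⟩
  · rw [Finset.card_insert_of_notMem haY]; omega
  · intro y hy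
    have hsub : Y ∪ Aᶜ ⊆ insert a Y ∪ Aᶜ :=
      Finset.union_subset_union_left (Finset.subset_insert _ _)
    rcases Finset.mem_insert.mp hy with rfl | hy
    · exact le_trans (by linarith) (nin_mono G hsub y)
    · exact (h4 y hy).trans (nin_mono G hsub y)
  · rw [Finset.card_insert_of_notMem haY, cl_E_insert_self G haY, cl_E_insert_left G haY]
    rw [nin_union G hdis] at hn
    push_cast
    linarith

/-- a maximal partial closure of size less than `K` is a good set -/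
lemma clFam_max {A : Finset V} {d s g D : ℕ} (hO : Opt G A d s g D)
    {Y : Finset V} (h4 : ∀ y ∈ Y, 2 ≤ nin G y (Y ∪ Aᶜ))
    (hmax : ∀ a ∈ A, a ∉ Y → nin G a (Y ∪ Aᶜ) ≤ (d : ℤ) - 2) :
    Sat G (A \ Y) ∧ Sat G (A \ Y)ᶜ := by
  have hdd : (d : ℤ) ≤ 4 := by
    have := hO.hd
    omega
  have hc : (A \ Y)ᶜ = Y ∪ Aᶜ := by
    ext x
    simp only [Finset.mem_compl, Finset.mem_sdiff, Finset.mem_union, not_and, not_not]
    constructor
    · intro h
      by_cases hx : x ∈ A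
      · exact Or.inl (h hx)
      · exact Or.inr hx
    · rintro (h | h)
      · exact fun _ => h
      · exact fun h' => absurd h' h
  have hsum : ∀ v, nin G v (Y ∪ Aᶜ) + nin G v (A \ Y) = d := by
    intro v
    have h := nin_add_compl G v (A \ Y)
    rw [hc, hO.reg v] at h
    linarith
  constructor
  · intro v hv
    rw [hc]
    have h1 := hmax v (Finset.mem_sdiff.mp hv).1 (Finset.mem_sdiff.mp hv).2
    have h2 := hsum v
    linarith
  · intro v hv
    rw [compl_compl, hc]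
    rw [hc] at hv
    rcases Finset.mem_union.mp hv with hv | hv
    · have h1 := h4 v hv
      have h2 := hsum v
      linarith
    · have h1 := hO.satc v hv
      rw [compl_compl] at h1
      calc nin G v (A \ Y) ≤ nin G v A := nin_mono G Finset.sdiff_subset v
        _ ≤ nin G v Aᶜ := h1
        _ ≤ nin G v (Y ∪ Aᶜ) := nin_mono G Finset.subset_union_right v

/-- a partial closure of size `K` contradicts optimality -/
lemma clFam_full {A : Finset V} {d s g D : ℕ} (hO : Opt G A d s g D) {K : ℕ}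
    {Y₀ Y X : Finset V} (hF : ClFam G A Y₀ d s K Y) (hK : Y.card = K) (hXA : X ⊆ Aᶜ)
    (hXK : X.card ≤ K)
    (hX : 2 * (X.card : ℤ) + 2 * ((s * Y₀.card + 1 : ℕ) : ℤ) ≤ E G X X) : False := by
  obtain ⟨h1, h2, h3, h4, h5⟩ := hF
  have hds : (d : ℤ) = s + 2 := by exact_mod_cast hO.hs
  have hs0 : (0 : ℤ) ≤ s := by positivity
  have hA : A = A \ Y ∪ Y := by
    rw [Finset.sdiff_union_of_subset h2]
  have hd1 : Disjoint (A \ Y) Y := Finset.sdiff_disjoint
  have hdis : Disjoint (A \ Y) Aᶜ := by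
    rw [Finset.disjoint_left]
    intro y hy hyA
    exact (Finset.mem_compl.mp hyA) (Finset.mem_sdiff.mp hy).1
  have hd2 : Disjoint (A \ Y) X := Finset.disjoint_of_subset_right hXA hdis
  -- cut of `A \ Y`
  have e1 : cut G A = cut G (A \ Y) + d * Y.card - E G Y Y - 2 * E G Y (A \ Y) := by
    conv_lhs => rw [hA]
    exact cut_union_regular G hd1 hO.reg
  have e2 : E G Y (A \ Y) = d * Y.card - E G Y Y - E G Y Aᶜ := by
    have h6 : E G Y univ = d * Y.card := by
      rw [E_univ_right]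
      simp [hO.reg, mul_comm]
    have h7 : E G Y univ = E G Y (A \ Y) + E G Y Y + E G Y Aᶜ := by
      rw [← E_union_right G hd1, ← hA, ← E_union_right G disjoint_compl_right,
        Finset.union_compl]
    linarith
  have e3 := cut_union_regular G hd2 hO.reg
  have e4 := E_nonneg G X (A \ Y)
  -- cardinalities
  have c1 : ((A \ Y).card : ℤ) = A.card - Y.card := by
    rw [Finset.card_sdiff_of_subset h2]
    have := Finset.card_le_card h2
    push_cast [Nat.cast_sub this]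
    ring
  have c2 : ((A ∪ Aᶜ).card : ℤ) = A.card + Aᶜ.card := by
    rw [Finset.card_union_of_disjoint disjoint_compl_right]; push_cast; ring
  have c3 : ((A \ Y ∪ (A \ Y)ᶜ).card : ℤ) = (A \ Y).card + (A \ Y)ᶜ.card := by
    rw [Finset.card_union_of_disjoint disjoint_compl_right]; push_cast; ring
  rw [Finset.union_compl] at c2 c3
  have c4 : (Aᶜ.card : ℤ) = A.card + D := by exact_mod_cast hO.card
  have i1 : imb (A \ Y ∪ X) = D + 2 * Y.card - 2 * X.card := by
    rw [imb_union hd2]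
    have : (((A \ Y)ᶜ.card : ℤ) - (A \ Y).card) - 2 * X.card = D + 2 * Y.card - 2 * X.card := by
      linarith
    rw [this]
    apply abs_of_nonneg
    have h8 : (X.card : ℤ) ≤ Y.card := by rw [hK]; exact_mod_cast hXK
    have h9 : (0 : ℤ) ≤ D := by positivity
    linarith
  have i2 : imb A = D := by
    unfold imb
    rw [c4]
    have : (A.card : ℤ) + D - A.card = D := by ring
    rw [this]
    exact abs_of_nonneg (by positivity)
  have hm := hO.min (A \ Y ∪ X)
  rw [i1, i2] at hm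
  push_cast at hX
  rw [e2] at e1
  rw [hds] at e1 e3 h5
  nlinarith

theorem exists_Y {A : Finset V} {d s g D : ℕ} (hO : Opt G A d s g D) {L₀ : ℕ} (hL : 1 ≤ L₀)
    {Y₀ : Finset V} (hY : Y₀ ⊆ A) (hcl : ∀ y ∈ Y₀, 2 ≤ nin G y Y₀)
    (hX : ∃ X ⊆ Aᶜ, X.card ≤ (s * Y₀.card + 1) * L₀ ∧
      2 * (X.card : ℤ) + 2 * ((s * Y₀.card + 1 : ℕ) : ℤ) ≤ E G X X) :
    ∃ Y : Finset V, Y₀ ⊆ Y ∧ Y ⊆ A ∧ Y.card ≤ (s * Y₀.card + 1) * L₀ ∧ Sat G (A \ Y) ∧
      Sat G (A \ Y)ᶜ := by
  classical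
  obtain ⟨X, hXA, hXK, hXE⟩ := hX
  set K := (s * Y₀.card + 1) * L₀ with hKdef
  obtain ⟨Y, hYm, hYmax⟩ := Finset.exists_max_image
    (univ.filter fun Y : Finset V => ClFam G A Y₀ d s K Y) Finset.card
    ⟨Y₀, by
      rw [Finset.mem_filter]
      exact ⟨Finset.mem_univ _, clFam_start G hO hL hY hcl⟩⟩
  have hF : ClFam G A Y₀ d s K Y := (Finset.mem_filter.mp hYm).2
  have hlt : Y.card < K := by
    rcases lt_or_eq_of_le hF.2.2.1 with h | h
    · exact h
    · exact (clFam_full G hO hF h hXA hXK hXE).elim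
  refine ⟨Y, hF.1, hF.2.1, hF.2.2.1, ?_⟩
  refine clFam_max G hO hF.2.2.2.1 ?_
  intro a haA haY
  by_contra hcon
  push Not at hcon
  have h1 := clFam_insert G hO hF hlt haA haY (by linarith)
  have h2 := hYmax (insert a Y) (by
    rw [Finset.mem_filter]
    exact ⟨Finset.mem_univ _, h1⟩)
  rw [Finset.card_insert_of_notMem haY] at h2
  omega

end H10.IB
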