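import Pool.Agent.H10.IB.Defs

/-!
MODULE CycE (about 100 lines). The fundamental cycle of a non tree pair `(u,w)`.
The list is `α ++ m :: β.reverse`, from `u` up to `m` and down to `w`. Consecutive elements are
tree edges: `α ++ [m]` is a chain for `par x = y` with `x ≠ r` for `x ∈ α`, so `TE` and adjacency
(`Tree.par_adj`, `x ∈ X`); the second part is the reverse of `β ++ [m]`. First element `u`, last
element `w`, adjacent. Length at least 3: `α = β = []` gives `u = m = w`; `α = [u]`, `β = []`
gives `par u = m = w`, a tree edge; the same for `α = []`, `β = [w]`.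
-/

set_option autoImplicit false
set_option linter.unusedSectionVars false

namespace H10.IB

open Finset H97.Int

variable {V : Type*} [Fintype V] [DecidableEq V] (G : SimpleGraph V) [DecidableRel G.Adj]

/-- edges of the fundamental cycle of `(u,w)` -/
def FE (r : V) (par : V → V) (u w s t : V) : Prop :=
  G.Adj s t ∧ (TE r par s t ∨ (s = u ∧ t = w) ∨ (s = w ∧ t = u))

theorem cycE_chain_imp {R S : V → V → Prop} {l : List V} {m : V} (h : (l ++ [m]).IsChain R)
    (hRS : ∀ x ∈ l, ∀ y, R x y → S x y) : (l ++ [m]).IsChain S := by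
  induction l with
  | nil => simp
  | cons a l ih =>
    cases l with
    | nil =>
      simp only [List.cons_append, List.nil_append, List.isChain_cons_cons,
        List.isChain_singleton, and_true] at h ⊢
      exact hRS a (by simp) m h
    | cons b l =>
      simp only [List.cons_append, List.isChain_cons_cons] at h ⊢
      refine ⟨hRS a (by simp) b h.1, ?_⟩
      have := ih (by simpa using h.2) (fun x hx y hxy => hRS x (List.mem_cons_of_mem _ hx) y hxy)
      simpa using this

theorem cycE_FE_symm {r : V} {par : V → V} {u w s t : V} (h : FE G r par u w s t) :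
    FE G r par u w t s := by
  refine ⟨h.1.symm, ?_⟩
  rcases h.2 with h2 | h2 | h2
  · rcases h2 with h3 | h3
    · exact Or.inl (Or.inr h3)
    · exact Or.inl (Or.inl h3)
  · exact Or.inr (Or.inr ⟨h2.2, h2.1⟩)
  · exact Or.inr (Or.inl ⟨h2.2, h2.1⟩)

theorem cycE_head {l l' : List V} {m : V} : (l ++ m :: l').head? = (l ++ [m]).head? := by
  cases l <;> simp

theorem cyc_of_NT {X : Finset V} {r : V} {lev : V → ℕ} {par : V → V} {j : ℕ}
    (hT : Tree G X r lev par j) {u w : V} (hp : (u, w) ∈ NT G X r par) {α β : List V} {m : V}
    (hα : Up r par u α m) (hβ : Up r par w β m) (hnd : (α ++ m :: β).Nodup)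
    (hX : ∀ x ∈ α ++ m :: β, x ∈ X) :
    Cyc (FE G r par u w) (α ++ m :: β.reverse) := by
  classical
  obtain ⟨hα1, hα2, hα3⟩ := hα
  obtain ⟨hβ1, hβ2, hβ3⟩ := hβ
  simp only [NT, Finset.mem_filter, Finset.mem_product] at hp
  obtain ⟨-, hadj, hnt⟩ := hp
  have chA : (α ++ [m]).IsChain (FE G r par u w) := by
    refine cycE_chain_imp hα2 (fun x hx y hxy => ?_)
    have hxX : x ∈ X := hX x (by simp [hx])
    have := hT.par_adj x hxX (hα3 x hx)
    exact ⟨hxy ▸ this, Or.inl (Or.inl ⟨hα3 x hx, hxy⟩)⟩
  have chB : (β ++ [m]).IsChain (FE G r par u w) := by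
    refine cycE_chain_imp hβ2 (fun x hx y hxy => ?_)
    have hxX : x ∈ X := hX x (by simp [hx])
    have := hT.par_adj x hxX (hβ3 x hx)
    exact ⟨hxy ▸ this, Or.inl (Or.inl ⟨hβ3 x hx, hxy⟩)⟩
  have chB' : (m :: β.reverse).IsChain (FE G r par u w) := by
    have : m :: β.reverse = (β ++ [m]).reverse := by simp
    rw [this, List.isChain_reverse]
    exact chB.imp (fun x y h => cycE_FE_symm G h)
  refine ⟨?_, ?_, ?_, ?_⟩
  · -- length
    by_contra hlt
    have hl : α.length + β.length ≤ 1 := by
      simp only [List.length_append, List.length_cons, List.length_reverse, not_le] at hlt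
      omega
    match α, β, hl with
    | [], [], _ =>
      simp only [List.nil_append, List.head?_cons, Option.some.injEq] at hα1 hβ1
      exact hadj.ne (hα1.symm.trans hβ1)
    | [x], [], _ =>
      simp only [List.nil_append, List.cons_append, List.head?_cons, Option.some.injEq] at hα1 hβ1
      simp only [List.cons_append, List.nil_append, List.isChain_cons_cons,
        List.isChain_singleton, and_true] at hα2
      subst hα1
      subst hβ1
      exact hnt (Or.inl ⟨hα3 x (by simp), hα2⟩)
    | [], [x], _ =>
      simp only [List.nil_append, List.cons_append, List.head?_cons, Option.some.injEq] at hα1 hβ1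
      simp only [List.cons_append, List.nil_append, List.isChain_cons_cons,
        List.isChain_singleton, and_true] at hβ2
      subst hα1
      subst hβ1
      exact hnt (Or.inr ⟨hβ3 x (by simp), hβ2⟩)
    | x :: y :: l, b, h => simp at h; omega
    | [x], y :: l, h => simp at h
    | [], x :: y :: l, h => simp at h
  · -- nodup
    have : (α ++ m :: β.reverse).Perm (α ++ m :: β) :=
      List.Perm.append_left α (List.Perm.cons m (List.reverse_perm β))
    exact this.nodup_iff.mpr hnd
  · exact List.isChain_split.mpr ⟨chA, chB'⟩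
  · intro x y hx hy
    rw [cycE_head, hα1, Option.some.injEq] at hx
    rw [List.getLast?_eq_head?_reverse] at hy
    have : (α ++ m :: β.reverse).reverse = β ++ m :: α.reverse := by simp
    rw [this, cycE_head, hβ1, Option.some.injEq] at hy
    subst hx
    subst hy
    exact ⟨hadj.symm, Or.inr (Or.inr ⟨rfl, rfl⟩)⟩

end H10.IB
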