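import Pool.Agent.H97.Int.Defects
import Pool.Agent.H97.Int.Carve

/-!
# Internal partitions with bounded imbalance, degrees 3 and 4: definitions

Base: `Pool.Agent.H97.Int` (`E G S T` = number of ordered adjacent pairs, `nin G v S` = number of
neighbours of `v` in `S`, `nbr G U` = closed neighbourhood, `nb G r U` = iterated closed
neighbourhood, `Sat`, `cut`, `imb`, `rb G U v r` = ball of radius `r` inside `U`).
Cycles and thetas are given by lists of vertices.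
-/

set_option autoImplicit false
set_option linter.unusedSectionVars false

namespace H10.IB

open Finset H97.Int

variable {V : Type*} [Fintype V] [DecidableEq V] (G : SimpleGraph V) [DecidableRel G.Adj]

/-- every nonempty set of at most `g` vertices in `B` has a vertex with at most one neighbour in
the set (no cycle of length at most `g` in `B`) -/
def Girth (B : Finset V) (g : ℕ) : Prop :=
  ∀ X : Finset V, X ⊆ B → X.Nonempty → X.card ≤ g → ∃ x ∈ X, nin G x X < 2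

/-- the list `c` is a cycle for the relation `R` (no vertex repeated, consecutive elements are
related, the last element is related to the first one) -/
structure Cyc (R : V → V → Prop) (c : List V) : Prop where
  len : 3 ≤ c.length
  nodup : c.Nodup
  chain : c.IsChain R
  close : ∀ x y, c.head? = some x → c.getLast? = some y → R y x

/-- the data of a theta graph: two branch vertices and the interior vertices of three paths -/
structure Th (V : Type*) where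
  a : V
  b : V
  l₁ : List V
  l₂ : List V
  l₃ : List V

/-- vertex set of a theta -/
def Th.vs (θ : Th V) : Finset V :=
  insert θ.a (insert θ.b (θ.l₁.toFinset ∪ θ.l₂.toFinset ∪ θ.l₃.toFinset))

/-- number of vertices of a theta -/
def Th.size {V : Type*} (θ : Th V) : ℕ := θ.l₁.length + θ.l₂.length + θ.l₃.length + 2

def Th.s₁ {V : Type*} (θ : Th V) : List V := θ.a :: (θ.l₁ ++ [θ.b])
def Th.s₂ {V : Type*} (θ : Th V) : List V := θ.a :: (θ.l₂ ++ [θ.b])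
def Th.s₃ {V : Type*} (θ : Th V) : List V := θ.a :: (θ.l₃ ++ [θ.b])

/-- `θ` is a theta subgraph of `G` -/
structure IsTheta (θ : Th V) : Prop where
  chain₁ : θ.s₁.IsChain G.Adj
  chain₂ : θ.s₂.IsChain G.Adj
  chain₃ : θ.s₃.IsChain G.Adj
  nodup : (θ.a :: θ.b :: (θ.l₁ ++ θ.l₂ ++ θ.l₃)).Nodup
  ne₁₂ : θ.l₁ ≠ [] ∨ θ.l₂ ≠ []
  ne₁₃ : θ.l₁ ≠ [] ∨ θ.l₃ ≠ []
  ne₂₃ : θ.l₂ ≠ [] ∨ θ.l₃ ≠ []

/-- `y` and `z` are consecutive on one of the three paths -/
def Th.Cons {V : Type*} (θ : Th V) (y z : V) : Prop :=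
  [y, z] <:+: θ.s₁ ∨ [z, y] <:+: θ.s₁ ∨ [y, z] <:+: θ.s₂ ∨ [z, y] <:+: θ.s₂ ∨
    [y, z] <:+: θ.s₃ ∨ [z, y] <:+: θ.s₃

/-- `θ` is induced and has no ears of length two or three inside `B` -/
structure EarFree (B : Finset V) (θ : Th V) : Prop where
  e1 : ∀ y ∈ θ.vs, ∀ z ∈ θ.vs, G.Adj y z → θ.Cons y z
  e2 : ∀ y ∈ θ.vs, ∀ z ∈ θ.vs, y ≠ z → ∀ w ∈ B, w ∉ θ.vs → G.Adj y w → ¬ G.Adj w z
  e3 : ∀ y ∈ θ.vs, ∀ z ∈ θ.vs, y ≠ z → ∀ w₁ ∈ B, ∀ w₂ ∈ B, w₁ ∉ θ.vs → w₂ ∉ θ.vs → w₁ ≠ w₂ →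
    G.Adj y w₁ → G.Adj w₁ w₂ → ¬ G.Adj w₂ z

/-- the set `Z` has no ears of length two or three in `B` -/
def NoEars (B Z : Finset V) : Prop :=
  (∀ y ∈ Z, ∀ z ∈ Z, y ≠ z → ∀ w ∈ B, w ∉ Z → G.Adj y w → ¬ G.Adj w z) ∧
  (∀ y ∈ Z, ∀ z ∈ Z, y ≠ z → ∀ w₁ ∈ B, ∀ w₂ ∈ B, w₁ ∉ Z → w₂ ∉ Z → w₁ ≠ w₂ →
    G.Adj y w₁ → G.Adj w₁ w₂ → ¬ G.Adj w₂ z)

/-- `Z` together with the exits (vertices outside `A` with a neighbour in `A`) adjacent to `Z` -/
def plus (A Z : Finset V) : Finset V :=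
  Z ∪ (Aᶜ).filter fun x => 1 ≤ nin G x A ∧ 1 ≤ nin G x Z

/-- `Z` can be moved from `Aᶜ` to `A` -/
def Sw (A Z : Finset V) : Prop :=
  Z ⊆ Aᶜ ∧ (∀ v ∈ Z, 2 ≤ nin G v (A ∪ Z)) ∧ (∀ w ∈ Aᶜ, w ∉ Z → nin G w (A ∪ Z) ≤ 1)

/-- `Z` can be moved and is far from `F` -/
def Piece (A F Z : Finset V) : Prop := Sw G A Z ∧ Disjoint (nbr G Z) F

/-- a region outside `F`: four movable sets with `|X₁|+|X₂|+|X₃| - 2|U|` between 1 and 20 -/
def Region (A F : Finset V) (L u x₁ x₂ x₃ : ℕ) : Prop :=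
  ∃ U X₁ X₂ X₃ : Finset V, Piece G A F U ∧ Piece G A F X₁ ∧ Piece G A F X₂ ∧ Piece G A F X₃ ∧
    U.card = u ∧ X₁.card = x₁ ∧ X₂.card = x₂ ∧ X₃.card = x₃ ∧
    1 ≤ u ∧ u ≤ L ∧ x₁ ≤ L ∧ x₂ ≤ L ∧ x₃ ≤ L ∧ 2 * u + 1 ≤ x₁ + x₂ + x₃ ∧ x₁ + x₂ + x₃ ≤ 2 * u + 20

/-- a rooted spanning tree of `X` of depth at most `j` given by parents -/
structure Tree (X : Finset V) (r : V) (lev : V → ℕ) (par : V → V) (j : ℕ) : Prop where
  root : r ∈ X
  lev_le : ∀ x ∈ X, lev x ≤ j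
  par_mem : ∀ x ∈ X, x ≠ r → par x ∈ X
  par_adj : ∀ x ∈ X, x ≠ r → G.Adj x (par x)
  par_lev : ∀ x ∈ X, x ≠ r → lev x = lev (par x) + 1

/-- `α` followed by `m` is the way from `u` up to its ancestor `m` -/
def Up (r : V) (par : V → V) (u : V) (α : List V) (m : V) : Prop :=
  (α ++ [m]).head? = some u ∧ (α ++ [m]).IsChain (fun x y => par x = y) ∧ ∀ x ∈ α, x ≠ r

/-- the pair `(s,t)` is an edge of the tree -/
def TE (r : V) (par : V → V) (s t : V) : Prop := (s ≠ r ∧ par s = t) ∨ (t ≠ r ∧ par t = s)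

open Classical in
/-- ordered pairs of adjacent vertices of `X` which are not tree edges -/
noncomputable def NT (X : Finset V) (r : V) (par : V → V) : Finset (V × V) :=
  (X ×ˢ X).filter fun p => G.Adj p.1 p.2 ∧ ¬ TE r par p.1 p.2

/-- the standing situation: `A` is the smaller side of an optimal internal partition, `D` its
imbalance -/
structure Opt (A : Finset V) (d s g D : ℕ) : Prop where
  hd : d = 3 ∨ d = 4
  hs : d = s + 2
  reg : ∀ v, G.degree v = d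
  sat : Sat G A
  satc : Sat G Aᶜ
  card : Aᶜ.card = A.card + D
  min : ∀ A' : Finset V, (s : ℤ) * imb A + 2 * cut G A ≤ s * imb A' + 2 * cut G A'
  gD : 2 * g + 2 ≤ D
  g10 : 10 ≤ g
  girth : Girth G Aᶜ g
  Dle : D ≤ 8 * Nat.log 2 (Fintype.card V) + 13

end H10.IB
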