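import Pool.Agent.H10.IB.LocalB

/-!
MODULE DenseB (about 120 lines). Both sides have density at least 1.3 after removing few vertices.
Write `B = Aᶜ`, `|B| = |A| + D`, `n = |A| + |B|`, `B' = B \ N`. `E(B,B) = d |B| - E(B,A)`
(`E_univ_right`, regularity), `3 E(B,A) <= |B|` (`Opt.exits`), and
`E(B,B) <= E(B',B') + 2 d |B ∩ N|`. So
`30 E(B',B') >= 10 (3 d - 1) |B| - 60 d |N| >= 78 |B|` because `|B| >= n/2 >= 120 |N|`
(`d = 3`: `2 |B| >= 180 |N|`; `d = 4`: `32 |B| >= 240 |N|`). Nonempty: `|N| < |B|`, `n > 0`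
(`D >= 22`).
For `A`: `3 E(A,B) = 3 E(B,A) <= |A| + D`, so `30 E(A',A') >= (30 d - 10) |A| - 10 D - 60 d |N|
>= 78 |A|` because `|A| = (n - D)/2 >= 120 |N| + 119 D`.
-/

set_option autoImplicit false
set_option linter.unusedSectionVars false

namespace H10.IB

open Finset H97.Int

variable {V : Type*} [Fintype V] [DecidableEq V] (G : SimpleGraph V) [DecidableRel G.Adj]

variable {A : Finset V} {d s g D : ℕ}

/-- in a `d`-regular graph `E S univ = d |S|` -/
theorem denseB_univ {d : ℕ} (hreg : ∀ v, G.degree v = d) (S : Finset V) :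
    E G S univ = d * (S.card : ℤ) := by
  rw [E_univ_right]
  simp [hreg, mul_comm]

/-- removing few vertices destroys few edges -/
theorem denseB_sdiff {d : ℕ} (hreg : ∀ v, G.degree v = d) (S N : Finset V) :
    E G S S ≤ E G (S \ N) (S \ N) + 2 * d * (N.card : ℤ) := by
  have hd : Disjoint (S \ N) (S ∩ N) := by
    rw [Finset.disjoint_left]
    intro x hx hx'
    exact (Finset.mem_sdiff.mp hx).2 (Finset.mem_inter.mp hx').2
  have hS : S = (S \ N) ∪ (S ∩ N) := (Finset.sdiff_union_inter S N).symm
  have h1 : E G S S = E G (S \ N) S + E G (S ∩ N) S := by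
    conv_lhs => rw [hS]
    rw [E_union_left G hd]
    rw [← hS]
  have h2 : E G (S \ N) S = E G (S \ N) (S \ N) + E G (S \ N) (S ∩ N) := by
    conv_lhs => rw [hS]
    rw [← E_union_right G hd, ← hS]
  have hc : ((S ∩ N).card : ℤ) ≤ (N.card : ℤ) := by
    exact_mod_cast Finset.card_le_card Finset.inter_subset_right
  have hd0 : (0 : ℤ) ≤ (d : ℤ) := by positivity
  have hb : (d : ℤ) * ((S ∩ N).card : ℤ) ≤ d * (N.card : ℤ) := mul_le_mul_of_nonneg_left hc hd0
  have h3 : E G (S ∩ N) S ≤ d * (N.card : ℤ) :=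
    (E_mono_right G (Finset.subset_univ S) _).trans ((denseB_univ G hreg _).le.trans hb)
  have h4 : E G (S \ N) (S ∩ N) ≤ d * (N.card : ℤ) := by
    rw [E_symm]
    exact (E_mono_right G (Finset.subset_univ _) _).trans ((denseB_univ G hreg _).le.trans hb)
  linarith

/-- edges inside `S` in a regular graph -/
theorem denseB_self {d : ℕ} (hreg : ∀ v, G.degree v = d) (S : Finset V) :
    E G S S + E G S Sᶜ = d * (S.card : ℤ) := by
  rw [← denseB_univ G hreg S, ← E_union_right G disjoint_compl_right, Finset.union_compl]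

theorem Opt.dense_compl (h : Opt G A d s g D) {N : Finset V}
    (hN : 240 * N.card ≤ Fintype.card V) :
    (Aᶜ \ N).Nonempty ∧ 26 * ((Aᶜ \ N).card : ℤ) ≤ 10 * E G (Aᶜ \ N) (Aᶜ \ N) := by
  have hex := Opt.exits G h
  have h1 := denseB_sdiff G h.reg Aᶜ N
  have h2 := denseB_self G h.reg Aᶜ
  rw [compl_compl] at h2
  have hcard : A.card + Aᶜ.card = Fintype.card V := Finset.card_add_card_compl A
  have hD := h.card
  have hgD := h.gD
  have hg10 := h.g10
  have hle : (Aᶜ \ N).card ≤ Aᶜ.card := Finset.card_le_card Finset.sdiff_subset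
  have hge : Aᶜ.card ≤ (Aᶜ \ N).card + N.card := by
    have := Finset.le_card_sdiff N Aᶜ
    omega
  constructor
  · rw [← Finset.card_pos]
    omega
  · zify at hcard hD hN hle
    rcases h.hd with hd | hd
    · subst hd
      push_cast at h1 h2
      linarith
    · subst hd
      push_cast at h1 h2
      linarith

theorem Opt.dense (h : Opt G A d s g D) {N : Finset V}
    (hN : 240 * (N.card + D) ≤ Fintype.card V) :
    (A \ N).Nonempty ∧ 26 * ((A \ N).card : ℤ) ≤ 10 * E G (A \ N) (A \ N) := by
  have hex := Opt.exits G h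
  have h1 := denseB_sdiff G h.reg A N
  have h2 := denseB_self G h.reg A
  rw [E_symm] at hex
  have hcard : A.card + Aᶜ.card = Fintype.card V := Finset.card_add_card_compl A
  have hD := h.card
  have hgD := h.gD
  have hg10 := h.g10
  have hle : (A \ N).card ≤ A.card := Finset.card_le_card Finset.sdiff_subset
  have hge : A.card ≤ (A \ N).card + N.card := by
    have := Finset.le_card_sdiff N A
    omega
  constructor
  · rw [← Finset.card_pos]
    omega
  · have hD0 : (0 : ℤ) ≤ (D : ℤ) := by positivity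
    have hN0 : (0 : ℤ) ≤ (N.card : ℤ) := by positivity
    zify at hcard hD hN hle
    rcases h.hd with hd | hd
    · subst hd
      push_cast at h1 h2
      linarith
    · subst hd
      push_cast at h1 h2
      linarith

end H10.IB
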