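import Pool.Agent.H10.IB.Defs

/-!
MODULE ThBasic (about 150 lines). Elementary facts on thetas.
The definitions `rot`, `swp`, `rev` permute the paths or exchange the branch vertices.
`rot`, `swp`, `rev`: permutations of lists for `nodup`, reversed chains (`G.Adj` is symmetric) for
`rev`. `card_vs`: the finset is `(a :: b :: (l₁ ++ l₂ ++ l₃)).toFinset`, nodup.
-/

set_option autoImplicit false
set_option linter.unusedSectionVars false

namespace H10.IB

open Finset H97.Int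

variable {V : Type*} [Fintype V] [DecidableEq V] (G : SimpleGraph V) [DecidableRel G.Adj]

def Th.rot {V : Type*} (θ : Th V) : Th V := ⟨θ.a, θ.b, θ.l₂, θ.l₃, θ.l₁⟩
def Th.swp {V : Type*} (θ : Th V) : Th V := ⟨θ.a, θ.b, θ.l₂, θ.l₁, θ.l₃⟩
def Th.rev {V : Type*} (θ : Th V) : Th V := ⟨θ.b, θ.a, θ.l₁.reverse, θ.l₂.reverse, θ.l₃.reverse⟩

lemma Th.mem_vs {θ : Th V} {v : V} :
    v ∈ θ.vs ↔ v = θ.a ∨ v = θ.b ∨ v ∈ θ.l₁ ∨ v ∈ θ.l₂ ∨ v ∈ θ.l₃ := by
  simp [Th.vs, or_assoc]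

lemma Th.rot_vs (θ : Th V) : θ.rot.vs = θ.vs := by
  ext v; simp only [Th.mem_vs, Th.rot]; tauto

lemma Th.swp_vs (θ : Th V) : θ.swp.vs = θ.vs := by
  ext v; simp only [Th.mem_vs, Th.swp]; tauto

lemma Th.rev_vs (θ : Th V) : θ.rev.vs = θ.vs := by
  ext v; simp only [Th.mem_vs, Th.rev, List.mem_reverse]; tauto

lemma Th.rot_size (θ : Th V) : θ.rot.size = θ.size := by
  simp only [Th.size, Th.rot]; ring

lemma Th.swp_size (θ : Th V) : θ.swp.size = θ.size := by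
  simp only [Th.size, Th.swp]; ring

lemma Th.rev_size (θ : Th V) : θ.rev.size = θ.size := by
  simp only [Th.size, Th.rev, List.length_reverse]

lemma Th.rot_cons {θ : Th V} {y z : V} : θ.rot.Cons y z ↔ θ.Cons y z := by
  simp only [Th.Cons, Th.rot, Th.s₁, Th.s₂, Th.s₃]
  tauto

lemma Th.swp_cons {θ : Th V} {y z : V} : θ.swp.Cons y z ↔ θ.Cons y z := by
  simp only [Th.Cons, Th.swp, Th.s₁, Th.s₂, Th.s₃]
  tauto

private lemma thBasic_rev_list {W : Type*} (a b : W) (l : List W) :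
    b :: (l.reverse ++ [a]) = (a :: (l ++ [b])).reverse := by
  simp

private lemma thBasic_infix_rev {W : Type*} (y z : W) (l : List W) :
    [y, z] <:+: l.reverse ↔ [z, y] <:+: l := by
  have h : [y, z] = ([z, y] : List W).reverse := by simp
  rw [h, List.reverse_infix]

lemma Th.rev_cons {θ : Th V} {y z : V} : θ.rev.Cons y z ↔ θ.Cons y z := by
  simp only [Th.Cons, Th.rev, Th.s₁, Th.s₂, Th.s₃, thBasic_rev_list, thBasic_infix_rev]
  tauto

lemma Th.cons_comm {θ : Th V} {y z : V} : θ.Cons y z ↔ θ.Cons z y := by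
  simp only [Th.Cons]
  tauto

lemma IsTheta.rot {θ : Th V} (h : IsTheta G θ) : IsTheta G θ.rot := by
  refine ⟨h.chain₂, h.chain₃, h.chain₁, ?_, h.ne₂₃, h.ne₁₂.symm, h.ne₁₃.symm⟩
  have hp : (θ.l₁ ++ θ.l₂ ++ θ.l₃).Perm (θ.l₂ ++ θ.l₃ ++ θ.l₁) := by
    rw [List.append_assoc]
    exact List.perm_append_comm
  exact ((hp.cons θ.b).cons θ.a).nodup_iff.mp h.nodup

lemma IsTheta.swp {θ : Th V} (h : IsTheta G θ) : IsTheta G θ.swp := by
  refine ⟨h.chain₂, h.chain₁, h.chain₃, ?_, h.ne₁₂.symm, h.ne₂₃, h.ne₁₃⟩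
  have hp : (θ.l₁ ++ θ.l₂ ++ θ.l₃).Perm (θ.l₂ ++ θ.l₁ ++ θ.l₃) :=
    List.perm_append_comm.append_right _
  exact ((hp.cons θ.b).cons θ.a).nodup_iff.mp h.nodup

private lemma thBasic_chain_rev {a b : V} {l : List V} (h : (a :: (l ++ [b])).IsChain G.Adj) :
    (b :: (l.reverse ++ [a])).IsChain G.Adj := by
  rw [thBasic_rev_list, List.isChain_reverse]
  exact h.imp fun x y hxy => hxy.symm

private lemma thBasic_ne_rev {W : Type*} {l l' : List W} (h : l ≠ [] ∨ l' ≠ []) :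
    l.reverse ≠ [] ∨ l'.reverse ≠ [] := by
  simpa using h

lemma IsTheta.rev {θ : Th V} (h : IsTheta G θ) : IsTheta G θ.rev := by
  refine ⟨thBasic_chain_rev G h.chain₁, thBasic_chain_rev G h.chain₂, thBasic_chain_rev G h.chain₃,
    ?_, thBasic_ne_rev h.ne₁₂, thBasic_ne_rev h.ne₁₃, thBasic_ne_rev h.ne₂₃⟩
  have hp : (θ.l₁ ++ θ.l₂ ++ θ.l₃).Perm (θ.l₁.reverse ++ θ.l₂.reverse ++ θ.l₃.reverse) :=
    ((θ.l₁.reverse_perm.symm.append θ.l₂.reverse_perm.symm).append θ.l₃.reverse_perm.symm)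
  exact (((hp.cons θ.b).cons θ.a).trans (List.Perm.swap _ _ _)).nodup_iff.mp h.nodup

lemma IsTheta.card_vs {θ : Th V} (h : IsTheta G θ) : θ.vs.card = θ.size := by
  have h1 : θ.vs = (θ.a :: θ.b :: (θ.l₁ ++ θ.l₂ ++ θ.l₃)).toFinset := by
    ext v
    simp [Th.mem_vs]
  rw [h1, List.toFinset_card_of_nodup h.nodup]
  simp only [List.length_cons, List.length_append, Th.size]

lemma EarFree.rot {B : Finset V} {θ : Th V} (h : EarFree G B θ) : EarFree G B θ.rot := by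
  constructor
  · intro y hy z hz hyz
    rw [Th.rot_vs] at hy hz
    rw [Th.rot_cons]
    exact h.e1 y hy z hz hyz
  · intro y hy z hz
    rw [Th.rot_vs] at hy hz ⊢
    exact h.e2 y hy z hz
  · intro y hy z hz
    rw [Th.rot_vs] at hy hz ⊢
    exact h.e3 y hy z hz

lemma EarFree.swp {B : Finset V} {θ : Th V} (h : EarFree G B θ) : EarFree G B θ.swp := by
  constructor
  · intro y hy z hz hyz
    rw [Th.swp_vs] at hy hz
    rw [Th.swp_cons]
    exact h.e1 y hy z hz hyz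
  · intro y hy z hz
    rw [Th.swp_vs] at hy hz ⊢
    exact h.e2 y hy z hz
  · intro y hy z hz
    rw [Th.swp_vs] at hy hz ⊢
    exact h.e3 y hy z hz

end H10.IB
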