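import Pool.Agent.H10.IB.Lists
import Pool.Agent.H10.IB.ThBasic

/-!
MODULE EarL (about 130 lines). Ears.
`ear_split`: `A₁` has an element in `S` (its head), let `s` be the last one; `A₂` has an element in
`S` (its last one), let `t` be the first one (induction on the lists).
`theta_of_cyc_ear`: by `Cyc.arcs` rotate the cycle to `s :: (x₁ ++ t :: x₂)`, take
`θ = ⟨s, t, x₁, x₂.reverse, q⟩`. Side 1: prefix of the cycle. Side 2: reverse of `t :: x₂` closed by
`s`. `ne₁₂`: the cycle has length at least 3. `ne₁₃`: if `x₁ = []` and `q = []` then `R s t`.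
`ne₂₃`: if `x₂ = []` and `q = []` then `R t s` (closing relation).
-/

set_option autoImplicit false
set_option linter.unusedSectionVars false

namespace H10.IB

open Finset H97.Int

variable {V : Type*} [Fintype V] [DecidableEq V] (G : SimpleGraph V) [DecidableRel G.Adj]

private theorem earL_last (S : Finset V) : ∀ (L : List V), (∃ x ∈ L, x ∈ S) →
    ∃ (s : V) (L' q : List V), L = L' ++ s :: q ∧ s ∈ S ∧ ∀ v ∈ q, v ∉ S := by
  intro L
  induction L with
  | nil =>
    rintro ⟨x, hx, -⟩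
    simp at hx
  | cons a L ih =>
    intro h
    by_cases hL : ∃ x ∈ L, x ∈ S
    · obtain ⟨s, L', q, hLq, hs, hq⟩ := ih hL
      exact ⟨s, a :: L', q, by rw [hLq, List.cons_append], hs, hq⟩
    · refine ⟨a, [], L, rfl, ?_, fun v hv hvS => hL ⟨v, hv, hvS⟩⟩
      obtain ⟨x, hx, hxS⟩ := h
      rcases List.mem_cons.1 hx with rfl | hx
      · exact hxS
      · exact absurd ⟨x, hx, hxS⟩ hL

private theorem earL_first (S : Finset V) : ∀ (L : List V), (∃ x ∈ L, x ∈ S) →
    ∃ (t : V) (q L' : List V), L = q ++ t :: L' ∧ t ∈ S ∧ ∀ v ∈ q, v ∉ S := by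
  intro L
  induction L with
  | nil =>
    rintro ⟨x, hx, -⟩
    simp at hx
  | cons a L ih =>
    intro h
    by_cases ha : a ∈ S
    · exact ⟨a, [], L, rfl, ha, by simp⟩
    · have hL : ∃ x ∈ L, x ∈ S := by
        obtain ⟨x, hx, hxS⟩ := h
        rcases List.mem_cons.1 hx with rfl | hx
        · exact absurd hxS ha
        · exact ⟨x, hx, hxS⟩
      obtain ⟨t, q, L', hLq, ht, hq⟩ := ih hL
      refine ⟨t, a :: q, L', by rw [hLq, List.cons_append], ht, ?_⟩
      intro v hv
      rcases List.mem_cons.1 hv with rfl | hv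
      · exact ha
      · exact hq v hv

theorem ear_split (S : Finset V) (A₁ A₂ : List V) (h₁ : ∃ x, A₁.head? = some x ∧ x ∈ S)
    (h₂ : ∃ x, A₂.getLast? = some x ∧ x ∈ S) :
    ∃ (s t : V) (A₁' q₁ q₂ A₂' : List V), A₁ = A₁' ++ s :: q₁ ∧ A₂ = q₂ ++ t :: A₂' ∧ s ∈ S ∧
      t ∈ S ∧ (∀ v ∈ q₁, v ∉ S) ∧ (∀ v ∈ q₂, v ∉ S) := by
  obtain ⟨x, hx, hxS⟩ := h₁
  obtain ⟨y, hy, hyS⟩ := h₂
  obtain ⟨s, A₁', q₁, e₁, hs, hq₁⟩ := earL_last S A₁ ⟨x, List.mem_of_mem_head? hx, hxS⟩
  obtain ⟨t, q₂, A₂', e₂, ht, hq₂⟩ := earL_first S A₂ ⟨y, List.mem_of_mem_getLast? hy, hyS⟩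
  exact ⟨s, t, A₁', q₁, q₂, A₂', e₁, e₂, hs, ht, hq₁, hq₂⟩

theorem theta_of_cyc_ear {R : V → V → Prop} (hR : ∀ x y, R x y → G.Adj x y) {c : List V}
    (hc : Cyc R c) {s t : V} {q : List V} (hs : s ∈ c) (ht : t ∈ c) (hst : s ≠ t)
    (hqn : q.Nodup) (hqc : ∀ v ∈ q, v ∉ c) (hch : (s :: (q ++ [t])).IsChain G.Adj)
    (hne : q = [] → ¬ R s t ∧ ¬ R t s) :
    ∃ θ : Th V, IsTheta G θ ∧ θ.size = c.length + q.length ∧ ∀ v ∈ θ.vs, v ∈ c ∨ v ∈ q := by
  obtain ⟨x₁, x₂, hcyc, hperm⟩ := hc.arcs hs ht hst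
  have hlen := hperm.length_eq
  have hlen3 := hcyc.len
  simp only [List.length_cons, List.length_append] at hlen hlen3
  have hchR : (s :: (x₁ ++ t :: x₂)).IsChain R := hcyc.chain
  have hsplit : (s :: (x₁ ++ [t])).IsChain R ∧ (t :: x₂).IsChain R := by
    have h := hchR
    rw [← List.cons_append, List.isChain_split] at h
    exact h
  have hclose : (t :: (x₂ ++ [s])).IsChain R := by
    rw [← List.cons_append, List.isChain_append]
    refine ⟨hsplit.2, by simp, ?_⟩
    intro x hx y hy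
    have hy' : y = s := by simpa using hy.symm
    subst hy'
    refine hcyc.close y x rfl ?_
    have : (y :: (x₁ ++ t :: x₂)).getLast? = (t :: x₂).getLast? := by
      rw [← List.cons_append, List.getLast?_append_of_ne_nil _ (by simp)]
    rw [this]
    exact hx
  have hnd : (s :: (x₁ ++ t :: x₂)).Nodup := hcyc.nodup
  have hmem : ∀ v, v ∈ c ↔ v = s ∨ v = t ∨ v ∈ x₁ ∨ v ∈ x₂ := by
    intro v
    rw [← hperm.mem_iff]
    simp only [List.mem_cons, List.mem_append]
    tauto
  refine ⟨⟨s, t, x₁, x₂.reverse, q⟩, ⟨?_, ?_, ?_, ?_, ?_, ?_, ?_⟩, ?_, ?_⟩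
  · exact hsplit.1.imp (fun a b h => hR a b h)
  · have h2 : (t :: (x₂ ++ [s])).reverse.IsChain G.Adj := by
      rw [List.isChain_reverse]
      exact hclose.imp (fun a b h => (hR a b h).symm)
    simpa [Th.s₂] using h2
  · exact hch
  · have hp : (s :: t :: (x₁ ++ x₂.reverse ++ q)).Perm ((s :: (x₁ ++ t :: x₂)) ++ q) := by
      rw [List.cons_append]
      refine List.Perm.cons s ?_
      have e1 : (x₁ ++ t :: x₂ ++ q).Perm (t :: (x₁ ++ x₂ ++ q)) := by
        have := (List.perm_middle (a := t) (l₁ := x₁) (l₂ := x₂)).append_right q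
        simpa using this
      refine (List.Perm.trans ?_ e1.symm)
      refine List.Perm.cons t ?_
      exact ((List.reverse_perm x₂).append_left x₁).append_right q
    rw [hp.nodup_iff, List.nodup_append]
    refine ⟨hnd, hqn, ?_⟩
    intro a ha b hb hab
    subst hab
    exact hqc a hb (hperm.mem_iff.1 ha)
  · by_contra hcon
    push Not at hcon
    obtain ⟨h1, h2⟩ := hcon
    have h2' : x₂ = [] := by simpa using h2
    have h1' : x₁ = [] := h1
    rw [h1', h2'] at hlen3
    simp at hlen3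
  · by_contra hcon
    push Not at hcon
    obtain ⟨h1, h2⟩ := hcon
    have h1' : x₁ = [] := h1
    have h2' : q = [] := h2
    have h3 := hsplit.1
    rw [h1'] at h3
    exact (hne h2').1 (by simpa using h3)
  · by_contra hcon
    push Not at hcon
    obtain ⟨h1, h2⟩ := hcon
    have h1' : x₂ = [] := by simpa using h1
    have h2' : q = [] := h2
    have h3 := hclose
    rw [h1'] at h3
    exact (hne h2').2 (by simpa using h3)
  · simp only [Th.size, List.length_reverse]
    omega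
  · intro v hv
    rw [Th.mem_vs] at hv
    rw [hmem]
    simp only [List.mem_reverse] at hv
    tauto

end H10.IB
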