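import Pool.Agent.H10.IB.ThBasic

/-!
MODULE Ears (about 140 lines). Ears of a theta and of the cycle `C₁ = θ.vs \ l₁`.
`earFree_vs`: by definition.
`cons_l₁`: if `v ∈ l₁`, `z ∉ l₁` and `θ.Cons v z` then (`v` occurs only on side 1, nodup)
`[v,z]` or `[z,v]` is an infix of `s₁`, so `z = a` and `v` is the head of `l₁`, or `z = b` and `v`
is the last element of `l₁`.
`noEars₁`: let `w ∈ B`, `w ∉ C₁` be adjacent to `y ≠ z` in `C₁`. If `w ∉ θ.vs`: `e2`. Otherwise
`w ∈ l₁`, `e1` and `cons_l₁`: `{y,z} = {a,b}` and `w` is head and last element of `l₁`, so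
`l₁.length = 1`. Let `y, w₁, w₂, z` be an ear of length three. If `w₁, w₂ ∉ θ.vs`: `e3`. If
`w₁ ∈ l₁`, `w₂ ∉ θ.vs`: `w₁, w₂, z` contradicts `e2` (`w₁ ≠ z`). The same if `w₂ ∈ l₁`,
`w₁ ∉ θ.vs`. If both are in `l₁`: `w₁` and `w₂` are head or last element (`cons_l₁` with `y`, `z`),
different, adjacent, so consecutive in `s₁` (`e1`): `l₁.length = 2`.
-/

set_option autoImplicit false
set_option linter.unusedSectionVars false

namespace H10.IB

open Finset H97.Int

variable {V : Type*} [Fintype V] [DecidableEq V] (G : SimpleGraph V) [DecidableRel G.Adj]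

lemma earFree_vs {B : Finset V} {θ : Th V} (h : EarFree G B θ) : NoEars G B θ.vs :=
  ⟨h.e2, h.e3⟩

private lemma infix_idx {p q : V} {L : List V} (h : [p, q] <:+: L) :
    ∃ i, L[i]? = some p ∧ L[i + 1]? = some q := by
  obtain ⟨s, t, rfl⟩ := h
  refine ⟨s.length, ?_, ?_⟩
  · rw [List.append_assoc, List.getElem?_append_right (le_refl _)]
    simp
  · rw [List.append_assoc, List.getElem?_append_right (by omega)]
    simp

private lemma mid_out {a b z : V} {l : List V} {j : ℕ} (h : (a :: (l ++ [b]))[j]? = some z)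
    (hz : z ∉ l) : (j = 0 ∧ z = a) ∨ (j = l.length + 1 ∧ z = b) := by
  cases j with
  | zero => left; simpa [eq_comm] using h
  | succ j =>
    right
    rw [List.getElem?_cons_succ] at h
    rcases lt_or_ge j l.length with hj | hj
    · rw [List.getElem?_append_left hj] at h
      exact absurd (List.mem_of_getElem? h) hz
    · rw [List.getElem?_append_right hj] at h
      have hlt : j - l.length < 1 := by
        by_contra hc
        rw [List.getElem?_eq_none (by simp only [List.length_cons, List.length_nil]; omega)] at h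
        cases h
      have h0 : j - l.length = 0 := by omega
      rw [h0] at h
      simp at h
      exact ⟨by omega, h.symm⟩

private lemma mid_head {a b p : V} {l : List V} (h : l.head? = some p) :
    (a :: (l ++ [b]))[1]? = some p := by
  cases l with
  | nil => simp at h
  | cons x l => simpa using h

private lemma mid_last {a b p : V} {l : List V} (h : l.getLast? = some p) :
    (a :: (l ++ [b]))[l.length]? = some p := by
  have hne : l ≠ [] := by rintro rfl; simp at h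
  have hpos := List.length_pos_of_ne_nil hne
  obtain ⟨n, hn⟩ : ∃ n, l.length = n + 1 := ⟨l.length - 1, by omega⟩
  rw [hn, List.getElem?_cons_succ, List.getElem?_append_left (by omega)]
  rw [List.getLast?_eq_getElem?, hn] at h
  simpa using h

private lemma last_of_mid {a b v : V} {l : List V} (hne : l ≠ [])
    (h : (a :: (l ++ [b]))[l.length]? = some v) : l.getLast? = some v := by
  have hpos := List.length_pos_of_ne_nil hne
  obtain ⟨n, hn⟩ : ∃ n, l.length = n + 1 := ⟨l.length - 1, by omega⟩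
  rw [hn, List.getElem?_cons_succ, List.getElem?_append_left (by omega)] at h
  rw [List.getLast?_eq_getElem?, hn]
  simpa using h

private lemma head_of_mid {a b v : V} {l : List V} (hne : l ≠ [])
    (h : (a :: (l ++ [b]))[1]? = some v) : l.head? = some v := by
  cases l with
  | nil => exact absurd rfl hne
  | cons x l => simpa using h

private lemma mem_idx {a b v : V} {l : List V} (hnd : (a :: (l ++ [b])).Nodup) {j : ℕ}
    (h : (a :: (l ++ [b]))[j]? = some v) (hv : v ∈ l) : 1 ≤ j ∧ j ≤ l.length := by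
  rw [List.nodup_cons] at hnd
  obtain ⟨ha, hnd⟩ := hnd
  cases j with
  | zero =>
    exfalso
    simp at h
    subst h
    exact ha (List.mem_append_left _ hv)
  | succ j =>
    refine ⟨by omega, ?_⟩
    by_contra hc
    rw [List.getElem?_cons_succ, List.getElem?_append_right (by omega)] at h
    have hb : v ∈ [b] := List.mem_of_getElem? h
    exact (List.disjoint_of_nodup_append hnd) hv hb

private lemma inf_right {a b v z : V} {l : List V} (_hnd : (a :: (l ++ [b])).Nodup) (hv : v ∈ l)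
    (hz : z ∉ l) (h : [v, z] <:+: a :: (l ++ [b])) : z = b ∧ l.getLast? = some v := by
  obtain ⟨i, h1, h2⟩ := infix_idx h
  rcases mid_out h2 hz with ⟨h0, _⟩ | ⟨h0, hb⟩
  · omega
  · have : i = l.length := by omega
    rw [this] at h1
    exact ⟨hb, last_of_mid (List.ne_nil_of_mem hv) h1⟩

private lemma inf_left {a b v z : V} {l : List V} (hnd : (a :: (l ++ [b])).Nodup) (hv : v ∈ l)
    (hz : z ∉ l) (h : [z, v] <:+: a :: (l ++ [b])) : z = a ∧ l.head? = some v := by
  obtain ⟨i, h1, h2⟩ := infix_idx h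
  rcases mid_out h1 hz with ⟨h0, ha⟩ | ⟨h0, hb⟩
  · rw [h0] at h2
    exact ⟨ha, head_of_mid (List.ne_nil_of_mem hv) h2⟩
  · have := (mem_idx hnd h2 hv).2
    omega

/-- lists of the first side -/
private lemma side_nodup {θ : Th V} (hθ : IsTheta G θ) : (θ.a :: (θ.l₁ ++ [θ.b])).Nodup := by
  have h := hθ.nodup
  simp only [List.nodup_cons, List.mem_cons, List.mem_append, not_or, List.nodup_append] at h ⊢
  obtain ⟨⟨hab, ⟨ha1, _⟩, _⟩, ⟨⟨hb1, _⟩, _⟩, ⟨⟨h1, _⟩, _⟩⟩ := h
  refine ⟨⟨ha1, hab, by simp⟩, h1, ⟨by simp, List.nodup_nil⟩, ?_⟩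
  intro x hx y hy
  rcases hy with rfl | hy
  · intro e; exact hb1 (e ▸ hx)
  · simp at hy

private lemma not_s₂ {θ : Th V} (hθ : IsTheta G θ) {v : V} (hv : v ∈ θ.l₁) : v ∉ θ.s₂ := by
  have h := hθ.nodup
  simp only [List.nodup_cons, List.mem_cons, List.mem_append, not_or, List.nodup_append] at h
  obtain ⟨⟨hab, ⟨ha1, _⟩, _⟩, ⟨⟨hb1, _⟩, _⟩, ⟨⟨h1, h2, h12⟩, h3, h123⟩⟩ := h
  intro hs
  simp only [Th.s₂, List.mem_cons, List.mem_append, List.not_mem_nil, or_false] at hs
  rcases hs with rfl | hs | rfl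
  · exact ha1 hv
  · exact h12 v hv v hs rfl
  · exact hb1 hv

private lemma not_s₃ {θ : Th V} (hθ : IsTheta G θ) {v : V} (hv : v ∈ θ.l₁) : v ∉ θ.s₃ := by
  have h := hθ.nodup
  simp only [List.nodup_cons, List.mem_cons, List.mem_append, not_or, List.nodup_append] at h
  obtain ⟨⟨hab, ⟨ha1, _⟩, _⟩, ⟨⟨hb1, _⟩, _⟩, ⟨⟨h1, h2, h12⟩, h3, h123⟩⟩ := h
  intro hs
  simp only [Th.s₃, List.mem_cons, List.mem_append, List.not_mem_nil, or_false] at hs
  rcases hs with rfl | hs | rfl
  · exact ha1 hv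
  · exact h123 v (Or.inl hv) v hs rfl
  · exact hb1 hv

/-- the pair is on the first side -/
private lemma on_s₁ {θ : Th V} (hθ : IsTheta G θ) {v z : V} (hv : v ∈ θ.l₁)
    (h : θ.Cons v z) : [v, z] <:+: θ.s₁ ∨ [z, v] <:+: θ.s₁ := by
  rcases h with h | h | h | h | h | h
  · exact Or.inl h
  · exact Or.inr h
  · exact absurd (h.subset (by simp)) (not_s₂ G hθ hv)
  · exact absurd (h.subset (by simp)) (not_s₂ G hθ hv)
  · exact absurd (h.subset (by simp)) (not_s₃ G hθ hv)
  · exact absurd (h.subset (by simp)) (not_s₃ G hθ hv)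

lemma cons_l₁ {θ : Th V} (hθ : IsTheta G θ) {v z : V} (hv : v ∈ θ.l₁) (hz : z ∉ θ.l₁)
    (h : θ.Cons v z) :
    (z = θ.a ∧ θ.l₁.head? = some v) ∨ (z = θ.b ∧ θ.l₁.getLast? = some v) := by
  have hnd := side_nodup G hθ
  rcases on_s₁ G hθ hv h with h | h
  · exact Or.inr (inf_right hnd hv hz h)
  · exact Or.inl (inf_left hnd hv hz h)

theorem noEars₁ {B : Finset V} {θ : Th V} (hθ : IsTheta G θ) (h : EarFree G B θ)
    (hl : 3 ≤ θ.l₁.length) : NoEars G B (θ.vs \ θ.l₁.toFinset) := by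
  have hnd := side_nodup G hθ
  -- head and last element are different
  have hhl : ∀ w, θ.l₁.head? = some w → θ.l₁.getLast? = some w → False := by
    intro w h1 h2
    have e1 := mid_head (a := θ.a) (b := θ.b) h1
    have e2 := mid_last (a := θ.a) (b := θ.b) h2
    have := (List.getElem?_inj (by simp) hnd).1 (e1.trans e2.symm)
    omega
  -- head and last element are not consecutive
  have hcons : ∀ p q, θ.l₁.head? = some p → θ.l₁.getLast? = some q → p ∈ θ.l₁ →
      θ.Cons p q → False := by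
    intro p q h1 h2 hp hc
    have e1 := mid_head (a := θ.a) (b := θ.b) h1
    have e2 := mid_last (a := θ.a) (b := θ.b) h2
    rcases on_s₁ G hθ hp hc with hc | hc
    · obtain ⟨i, i1, i2⟩ := infix_idx hc
      have hi1 := (List.getElem?_inj (by simp) hnd).1 (e1.trans i1.symm)
      have hi2 := (List.getElem?_inj (by simp) hnd).1 (e2.trans i2.symm)
      omega
    · obtain ⟨i, i1, i2⟩ := infix_idx hc
      have hi1 := (List.getElem?_inj (by simp) hnd).1 (e1.trans i2.symm)
      have hi2 := (List.getElem?_inj (by simp) hnd).1 (e2.trans i1.symm)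
      omega
  have hmem : ∀ w, w ∈ θ.vs → w ∉ θ.vs \ θ.l₁.toFinset → w ∈ θ.l₁ := by
    intro w hw hw'
    by_contra hc
    exact hw' (Finset.mem_sdiff.2 ⟨hw, by simpa using hc⟩)
  have hC : ∀ y, y ∈ θ.vs \ θ.l₁.toFinset → y ∈ θ.vs ∧ y ∉ θ.l₁ := by
    intro y hy
    rw [Finset.mem_sdiff, List.mem_toFinset] at hy
    exact hy
  have hvs : ∀ w, w ∈ θ.l₁ → w ∈ θ.vs := by
    intro w hw
    rw [Th.mem_vs]
    tauto
  refine ⟨?_, ?_⟩
  · intro y hy z hz hyz w hwB hwC hyw hwz
    by_cases hw : w ∈ θ.vs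
    · have hwl := hmem w hw hwC
      have c1 := cons_l₁ G hθ hwl (hC y hy).2 (h.e1 w hw y (hC y hy).1 hyw.symm)
      have c2 := cons_l₁ G hθ hwl (hC z hz).2 (h.e1 w hw z (hC z hz).1 hwz)
      rcases c1 with ⟨a1, a2⟩ | ⟨a1, a2⟩ <;> rcases c2 with ⟨b1, b2⟩ | ⟨b1, b2⟩
      · exact hyz (a1.trans b1.symm)
      · exact hhl w a2 b2
      · exact hhl w b2 a2
      · exact hyz (a1.trans b1.symm)
    · exact h.e2 y (hC y hy).1 z (hC z hz).1 hyz w hwB hw hyw hwz
  · intro y hy z hz hyz w₁ hw₁B w₂ hw₂B hw₁C hw₂C hww hyw hw12 hwz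
    by_cases hw1 : w₁ ∈ θ.vs <;> by_cases hw2 : w₂ ∈ θ.vs
    · have h1l := hmem w₁ hw1 hw₁C
      have h2l := hmem w₂ hw2 hw₂C
      have c1 := cons_l₁ G hθ h1l (hC y hy).2 (h.e1 w₁ hw1 y (hC y hy).1 hyw.symm)
      have c2 := cons_l₁ G hθ h2l (hC z hz).2 (h.e1 w₂ hw2 z (hC z hz).1 hwz)
      have c12 := h.e1 w₁ hw1 w₂ hw2 hw12
      have c21 := h.e1 w₂ hw2 w₁ hw1 hw12.symm
      rcases c1 with ⟨a1, a2⟩ | ⟨a1, a2⟩ <;> rcases c2 with ⟨b1, b2⟩ | ⟨b1, b2⟩
      · exact hyz (a1.trans b1.symm)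
      · exact hcons w₁ w₂ a2 b2 h1l c12
      · exact hcons w₂ w₁ b2 a2 h2l c21
      · exact hyz (a1.trans b1.symm)
    · -- w₁ ∈ l₁, w₂ outside
      have h1l := hmem w₁ hw1 hw₁C
      have hne : w₁ ≠ z := fun e => (hC z hz).2 (e ▸ h1l)
      exact h.e2 w₁ hw1 z (hC z hz).1 hne w₂ hw₂B hw2 hw12 hwz
    · have h2l := hmem w₂ hw2 hw₂C
      have hne : y ≠ w₂ := fun e => (hC y hy).2 (e ▸ h2l)
      exact h.e2 y (hC y hy).1 w₂ hw2 hne w₁ hw₁B hw1 hyw hw12
    · exact h.e3 y (hC y hy).1 z (hC z hz).1 hyz w₁ hw₁B w₂ hw₂B hw1 hw2 hww hyw hw12 hwz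

end H10.IB
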