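import Pool.Agent.H10.IB.Defs

/-!
MODULE Lists (about 120 lines). Cyclic lists.
`rotate`: chain of `c₁ ++ c₂` splits; the junction of `c₂ ++ c₁` is the closing relation; the new
closing relation is the old junction (cases `c₁ = []`, `c₂ = []` trivial).
`arcs`: write `c = y₁ ++ s :: y₂`, rotate to `s :: (y₂ ++ y₁)`, then split `y₂ ++ y₁` at `t`.
`two_le`: rotate so that `v` is the head: `c' = v :: w :: l` with last element `z ≠ w` (length at
least 3, nodup); `v` is adjacent to `w` and to `z`, both in the list (`nin_eq`, two distinct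
elements of `G.neighborFinset v ∩ c.toFinset`).
`len_gt`: apply `Girth` to `c.toFinset` (cardinal = length by nodup), contradiction to `two_le`.
-/

set_option autoImplicit false
set_option linter.unusedSectionVars false

namespace H10.IB

open Finset H97.Int

variable {V : Type*} [Fintype V] [DecidableEq V] (G : SimpleGraph V) [DecidableRel G.Adj]

lemma Cyc.mono {R R' : V → V → Prop} (hR : ∀ x y, R x y → R' x y) {c : List V} (h : Cyc R c) :
    Cyc R' c :=
  ⟨h.len, h.nodup, h.chain.imp (fun x y => hR x y), fun x y hx hy => hR _ _ (h.close x y hx hy)⟩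

lemma Cyc.rotate {R : V → V → Prop} {c₁ c₂ : List V} (h : Cyc R (c₁ ++ c₂)) :
    Cyc R (c₂ ++ c₁) := by
  by_cases h1 : c₁ = []
  · subst h1; simpa using h
  by_cases h2 : c₂ = []
  · subst h2; simpa using h
  have hch := List.isChain_append.mp h.chain
  refine ⟨?_, ?_, ?_, ?_⟩
  · have := h.len
    simp only [List.length_append] at this ⊢
    omega
  · exact List.nodup_append_comm.mp h.nodup
  · refine List.isChain_append.mpr ⟨hch.2.1, hch.1, ?_⟩
    intro x hx y hy
    refine h.close y x ?_ ?_
    · rw [List.head?_append_of_ne_nil _ h1]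
      exact hy
    · rw [List.getLast?_append_of_ne_nil _ h2]
      exact hx
  · intro x y hx hy
    rw [List.head?_append_of_ne_nil _ h2] at hx
    rw [List.getLast?_append_of_ne_nil _ h1] at hy
    exact hch.2.2 y hy x hx

theorem Cyc.arcs {R : V → V → Prop} {c : List V} (h : Cyc R c) {s t : V} (hs : s ∈ c)
    (ht : t ∈ c) (hst : s ≠ t) :
    ∃ x₁ x₂ : List V, Cyc R (s :: (x₁ ++ t :: x₂)) ∧ (s :: (x₁ ++ t :: x₂)).Perm c := by
  obtain ⟨y₁, y₂, rfl⟩ := List.append_of_mem hs
  have h' := h.rotate
  have hperm : ((s :: y₂) ++ y₁).Perm (y₁ ++ s :: y₂) := List.perm_append_comm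
  have ht' : t ∈ (s :: y₂) ++ y₁ := hperm.mem_iff.mpr ht
  have ht2 : t ∈ y₂ ++ y₁ := by
    rw [List.cons_append] at ht'
    rcases List.mem_cons.mp ht' with h0 | h0
    · exact absurd h0.symm hst
    · exact h0
  obtain ⟨x₁, x₂, hx⟩ := List.append_of_mem ht2
  refine ⟨x₁, x₂, ?_, ?_⟩
  · rw [← hx]
    exact h'
  · rw [← hx]
    exact hperm

theorem Cyc.two_le {c : List V} (h : Cyc G.Adj c) : ∀ v ∈ c, 2 ≤ nin G v c.toFinset := by
  intro v hv
  obtain ⟨y₁, y₂, rfl⟩ := List.append_of_mem hv
  have h' : Cyc G.Adj ((v :: y₂) ++ y₁) := h.rotate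
  have hperm : ((v :: y₂) ++ y₁).Perm (y₁ ++ v :: y₂) := List.perm_append_comm
  have hfin : ((v :: y₂) ++ y₁).toFinset = (y₁ ++ v :: y₂).toFinset :=
    List.toFinset_eq_of_perm _ _ hperm
  rw [← hfin]
  rw [List.cons_append] at h' ⊢
  generalize hl : y₂ ++ y₁ = l at h'
  match l, h' with
  | [], h' => exact absurd h'.len (by simp)
  | [w], h' => exact absurd h'.len (by simp)
  | w :: u :: l, h' =>
    have hvw : G.Adj v w := (List.isChain_cons_cons.mp h'.chain).1
    have hzv : G.Adj ((u :: l).getLast (by simp)) v := by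
      refine h'.close v _ (by simp) ?_
      rw [List.getLast?_cons_cons, List.getLast?_cons_cons]
      exact List.getLast?_eq_getLast_of_ne_nil (by simp)
    have hzmem : (u :: l).getLast (by simp) ∈ u :: l := List.getLast_mem _
    have hwz : w ≠ (u :: l).getLast (by simp) := by
      intro h0
      have hnd := h'.nodup
      rw [List.nodup_cons, List.nodup_cons] at hnd
      exact hnd.2.1 (h0 ▸ hzmem)
    rw [nin_eq]
    have hsub : ({w, (u :: l).getLast (by simp)} : Finset V) ⊆
        G.neighborFinset v ∩ (v :: w :: u :: l).toFinset := by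
      intro x hx
      rw [Finset.mem_insert, Finset.mem_singleton] at hx
      rw [Finset.mem_inter, SimpleGraph.mem_neighborFinset, List.mem_toFinset]
      rcases hx with rfl | rfl
      · exact ⟨hvw, by simp⟩
      · refine ⟨hzv.symm, ?_⟩
        exact List.mem_cons_of_mem _ (List.mem_cons_of_mem _ hzmem)
    have hcard := Finset.card_le_card hsub
    rw [Finset.card_pair hwz] at hcard
    exact_mod_cast hcard

theorem Cyc.len_gt {B : Finset V} {g : ℕ} (hg : Girth G B g) {c : List V} (h : Cyc G.Adj c)
    (hB : ∀ v ∈ c, v ∈ B) : g < c.length := by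
  by_contra hlt
  have hne : c ≠ [] := by
    intro h0
    have := h.len
    rw [h0] at this
    simp at this
  obtain ⟨x, hx, hx2⟩ := hg c.toFinset
    (by intro v hv; exact hB v (List.mem_toFinset.mp hv))
    (by
      obtain ⟨v, hv⟩ := List.exists_mem_of_ne_nil c hne
      exact ⟨v, List.mem_toFinset.mpr hv⟩)
    (by
      rw [List.toFinset_card_of_nodup h.nodup]
      exact not_lt.mp hlt)
  have := h.two_le G x (List.mem_toFinset.mp hx)
  omega

end H10.IB
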