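import Pool.Agent.H10.IB.Defs

/-!
MODULE Meet (about 100 lines). Lowest common ancestor.
Strengthen the statement for the induction: moreover all `x ∈ α` satisfy `lev x <= lev u`,
all `x ∈ α` different from `u` satisfy `lev x < lev u`, the same for `β` and `w`,
`lev m <= lev u, lev w`, `α.length + lev m = lev u`, `β.length + lev m = lev w`.
Induction on `lev u + lev w`. If `u = w`: `α = β = []`, `m = u`. Otherwise one of them is not `r`;
by symmetry (`lev w <= lev u`, `u ≠ r`: if `u = r` then `lev u = ...`: note that `lev r <= lev x`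
for all `x` in `X` is NOT assumed; if `u = r` and `w ≠ r` then `lev w > lev r` because following
parents from `w` one can only stop at `r`: strong induction on `lev w` gives
`lev r < lev w` for all `w ∈ X`, `w ≠ r`) replace `u` by `par u`, and put `u` in front of `α`.
`u` is not in `β ++ [m]`: elements there have `lev <= lev w <= lev u` with equality only for `w`.
-/

set_option autoImplicit false
set_option linter.unusedSectionVars false

namespace H10.IB

open Finset H97.Int

variable {V : Type*} [Fintype V] [DecidableEq V] (G : SimpleGraph V) [DecidableRel G.Adj]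

private theorem meet_root {X : Finset V} {r : V} {lev : V → ℕ} {par : V → V} {j : ℕ}
    (hT : Tree G X r lev par j) : ∀ (n : ℕ) (w : V), w ∈ X → lev w = n → w ≠ r → lev r < n := by
  intro n
  induction n using Nat.strong_induction_on with
  | _ n ih =>
    intro w hw hn hwr
    have h1 := hT.par_lev w hw hwr
    have h2 := hT.par_mem w hw hwr
    by_cases hp : par w = r
    · rw [hp] at h1
      omega
    · have := ih (lev (par w)) (by omega) (par w) h2 rfl hp
      omega

private theorem meet_step {X : Finset V} {r : V} {lev : V → ℕ} {par : V → V} {j : ℕ}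
    (hT : Tree G X r lev par j) {u w : V} (hu : u ∈ X) (hw : w ∈ X) (huw : u ≠ w)
    (hle : lev w ≤ lev u)
    (ih : ∀ u' ∈ X, lev u' < lev u → ∃ (α β : List V) (m : V), Up r par u' α m ∧ Up r par w β m ∧
      (α ++ m :: β).Nodup ∧ (∀ x ∈ α ++ m :: β, x ∈ X) ∧
      (∀ x ∈ α, lev x ≤ lev u' ∧ (lev x = lev u' → x = u')) ∧
      (∀ x ∈ β, lev x ≤ lev w ∧ (lev x = lev w → x = w)) ∧
      α.length + lev m = lev u' ∧ β.length + lev m = lev w) :
    ∃ (α β : List V) (m : V), Up r par u α m ∧ Up r par w β m ∧
      (α ++ m :: β).Nodup ∧ (∀ x ∈ α ++ m :: β, x ∈ X) ∧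
      (∀ x ∈ α, lev x ≤ lev u ∧ (lev x = lev u → x = u)) ∧
      (∀ x ∈ β, lev x ≤ lev w ∧ (lev x = lev w → x = w)) ∧
      α.length + lev m = lev u ∧ β.length + lev m = lev w := by
  have hur : u ≠ r := by
    intro h
    subst h
    have := meet_root G hT (lev w) w hw rfl (fun h => huw h.symm)
    omega
  have h1 := hT.par_lev u hu hur
  have h2 := hT.par_mem u hu hur
  obtain ⟨α, β, m, hα, hβ, hnd, hX, hlα, hlβ, hc1, hc2⟩ := ih (par u) h2 (by omega)
  refine ⟨u :: α, β, m, ⟨?_, ?_, ?_⟩, hβ, ?_, ?_, ?_, hlβ, ?_, hc2⟩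
  · simp
  · obtain ⟨hh, hch, -⟩ := hα
    rw [List.cons_append, List.isChain_cons]
    refine ⟨?_, hch⟩
    intro y hy
    rw [hh] at hy
    simpa using hy
  · intro x hx
    rcases List.mem_cons.1 hx with rfl | hx
    · exact hur
    · exact hα.2.2 x hx
  · rw [List.cons_append, List.nodup_cons]
    refine ⟨?_, hnd⟩
    intro hmem
    rcases List.mem_append.1 hmem with hx | hx
    · have := (hlα u hx).1
      omega
    · rcases List.mem_cons.1 hx with hx | hx
      · have : lev m ≤ lev (par u) := by omega
        rw [← hx] at this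
        omega
      · have h3 := hlβ u hx
        exact huw (h3.2 (by omega))
  · intro x hx
    rw [List.cons_append] at hx
    rcases List.mem_cons.1 hx with rfl | hx
    · exact hu
    · exact hX x hx
  · intro x hx
    rcases List.mem_cons.1 hx with rfl | hx
    · exact ⟨le_rfl, fun _ => rfl⟩
    · have := (hlα x hx).1
      exact ⟨by omega, fun h => by omega⟩
  · rw [List.length_cons]
    omega

private theorem meet_aux {X : Finset V} {r : V} {lev : V → ℕ} {par : V → V} {j : ℕ}
    (hT : Tree G X r lev par j) : ∀ (n : ℕ) (u w : V), u ∈ X → w ∈ X → lev u + lev w = n →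
    ∃ (α β : List V) (m : V), Up r par u α m ∧ Up r par w β m ∧
      (α ++ m :: β).Nodup ∧ (∀ x ∈ α ++ m :: β, x ∈ X) ∧
      (∀ x ∈ α, lev x ≤ lev u ∧ (lev x = lev u → x = u)) ∧
      (∀ x ∈ β, lev x ≤ lev w ∧ (lev x = lev w → x = w)) ∧
      α.length + lev m = lev u ∧ β.length + lev m = lev w := by
  intro n
  induction n using Nat.strong_induction_on with
  | _ n ih =>
    intro u w hu hw hn
    by_cases huw : u = w
    · subst huw
      refine ⟨[], [], u, ⟨by simp, by simp, by simp⟩, ⟨by simp, by simp, by simp⟩, by simp,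
        by simpa using hu, by simp, by simp, by simp, by simp⟩
    rcases le_total (lev w) (lev u) with hle | hle
    · exact meet_step G hT hu hw huw hle
        (fun u' hu' hl => ih (lev u' + lev w) (by omega) u' w hu' hw rfl)
    · obtain ⟨α, β, m, hα, hβ, hnd, hX, hlα, hlβ, hc1, hc2⟩ :=
        meet_step G hT hw hu (fun h => huw h.symm) hle
          (fun u' hu' hl => ih (lev u' + lev u) (by omega) u' u hu' hu rfl)
      have hperm : (α ++ m :: β).Perm (β ++ m :: α) :=
        (List.perm_middle.trans (List.Perm.cons m List.perm_append_comm)).trans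
          List.perm_middle.symm
      exact ⟨β, α, m, hβ, hα, hperm.nodup_iff.1 hnd, fun x hx => hX x (hperm.mem_iff.2 hx), hlβ,
        hlα, hc2, hc1⟩

theorem meet {X : Finset V} {r : V} {lev : V → ℕ} {par : V → V} {j : ℕ}
    (hT : Tree G X r lev par j) {u w : V} (hu : u ∈ X) (hw : w ∈ X) :
    ∃ (α β : List V) (m : V), Up r par u α m ∧ Up r par w β m ∧ (α ++ m :: β).Nodup ∧
      (∀ x ∈ α ++ m :: β, x ∈ X) ∧ α.length ≤ j ∧ β.length ≤ j := by
  obtain ⟨α, β, m, hα, hβ, hnd, hX, -, -, hc1, hc2⟩ := meet_aux G hT _ u w hu hw rfl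
  have h1 := hT.lev_le u hu
  have h2 := hT.lev_le w hw
  exact ⟨α, β, m, hα, hβ, hnd, hX, by omega, by omega⟩

end H10.IB
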