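import Pool.Agent.H10.IB.Defs

/-!
MODULE NTc (about 80 lines). Number of non tree pairs.
`E G X X` is the number of pairs `(s,t)` in `X × X` with `G.Adj s t`. The tree pairs are the images
of `X.erase r` under the injective maps `x ↦ (x, par x)` and `x ↦ (par x, x)`, with disjoint images
(otherwise `par (par x) = x`, against `par_lev`, or `x = r`), and all of them are adjacent pairs in
`X × X`. So the number of tree pairs is `2 (|X| - 1)`.
-/

set_option autoImplicit false
set_option linter.unusedSectionVars false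

namespace H10.IB

open Finset H97.Int

variable {V : Type*} [Fintype V] [DecidableEq V] (G : SimpleGraph V) [DecidableRel G.Adj]

omit [Fintype V] in
private lemma E_card (X : Finset V) :
    E G X X = (((X ×ˢ X).filter fun p => G.Adj p.1 p.2).card : ℤ) := by
  unfold E adj
  rw [← Finset.sum_product', Finset.card_filter]
  push_cast
  rfl

theorem card_NT {X : Finset V} {r : V} {lev : V → ℕ} {par : V → V} {j : ℕ}
    (hT : Tree G X r lev par j) :
    ((NT G X r par).card : ℤ) + 2 * ((X.card : ℤ) - 1) = E G X X := by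
  classical
  rw [E_card]
  have hsplit : ((X ×ˢ X).filter fun p => G.Adj p.1 p.2) =
      NT G X r par ∪ ((X.erase r).image (fun x => (x, par x)) ∪
        (X.erase r).image (fun x => (par x, x))) := by
    ext ⟨s, t⟩
    simp only [NT, mem_filter, mem_product, mem_union, mem_image, mem_erase, Prod.mk.injEq]
    constructor
    · rintro ⟨⟨hs, ht⟩, hst⟩
      by_cases hte : TE r par s t
      · right
        rcases hte with ⟨h1, h2⟩ | ⟨h1, h2⟩
        · left; exact ⟨s, ⟨h1, hs⟩, rfl, h2⟩
        · right; exact ⟨t, ⟨h1, ht⟩, h2, rfl⟩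
      · left; exact ⟨⟨hs, ht⟩, hst, hte⟩
    · rintro (⟨⟨hs, ht⟩, hst, -⟩ | ⟨x, ⟨hx, hxX⟩, rfl, rfl⟩ | ⟨x, ⟨hx, hxX⟩, rfl, rfl⟩)
      · exact ⟨⟨hs, ht⟩, hst⟩
      · exact ⟨⟨hxX, hT.par_mem _ hxX hx⟩, hT.par_adj _ hxX hx⟩
      · exact ⟨⟨hT.par_mem _ hxX hx, hxX⟩, (hT.par_adj _ hxX hx).symm⟩
  have hd1 : Disjoint (NT G X r par) ((X.erase r).image (fun x => (x, par x)) ∪
        (X.erase r).image (fun x => (par x, x))) := by
    rw [Finset.disjoint_left]
    rintro ⟨s, t⟩ h1 h2
    simp only [NT, mem_filter, mem_product, mem_union, mem_image, mem_erase, Prod.mk.injEq]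
      at h1 h2
    apply h1.2.2
    rcases h2 with ⟨x, ⟨hx, hxX⟩, rfl, rfl⟩ | ⟨x, ⟨hx, hxX⟩, rfl, rfl⟩
    · exact Or.inl ⟨hx, rfl⟩
    · exact Or.inr ⟨hx, rfl⟩
  have hd2 : Disjoint ((X.erase r).image (fun x => (x, par x)))
        ((X.erase r).image (fun x => (par x, x))) := by
    rw [Finset.disjoint_left]
    rintro ⟨s, t⟩ h1 h2
    simp only [mem_image, mem_erase, Prod.mk.injEq] at h1 h2
    obtain ⟨x, ⟨hx, hxX⟩, rfl, rfl⟩ := h1
    obtain ⟨y, ⟨hy, hyX⟩, hyx, hxy⟩ := h2
    subst hxy
    have e1 := hT.par_lev _ hxX hx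
    have e2 := hT.par_lev _ hyX hy
    rw [hyx] at e2
    omega
  have c1 : ((X.erase r).image (fun x => (x, par x))).card = X.card - 1 := by
    rw [Finset.card_image_of_injective, Finset.card_erase_of_mem hT.root]
    intro x y h
    exact (Prod.mk.inj h).1
  have c2 : ((X.erase r).image (fun x => (par x, x))).card = X.card - 1 := by
    rw [Finset.card_image_of_injective, Finset.card_erase_of_mem hT.root]
    intro x y h
    exact (Prod.mk.inj h).2
  have hpos : 1 ≤ X.card := Finset.card_pos.mpr ⟨r, hT.root⟩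
  rw [hsplit, Finset.card_union_of_disjoint hd1, Finset.card_union_of_disjoint hd2, c1, c2]
  push_cast [Nat.cast_sub hpos]
  ring

end H10.IB
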