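import Pool.Agent.H10.IB.Defs

/-!
MODULE TreeB (about 60 lines). Spanning tree of a ball. Induction on `j`:
`rb G S r (j+1) = S ∩ nbr G (rb G S r j)`; keep `lev`, `par` on `rb G S r j`; for
`x ∈ rb (j+1) \ rb j` choose a neighbour `u ∈ rb j` (`mem_nbr`), `par x = u`,
`lev x = lev u + 1 <= j + 1`. `r` belongs to all balls (`rb_mono'` from radius 0).
Case `j = 0`: the ball is `{r}`, any `lev = 0`.
-/

set_option autoImplicit false
set_option linter.unusedSectionVars false

namespace H10.IB

open Finset H97.Int

variable {V : Type*} [Fintype V] [DecidableEq V] (G : SimpleGraph V) [DecidableRel G.Adj]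

theorem tree_ball {S : Finset V} {r : V} (hr : r ∈ S) (j : ℕ) :
    ∃ (lev : V → ℕ) (par : V → V), Tree G (rb G S r j) r lev par j := by
  classical
  induction j with
  | zero =>
    refine ⟨fun _ => 0, id, ⟨by simp [rb], fun _ _ => le_refl _, ?_, ?_, ?_⟩⟩
    · intro x hx hxr; simp [rb] at hx; exact absurd hx hxr
    · intro x hx hxr; simp [rb] at hx; exact absurd hx hxr
    · intro x hx hxr; simp [rb] at hx; exact absurd hx hxr
  | succ j ih =>
    obtain ⟨lev, par, T⟩ := ih
    have hex : ∀ x, x ∈ rb G S r (j + 1) → x ∉ rb G S r j → ∃ u ∈ rb G S r j, G.Adj u x := by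
      intro x hx hx'
      simp only [rb, Finset.mem_inter, mem_nbr] at hx
      rcases hx.2 with h | h
      · exact absurd h hx'
      · exact h
    let par' : V → V := fun x => if x ∈ rb G S r j then par x
      else if h : ∃ u ∈ rb G S r j, G.Adj u x then h.choose else x
    let lev' : V → ℕ := fun x => if x ∈ rb G S r j then lev x else lev (par' x) + 1
    have hp1 : ∀ x ∈ rb G S r j, par' x = par x := fun x hx => by simp [par', hx]
    have hl1 : ∀ x ∈ rb G S r j, lev' x = lev x := fun x hx => by simp [lev', hx]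
    have hp2 : ∀ x, x ∈ rb G S r (j + 1) → x ∉ rb G S r j →
        par' x ∈ rb G S r j ∧ G.Adj (par' x) x := by
      intro x hx hx'
      have h := hex x hx hx'
      have : par' x = h.choose := by simp only [par', if_neg hx', dif_pos h]
      rw [this]
      exact h.choose_spec
    have hl2 : ∀ x, x ∉ rb G S r j → lev' x = lev (par' x) + 1 := fun x hx => by
      simp only [lev', if_neg hx]
    refine ⟨lev', par', ⟨rb_mono G hr j T.root, ?_, ?_, ?_, ?_⟩⟩
    · intro x hx
      by_cases h : x ∈ rb G S r j
      · rw [hl1 x h]; exact (T.lev_le x h).trans (Nat.le_succ j)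
      · rw [hl2 x h]; exact Nat.succ_le_succ (T.lev_le _ (hp2 x hx h).1)
    · intro x hx hxr
      by_cases h : x ∈ rb G S r j
      · rw [hp1 x h]; exact rb_mono G hr j (T.par_mem x h hxr)
      · exact rb_mono G hr j (hp2 x hx h).1
    · intro x hx hxr
      by_cases h : x ∈ rb G S r j
      · rw [hp1 x h]; exact T.par_adj x h hxr
      · exact (hp2 x hx h).2.symm
    · intro x hx hxr
      by_cases h : x ∈ rb G S r j
      · rw [hp1 x h, hl1 x h, hl1 _ (T.par_mem x h hxr)]; exact T.par_lev x h hxr
      · rw [hl2 x h, hl1 _ (hp2 x hx h).1]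

end H10.IB
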