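import Pool.Agent.H10.IB.Growth
import Pool.Agent.H10.IB.TreeB
import Pool.Agent.H10.IB.Meet
import Pool.Agent.H10.IB.NTc
import Pool.Agent.H10.IB.CycE
import Pool.Agent.H10.IB.Lists

/-!
MODULE ExCyc (about 50 lines). A dense set contains a small closed set.
`growth`, `tree_ball` as in `ExTheta`; `E(X,X) > 2.2 |X| > 2 (|X| - 1)`, so `NT` is nonempty
(`card_NT`); for `(u,w) ∈ NT` take `α, β, m` from `meet`; `Z` = the vertices of the fundamental
cycle (`cyc_of_NT`, `Cyc.mono`, `Cyc.two_le`), `|Z| <= |α| + |β| + 1 <= 2 j + 1`.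
-/

set_option autoImplicit false
set_option linter.unusedSectionVars false

namespace H10.IB

open Finset H97.Int

variable {V : Type*} [Fintype V] [DecidableEq V] (G : SimpleGraph V) [DecidableRel G.Adj]

theorem exists_small_closed {S : Finset V} {h : ℕ} (hS : S.Nonempty)
    (hd : 26 * (S.card : ℤ) ≤ 10 * E G S S) (hh : 11 ^ h * S.card < 13 ^ h) :
    ∃ Z ⊆ S, Z.Nonempty ∧ Z.card ≤ 2 * h + 1 ∧ ∀ z ∈ Z, 2 ≤ nin G z Z := by
  obtain ⟨S', hS', r, hr, j, hj, hdens⟩ := growth G hS hd hh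
  obtain ⟨lev, par, hT⟩ := tree_ball G hr j
  set X := rb G S' r j with hX
  have hXS : X ⊆ S := (rb_sub G hr j).trans hS'
  have hNT := card_NT G hT
  have hX0 : (0 : ℤ) ≤ (X.card : ℤ) := by positivity
  have hpos : 0 < (NT G X r par).card := by
    have : (0 : ℤ) < ((NT G X r par).card : ℤ) := by omega
    exact_mod_cast this
  obtain ⟨⟨u, w⟩, hp⟩ := Finset.card_pos.1 hpos
  have huw : u ∈ X ∧ w ∈ X := by
    simp only [NT, Finset.mem_filter, Finset.mem_product] at hp
    exact hp.1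
  obtain ⟨α, β, m, hα, hβ, hnd, hmem, hlα, hlβ⟩ := meet G hT huw.1 huw.2
  have hcyc := (cyc_of_NT G hT hp hα hβ hnd hmem).mono (R' := G.Adj) (fun x y h => h.1)
  refine ⟨(α ++ m :: β.reverse).toFinset, ?_, ⟨m, by simp⟩, ?_, ?_⟩
  · intro x hx
    refine hXS (hmem x ?_)
    simp only [List.mem_toFinset, List.mem_append, List.mem_cons, List.mem_reverse] at hx ⊢
    exact hx
  · have h1 := List.toFinset_card_le (α ++ m :: β.reverse)
    simp only [List.length_append, List.length_cons, List.length_reverse] at h1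
    omega
  · intro z hz
    exact hcyc.two_le G z (List.mem_toFinset.1 hz)

end H10.IB
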