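import Pool.Agent.H10.IB.CycE
import Pool.Agent.H10.IB.EarL

/-!
MODULE TwoE (about 150 lines). Two non tree pairs whose fundamental cycles share a tree edge.
By symmetry of the statement (exchange `u', w'` and `α', β'`: `NT` is symmetric) assume `x ∈ α'`,
`α' = α₁ ++ x :: α₂`. Let `c = α ++ m :: β.reverse` be the cycle of `(u,w)` (`cyc_of_NT`). Both `x`
and its parent `par x` are in `c` (`x ∈ α` or `x ∈ β`, the next element of `α ++ [m]`, resp.
`β ++ [m]`, is `par x`). The second fundamental cycle minus the edge `x, par x` is the path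
`P = (x :: α₁.reverse) ++ (β' ++ m' :: α₂.reverse)`: its first part `A₁ = x :: α₁.reverse` starts
at `x` and ends at `u'`, its second part `A₂ = β' ++ m' :: α₂.reverse` starts at `w'` (also if
`β' = []`, then `m' = w'`) and ends at `par x` (if `α₂ = []` the last element is `m' = par x`).
`P` is a chain for `G.Adj` and nodup (permutation of `α' ++ m' :: β'`). `ear_split` with
`S = c.toFinset` gives `s, t, q₁, q₂`; take `q = q₁ ++ q₂`. `s :: (q ++ [t])` is a segment of `P`,
so it is a chain and nodup. If `q = []` then `s = u'` and `t = w'`; `FE G r par u w u' w'` is false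
because `(u',w')` is not a tree edge and differs from `(u,w)` and `(w,u)`. Apply
`theta_of_cyc_ear`; `|q| + 2 <= |P| = |α'| + |β'| + 1`.
-/

set_option autoImplicit false
set_option linter.unusedSectionVars false

namespace H10.IB

open Finset H97.Int

variable {V : Type*} [Fintype V] [DecidableEq V] (G : SimpleGraph V) [DecidableRel G.Adj]

private lemma TwoE_chain {X : Finset V} {r : V} {lev : V → ℕ} {par : V → V} {j : ℕ}
    (hT : Tree G X r lev par j) {m : V} (α : List V)
    (hc : (α ++ [m]).IsChain (fun x y => par x = y)) (hr : ∀ x ∈ α, x ≠ r)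
    (hX : ∀ x ∈ α, x ∈ X) : (α ++ [m]).IsChain G.Adj := by
  induction α with
  | nil => exact List.isChain_singleton m
  | cons a α ih =>
    rw [List.cons_append, List.isChain_cons] at hc ⊢
    refine ⟨fun y hy => ?_, ih hc.2 (fun x hx => hr x (List.mem_cons_of_mem _ hx))
      (fun x hx => hX x (List.mem_cons_of_mem _ hx))⟩
    have h1 := hc.1 y hy
    rw [← h1]
    exact hT.par_adj a (hX a List.mem_cons_self) (hr a List.mem_cons_self)

private lemma TwoE_next {par : V → V} {m : V} (α : List V)
    (hc : (α ++ [m]).IsChain (fun x y => par x = y)) {x : V} (hx : x ∈ α) :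
    par x ∈ α ++ [m] := by
  induction α with
  | nil => simp at hx
  | cons a α ih =>
    rw [List.cons_append, List.isChain_cons] at hc
    rcases List.mem_cons.mp hx with rfl | hx
    · rw [List.cons_append]
      refine List.mem_cons_of_mem _ ?_
      cases h : (α ++ [m]).head? with
      | none => simp at h
      | some y =>
        have h1 := hc.1 y (by rw [h]; rfl)
        rw [h1]
        exact List.mem_of_head? h
    · rw [List.cons_append]
      exact List.mem_cons_of_mem _ (ih hc.2 hx)

private theorem two_edges_aux {X : Finset V} {r : V} {lev : V → ℕ} {par : V → V} {j : ℕ}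
    (hT : Tree G X r lev par j) {u w u' w' : V} (hp : (u, w) ∈ NT G X r par)
    (hp' : (u', w') ∈ NT G X r par) (h1 : ¬ (u = u' ∧ w = w')) (h2 : ¬ (u = w' ∧ w = u'))
    {α β α' β' : List V} {m m' : V}
    (hα : Up r par u α m) (hβ : Up r par w β m) (hnd : (α ++ m :: β).Nodup)
    (hX : ∀ x ∈ α ++ m :: β, x ∈ X)
    (hα' : Up r par u' α' m') (hβ' : Up r par w' β' m') (hnd' : (α' ++ m' :: β').Nodup)
    (hX' : ∀ x ∈ α' ++ m' :: β', x ∈ X)
    {x : V} (hx : x ∈ α ∨ x ∈ β) (hx' : x ∈ α') :
    ∃ θ : Th V, IsTheta G θ ∧ θ.vs ⊆ X ∧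
      θ.size ≤ α.length + β.length + α'.length + β'.length + 2 := by
  classical
  have hcyc := cyc_of_NT G hT hp hα hβ hnd hX
  have hNT : G.Adj u' w' ∧ ¬ TE r par u' w' := by
    unfold NT at hp'
    simp only [Finset.mem_filter] at hp'
    exact hp'.2
  obtain ⟨α₁, α₂, rfl⟩ := List.append_of_mem hx'
  -- x and its parent lie on the first cycle
  have hxc : x ∈ α ++ m :: β.reverse := by
    rcases hx with h | h
    · exact List.mem_append_left _ h
    · exact List.mem_append_right _ (List.mem_cons_of_mem _ (List.mem_reverse.mpr h))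
  have hpc : par x ∈ α ++ m :: β.reverse := by
    rcases hx with h | h
    · have := TwoE_next α hα.2.1 h
      simp only [List.mem_append, List.mem_singleton] at this
      rcases this with h | h
      · exact List.mem_append_left _ h
      · rw [h]; exact List.mem_append_right _ List.mem_cons_self
    · have := TwoE_next β hβ.2.1 h
      simp only [List.mem_append, List.mem_singleton] at this
      rcases this with h | h
      · exact List.mem_append_right _ (List.mem_cons_of_mem _ (List.mem_reverse.mpr h))
      · rw [h]; exact List.mem_append_right _ List.mem_cons_self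
  -- adjacency chains
  have chA : ((α₁ ++ x :: α₂) ++ [m']).IsChain G.Adj :=
    TwoE_chain G hT _ hα'.2.1 hα'.2.2 (fun z hz => hX' z (List.mem_append_left _ hz))
  have chB : (β' ++ [m']).IsChain G.Adj :=
    TwoE_chain G hT _ hβ'.2.1 hβ'.2.2
      (fun z hz => hX' z (List.mem_append_right _ (List.mem_cons_of_mem _ hz)))
  have chA' : (α₁ ++ x :: (α₂ ++ [m'])).IsChain G.Adj := by
    simpa [List.append_assoc] using chA
  rw [List.isChain_split] at chA'
  have ch1 : (x :: α₁.reverse).IsChain G.Adj := by
    have h3 : (α₁ ++ [x]).reverse.IsChain G.Adj := by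
      rw [List.isChain_reverse]
      exact chA'.1.imp (fun a b hab => hab.symm)
    simpa using h3
  have ch2 : (m' :: α₂.reverse).IsChain G.Adj := by
    have h3 : (α₂ ++ [m']).IsChain G.Adj := (List.isChain_cons.mp chA'.2).2
    have h4 : (α₂ ++ [m']).reverse.IsChain G.Adj := by
      rw [List.isChain_reverse]
      exact h3.imp (fun a b hab => hab.symm)
    simpa using h4
  have ch3 : (β' ++ m' :: α₂.reverse).IsChain G.Adj := by
    rw [List.isChain_split]
    exact ⟨chB, ch2⟩
  -- heads
  have hhead : (β' ++ m' :: α₂.reverse).head? = some w' := by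
    have := hβ'.1
    cases β' with
    | nil => simpa using this
    | cons a β' => simpa using this
  have hlast : (x :: α₁.reverse).getLast? = some u' := by
    have := hα'.1
    cases α₁ with
    | nil => simpa using this
    | cons a α₁ =>
      have h5 : a = u' := by simpa using this
      rw [List.reverse_cons, ← List.cons_append, List.getLast?_append]
      simp [h5]
  have hPch : ((x :: α₁.reverse) ++ (β' ++ m' :: α₂.reverse)).IsChain G.Adj := by
    rw [List.isChain_append]
    refine ⟨ch1, ch3, fun a ha b hb => ?_⟩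
    rw [hlast] at ha
    rw [hhead] at hb
    have ha' : u' = a := by simpa using ha
    have hb' : w' = b := by simpa using hb
    rw [← ha', ← hb']
    exact hNT.1
  have hPperm : ((x :: α₁.reverse) ++ (β' ++ m' :: α₂.reverse)).Perm
      ((α₁ ++ x :: α₂) ++ m' :: β') := by
    rw [List.perm_iff_count]
    intro a
    simp only [List.count_append, List.count_cons, List.count_reverse]
    ring
  have hPnd : ((x :: α₁.reverse) ++ (β' ++ m' :: α₂.reverse)).Nodup :=
    hPperm.nodup_iff.mpr hnd'
  have hPlen := hPperm.length_eq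
  -- splitting
  obtain ⟨s, t, A₁', q₁, q₂, A₂', hA1, hA2, hs, ht, hq1, hq2⟩ :=
    ear_split (α ++ m :: β.reverse).toFinset (x :: α₁.reverse) (β' ++ m' :: α₂.reverse)
      ⟨x, rfl, List.mem_toFinset.mpr hxc⟩
      ⟨par x, by
        cases α₂ with
        | nil =>
          have h6 : par x = m' := by
            have h7 := hα'.2.1
            rw [List.append_assoc, List.isChain_append] at h7
            have h8 := h7.2.1
            simp only [List.cons_append, List.nil_append, List.isChain_cons_cons] at h8
            exact h8.1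
          rw [h6]
          simp
        | cons y α₃ =>
          have h6 : par x = y := by
            have h7 := hα'.2.1
            rw [List.append_assoc, List.isChain_append] at h7
            have h8 := h7.2.1
            simp only [List.cons_append, List.isChain_cons_cons] at h8
            exact h8.1
          rw [h6, List.reverse_cons, ← List.cons_append, ← List.append_assoc,
            List.getLast?_append]
          simp, List.mem_toFinset.mpr hpc⟩
  rw [List.mem_toFinset] at hs ht
  rw [hA1, hA2] at hPnd hPch hPlen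
  have hassoc : A₁' ++ s :: q₁ ++ (q₂ ++ t :: A₂') =
      A₁' ++ (s :: ((q₁ ++ q₂) ++ [t])) ++ A₂' := by simp
  rw [hassoc] at hPnd hPch hPlen
  have hch : (s :: ((q₁ ++ q₂) ++ [t])).IsChain G.Adj :=
    hPch.left_of_append.right_of_append
  have hnd2 : (s :: ((q₁ ++ q₂) ++ [t])).Nodup :=
    (List.nodup_append.mp (List.nodup_append.mp hPnd).1).2.1
  have hst : s ≠ t := by
    intro h
    rw [h] at hnd2
    rw [List.nodup_cons] at hnd2
    exact hnd2.1 (by simp)
  have hqn : (q₁ ++ q₂).Nodup := by
    rw [List.nodup_cons] at hnd2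
    exact (List.nodup_append.mp hnd2.2).1
  have hqc : ∀ v ∈ q₁ ++ q₂, v ∉ α ++ m :: β.reverse := by
    intro v hv hvc
    rcases List.mem_append.mp hv with h | h
    · exact hq1 v h (List.mem_toFinset.mpr hvc)
    · exact hq2 v h (List.mem_toFinset.mpr hvc)
  have hTEs : ∀ a b, TE r par a b → TE r par b a := fun a b h => h.symm
  have hne : q₁ ++ q₂ = [] → ¬ FE G r par u w s t ∧ ¬ FE G r par u w t s := by
    intro hq
    obtain ⟨hq1', hq2'⟩ := List.append_eq_nil_iff.mp hq
    have hsu : s = u' := by
      rw [hA1, hq1'] at hlast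
      rw [List.getLast?_append] at hlast
      simpa using hlast
    have htw : t = w' := by
      rw [hA2, hq2'] at hhead
      simpa using hhead
    subst hsu htw
    constructor
    · rintro ⟨_, h | ⟨h3, h4⟩ | ⟨h3, h4⟩⟩
      · exact hNT.2 h
      · exact h1 ⟨h3.symm, h4.symm⟩
      · exact h2 ⟨h4.symm, h3.symm⟩
    · rintro ⟨_, h | ⟨h3, h4⟩ | ⟨h3, h4⟩⟩
      · exact hNT.2 (hTEs _ _ h)
      · exact h2 ⟨h3.symm, h4.symm⟩
      · exact h1 ⟨h4.symm, h3.symm⟩
  obtain ⟨θ, hθ, hsize, hvs⟩ := theta_of_cyc_ear G (fun a b h => h.1) hcyc hs ht hst hqn hqc hch hne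
  refine ⟨θ, hθ, fun v hv => ?_, ?_⟩
  · rcases hvs v hv with h | h
    · apply hX
      simp only [List.mem_append, List.mem_cons, List.mem_reverse] at h ⊢
      exact h
    · apply hX'
      apply hPperm.subset
      rw [hA1, hA2]
      rcases List.mem_append.mp h with h | h
      · exact List.mem_append_left _ (List.mem_append_right _ (List.mem_cons_of_mem _ h))
      · exact List.mem_append_right _ (List.mem_append_left _ h)
  · rw [hsize]
    simp only [List.length_append, List.length_cons, List.length_reverse, List.length_nil]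
      at hPlen ⊢
    omega

theorem two_edges {X : Finset V} {r : V} {lev : V → ℕ} {par : V → V} {j : ℕ}
    (hT : Tree G X r lev par j) {u w u' w' : V} (hp : (u, w) ∈ NT G X r par)
    (hp' : (u', w') ∈ NT G X r par) (h1 : ¬ (u = u' ∧ w = w')) (h2 : ¬ (u = w' ∧ w = u'))
    {α β α' β' : List V} {m m' : V}
    (hα : Up r par u α m) (hβ : Up r par w β m) (hnd : (α ++ m :: β).Nodup)
    (hX : ∀ x ∈ α ++ m :: β, x ∈ X)
    (hα' : Up r par u' α' m') (hβ' : Up r par w' β' m') (hnd' : (α' ++ m' :: β').Nodup)
    (hX' : ∀ x ∈ α' ++ m' :: β', x ∈ X)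
    {x : V} (hx : x ∈ α ∨ x ∈ β) (hx' : x ∈ α' ∨ x ∈ β') :
    ∃ θ : Th V, IsTheta G θ ∧ θ.vs ⊆ X ∧
      θ.size ≤ α.length + β.length + α'.length + β'.length + 2 := by
  classical
  rcases hx' with hx' | hx'
  · exact two_edges_aux G hT hp hp' h1 h2 hα hβ hnd hX hα' hβ' hnd' hX' hx hx'
  · have hperm : (β' ++ m' :: α').Perm (α' ++ m' :: β') := by
      rw [List.perm_iff_count]
      intro a
      simp only [List.count_append, List.count_cons]
      ring
    have hp'' : (w', u') ∈ NT G X r par := by
      unfold NT at hp' ⊢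
      simp only [Finset.mem_filter, Finset.mem_product] at hp' ⊢
      exact ⟨⟨hp'.1.2, hp'.1.1⟩, hp'.2.1.symm, fun h => hp'.2.2 h.symm⟩
    obtain ⟨θ, hθ, hvs, hsize⟩ := two_edges_aux G hT hp hp'' h2 h1 hα hβ hnd hX hβ' hα'
      (hperm.nodup_iff.mpr hnd') (fun z hz => hX' z (hperm.subset hz)) hx hx'
    exact ⟨θ, hθ, hvs, by omega⟩

end H10.IB
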