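import Pool.Agent.H10.IB.Growth
import Pool.Agent.H10.IB.TreeB
import Pool.Agent.H10.IB.Meet
import Pool.Agent.H10.IB.NTc
import Pool.Agent.H10.IB.TwoE

/-!
MODULE ExTheta (about 110 lines). A dense set of large girth contains a short theta.
`growth` gives `S', r, j` and the ball `X = rb G S' r j`, `22 |X| < 10 E(X,X)`; `tree_ball` gives
`lev, par`. For every pair `p = (u,w) ∈ NT G X r par` choose `α, β, m` by `meet` and put
`D_p = (α ++ β).toFinset ⊆ X.erase r` (`Up`: elements of `α`, `β` are not `r`). By `cyc_of_NT`,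
`Cyc.mono`, `Cyc.len_gt` (girth of `S ⊇ X`): `|α| + |β| + 1 > g >= 10`, so `|D_p| >= 10`.
By `card_NT`, `10 |NT| = 10 E(X,X) - 20 (|X| - 1) > 2 |X| >= 2 |X.erase r|`, so some `x` lies in
`D_p` for at least three `p` (double counting), two of which, `p` and `p'`, satisfy `p ≠ p'` and
`p' ≠ p.swap`. `two_edges` gives the theta, of size at most `4 j + 2`.
-/

set_option autoImplicit false
set_option linter.unusedSectionVars false

namespace H10.IB

open Finset H97.Int

variable {V : Type*} [Fintype V] [DecidableEq V] (G : SimpleGraph V) [DecidableRel G.Adj]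

theorem exists_theta {S : Finset V} {h g : ℕ} (hS : S.Nonempty)
    (hd : 26 * (S.card : ℤ) ≤ 10 * E G S S) (hh : 11 ^ h * S.card < 13 ^ h)
    (hg : Girth G S g) (hg10 : 10 ≤ g) :
    ∃ θ : Th V, IsTheta G θ ∧ θ.vs ⊆ S ∧ θ.size ≤ 4 * h + 2 := by
  classical
  obtain ⟨S', hS', r, hr, j, hj, hX0⟩ := growth G hS hd hh
  obtain ⟨lev, par, hT⟩ := tree_ball G hr j
  set X := rb G S' r j with hXdef
  have hXS : X ⊆ S := (rb_sub G hr j).trans hS'
  have hmem : ∀ p ∈ NT G X r par, p.1 ∈ X ∧ p.2 ∈ X := by
    intro p hp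
    unfold NT at hp
    rw [Finset.mem_filter, Finset.mem_product] at hp
    exact hp.1
  have hmeet : ∀ p ∈ NT G X r par, ∃ (α β : List V) (m : V), Up r par p.1 α m ∧
      Up r par p.2 β m ∧ (α ++ m :: β).Nodup ∧ (∀ x ∈ α ++ m :: β, x ∈ X) ∧
      α.length ≤ j ∧ β.length ≤ j := fun p hp =>
    meet G hT (hmem p hp).1 (hmem p hp).2
  haveI : Nonempty V := ⟨r⟩
  choose! α β m hα hβ hnd hX hαj hβj using hmeet
  set D : V × V → Finset V := fun p => (α p ++ β p).toFinset with hD
  have hDsub : ∀ p ∈ NT G X r par, D p ⊆ X.erase r := by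
    intro p hp x hx
    rw [hD] at hx
    simp only [List.mem_toFinset, List.mem_append] at hx
    rw [Finset.mem_erase]
    rcases hx with hx | hx
    · exact ⟨(hα p hp).2.2 x hx, hX p hp x (by simp [hx])⟩
    · exact ⟨(hβ p hp).2.2 x hx, hX p hp x (by simp [hx])⟩
  have hDcard : ∀ p ∈ NT G X r par, 10 ≤ (D p).card := by
    intro p hp
    have h1 : (α p ++ β p).Nodup := by
      refine (hnd p hp).sublist ?_
      exact List.Sublist.append (List.Sublist.refl _) (List.sublist_cons_self _ _)
    have h2 : (D p).card = (α p).length + (β p).length := by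
      rw [hD]
      simp only
      rw [List.toFinset_card_of_nodup h1, List.length_append]
    have h3 : Cyc (FE G r par p.1 p.2) (α p ++ m p :: (β p).reverse) :=
      cyc_of_NT G hT hp (hα p hp) (hβ p hp) (hnd p hp) (hX p hp)
    have h4 : Cyc G.Adj (α p ++ m p :: (β p).reverse) := h3.mono fun x y hxy => hxy.1
    have h5 := Cyc.len_gt G hg h4 (by
      intro v hv
      refine hXS (hX p hp v ?_)
      simp only [List.mem_append, List.mem_cons, List.mem_reverse] at hv ⊢
      exact hv)
    simp only [List.length_append, List.length_cons, List.length_reverse] at h5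
    omega
  obtain ⟨x, hx3⟩ : ∃ x, 3 ≤ ((NT G X r par).filter fun p => x ∈ D p).card := by
    by_contra hcon
    push Not at hcon
    have h1 : 10 * (NT G X r par).card ≤ ∑ p ∈ NT G X r par, (D p).card := by
      rw [mul_comm, ← smul_eq_mul]
      exact Finset.card_nsmul_le_sum _ _ _ hDcard
    have h2 : ∑ p ∈ NT G X r par, (D p).card
        = ∑ x ∈ X.erase r, ((NT G X r par).filter fun p => x ∈ D p).card := by
      have h3 : ∀ p ∈ NT G X r par, (D p).card = ∑ x ∈ X.erase r, if x ∈ D p then 1 else 0 := by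
        intro p hp
        rw [← Finset.card_filter, Finset.filter_mem_eq_inter,
          Finset.inter_eq_right.2 (hDsub p hp)]
      rw [Finset.sum_congr rfl h3, Finset.sum_comm]
      refine Finset.sum_congr rfl fun x _ => ?_
      rw [Finset.card_filter]
    have h4 : ∑ x ∈ X.erase r, ((NT G X r par).filter fun p => x ∈ D p).card
        ≤ (X.erase r).card * 2 := by
      rw [← smul_eq_mul]
      exact Finset.sum_le_card_nsmul _ _ _ fun x _ => by
        have := hcon x
        omega
    have hrX : r ∈ X := hT.root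
    have h5 : (X.erase r).card = X.card - 1 := Finset.card_erase_of_mem hrX
    have h6 : 1 ≤ X.card := Finset.card_pos.2 ⟨r, hrX⟩
    have h7 := card_NT G hT
    omega
  have hF : (((NT G X r par).filter fun p => x ∈ D p)).Nonempty :=
    Finset.card_pos.1 (by omega)
  obtain ⟨p, hpF⟩ := hF
  have hex : ((((NT G X r par).filter fun p => x ∈ D p).erase p).erase p.swap).Nonempty := by
    rw [← Finset.card_pos]
    have h1 := Finset.card_erase_of_mem hpF
    have h2 := Finset.pred_card_le_card_erase
      (s := ((NT G X r par).filter fun p => x ∈ D p).erase p) (a := p.swap)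
    omega
  obtain ⟨p', hp'⟩ := hex
  rw [Finset.mem_erase, Finset.mem_erase] at hp'
  obtain ⟨hps, hpne, hp'F⟩ := hp'
  rw [Finset.mem_filter] at hpF hp'F
  obtain ⟨hpN, hxp⟩ := hpF
  obtain ⟨hpN', hxp'⟩ := hp'F
  have hx1 : x ∈ α p ∨ x ∈ β p := by
    rw [hD] at hxp
    simpa only [List.mem_toFinset, List.mem_append] using hxp
  have hx2 : x ∈ α p' ∨ x ∈ β p' := by
    rw [hD] at hxp'
    simpa only [List.mem_toFinset, List.mem_append] using hxp'
  obtain ⟨θ, h1, h2, h3⟩ := two_edges G hT (u := p.1) (w := p.2) (u' := p'.1) (w' := p'.2)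
    hpN hpN'
    (fun h => hpne (Prod.ext h.1.symm h.2.symm))
    (fun h => hps (Prod.ext h.2.symm h.1.symm))
    (hα p hpN) (hβ p hpN) (hnd p hpN) (hX p hpN) (hα p' hpN') (hβ p' hpN') (hnd p' hpN')
    (hX p' hpN') hx1 hx2
  refine ⟨θ, h1, h2.trans hXS, h3.trans ?_⟩
  have a1 := hαj p hpN
  have a2 := hβj p hpN
  have a3 := hαj p' hpN'
  have a4 := hβj p' hpN'
  omega

end H10.IB
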