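import Pool.Agent.H10.IB.Defs

/-!
MODULE Growth (about 110 lines). A set of density at least 1.3 contains a ball of density more
than 1.1 and radius at most `h`.
Let `S'` be a nonempty subset of `S` of minimal cardinality with `26 |S'| <= 10 E(S',S')`.
For nonempty `X ⊆ S'`: `26 |X| <= 10 (E(X,X) + 2 E(X, S' \ X))` (if `X = S'` clear; otherwise
`S' \ X` is nonempty and smaller, so `10 E(S' \ X, S' \ X) < 26 |S' \ X|`, and
`E(S',S') = E(X,X) + 2 E(X,S' \ X) + E(S' \ X, S' \ X)`).
Let `r ∈ S'` and `X_j = rb G S' r j`. Neighbours of `X_j` in `S'` lie in `X_(j+1)`, so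
`E(X_j,X_j) + 2 E(X_j, S' \ X_j) <= E(X_(j+1), X_(j+1))`.
If no ball of radius `<= h` is dense, `26 |X_j| <= 10 E(X_(j+1),X_(j+1)) <= 22 |X_(j+1)|` for
`j < h`, hence `13^h <= 11^h |X_h| <= 11^h |S|`, a contradiction. (`rb_sub`, `rb_mono`.)
-/

set_option autoImplicit false
set_option linter.unusedSectionVars false

namespace H10.IB

open Finset H97.Int

variable {V : Type*} [Fintype V] [DecidableEq V] (G : SimpleGraph V) [DecidableRel G.Adj]

lemma E_add_sdiff {X T : Finset V} (h : X ⊆ T) :
    E G T T = E G X X + 2 * E G X (T \ X) + E G (T \ X) (T \ X) := by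
  have hT : T = X ∪ (T \ X) := (Finset.union_sdiff_of_subset h).symm
  have hd : Disjoint X (T \ X) := Finset.disjoint_sdiff
  calc E G T T = E G (X ∪ (T \ X)) (X ∪ (T \ X)) := by rw [← hT]
    _ = E G X X + 2 * E G X (T \ X) + E G (T \ X) (T \ X) := by
        rw [E_union_left G hd, E_union_right G hd, E_union_right G hd, E_symm G (T \ X) X]
        ring

lemma E_ball_step {S' : Finset V} {r : V} (hr : r ∈ S') (j : ℕ) :
    E G (rb G S' r j) (rb G S' r j) + 2 * E G (rb G S' r j) (S' \ rb G S' r j)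
      ≤ E G (rb G S' r (j + 1)) (rb G S' r (j + 1)) := by
  have h1 := E_add_sdiff G (rb_mono G hr j)
  have h2 : E G (rb G S' r j) (S' \ rb G S' r j)
      ≤ E G (rb G S' r j) (rb G S' r (j + 1) \ rb G S' r j) := by
    rw [E_eq_sum_nin, E_eq_sum_nin]
    refine Finset.sum_le_sum fun v hv => ?_
    rw [nin_eq, nin_eq]
    norm_cast
    apply Finset.card_le_card
    intro u hu
    simp only [Finset.mem_inter, SimpleGraph.mem_neighborFinset, Finset.mem_sdiff] at hu ⊢
    refine ⟨hu.1, ?_, hu.2.2⟩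
    simp only [rb, Finset.mem_inter]
    exact ⟨hu.2.1, (mem_nbr G).2 (Or.inr ⟨v, hv, hu.1⟩)⟩
  have h3 := E_nonneg G (rb G S' r (j + 1) \ rb G S' r j) (rb G S' r (j + 1) \ rb G S' r j)
  linarith

theorem growth {S : Finset V} {h : ℕ} (hS : S.Nonempty)
    (hd : 26 * (S.card : ℤ) ≤ 10 * E G S S) (hh : 11 ^ h * S.card < 13 ^ h) :
    ∃ S' ⊆ S, ∃ r ∈ S', ∃ j ≤ h,
      22 * ((rb G S' r j).card : ℤ) < 10 * E G (rb G S' r j) (rb G S' r j) := by
  classical
  obtain ⟨S', hS'mem, hmin⟩ := Finset.exists_min_image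
    (S.powerset.filter fun T => T.Nonempty ∧ 26 * (T.card : ℤ) ≤ 10 * E G T T)
    (fun T => T.card) ⟨S, by simp [hS, hd]⟩
  simp only [Finset.mem_filter, Finset.mem_powerset] at hS'mem hmin
  obtain ⟨hS'S, hne, hdense⟩ := hS'mem
  have key : ∀ X ⊆ S', X.Nonempty →
      26 * (X.card : ℤ) ≤ 10 * (E G X X + 2 * E G X (S' \ X)) := by
    intro X hX hXne
    by_cases hD : (S' \ X).Nonempty
    · have h1 : ¬ (26 * ((S' \ X).card : ℤ) ≤ 10 * E G (S' \ X) (S' \ X)) := by
        intro h2
        have h3 := hmin (S' \ X) ⟨Finset.sdiff_subset.trans hS'S, hD, h2⟩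
        have h4 : (S' \ X).card + X.card = S'.card := Finset.card_sdiff_add_card_eq_card hX
        have h5 := hXne.card_pos
        omega
      push Not at h1
      have h2 := E_add_sdiff G hX
      have h4 : ((S' \ X).card : ℤ) + X.card = S'.card := by
        exact_mod_cast Finset.card_sdiff_add_card_eq_card hX
      linarith
    · rw [Finset.not_nonempty_iff_eq_empty] at hD
      have h2 := E_add_sdiff G hX
      have h4 : ((S' \ X).card : ℤ) + X.card = S'.card := by
        exact_mod_cast Finset.card_sdiff_add_card_eq_card hX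
      rw [hD] at h2 h4 ⊢
      simp only [E_empty_left, Finset.card_empty] at h2 h4
      simp only [Nat.cast_zero, zero_add] at h4
      rw [h4]
      linarith
  obtain ⟨r, hr⟩ := hne
  refine ⟨S', hS'S, r, hr, ?_⟩
  by_contra hcon
  push Not at hcon
  have hball : ∀ j ≤ h, 13 ^ j ≤ 11 ^ j * (rb G S' r j).card := by
    intro j
    induction j with
    | zero => intro _; simp [rb]
    | succ j ih =>
      intro hj
      have h1 := ih (by omega)
      have h2 := hcon (j + 1) hj
      have h3 := E_ball_step G hr j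
      have h4 := key (rb G S' r j) (rb_sub G hr j)
        ⟨r, rb_mono' G hr (Nat.zero_le j) (by simp [rb])⟩
      have h5 : 13 * ((rb G S' r j).card : ℤ) ≤ 11 * (rb G S' r (j + 1)).card := by linarith
      have h6 : 13 * (rb G S' r j).card ≤ 11 * (rb G S' r (j + 1)).card := by exact_mod_cast h5
      calc 13 ^ (j + 1) = 13 * 13 ^ j := by ring
        _ ≤ 13 * (11 ^ j * (rb G S' r j).card) := by gcongr
        _ = 11 ^ j * (13 * (rb G S' r j).card) := by ring
        _ ≤ 11 ^ j * (11 * (rb G S' r (j + 1)).card) := by gcongr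
        _ = 11 ^ (j + 1) * (rb G S' r (j + 1)).card := by ring
  have h1 := hball h le_rfl
  have h2 : (rb G S' r h).card ≤ S.card := Finset.card_le_card ((rb_sub G hr h).trans hS'S)
  have h3 : 11 ^ h * (rb G S' r h).card ≤ 11 ^ h * S.card := by gcongr
  omega

end H10.IB
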