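import Pool.Agent.H10.IB.Defs

/-!
MODULE LocalB (about 130 lines). Local structure of the larger side `B = Aᶜ`.
`low`: `low1` and `cut_union_regular` (`imb A = D`, `A.card <= Aᶜ.card` from `Opt.card`).
`nin_le`: `low` with `X = {x}`. `not_adj`: `low` with `X = {x, y}`: `E X X >= 2`, `E X A >= 2`.
`not_path`: `low` with `X = {x, w, y}` (three different vertices): `E X X >= 4`, `E X A >= 2`.
`exits`: the sets `N_x = insert x (G.neighborFinset x ∩ B)`, `x` an exit, have at least three
elements (`nin G x B >= d - 1 >= 2`), are contained in `B` and pairwise disjoint (`not_adj`,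
`not_path`).
-/

set_option autoImplicit false
set_option linter.unusedSectionVars false

namespace H10.IB

open Finset H97.Int

variable {V : Type*} [Fintype V] [DecidableEq V] (G : SimpleGraph V) [DecidableRel G.Adj]

variable {A : Finset V} {d s g D : ℕ}

theorem Opt.low (h : Opt G A d s g D) {X : Finset V} (hX : X ⊆ Aᶜ) (hD : 2 * X.card ≤ D) :
    E G X X + 2 * E G X A ≤ 2 * (X.card : ℤ) := by
  have hAX : Disjoint A X := by
    rw [Finset.disjoint_left]
    intro a ha hax
    exact (Finset.mem_compl.mp (hX hax)) ha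
  have hc := h.card
  have hle : 2 * (X.card : ℤ) ≤ (Aᶜ.card : ℤ) - A.card := by
    rw [hc]; push_cast; omega
  have h1 := low1 G (s := (s : ℤ)) (A := A) (by omega) h.min hAX hle
  rw [cut_union_regular G hAX h.reg] at h1
  have h2 : (d : ℤ) = s + 2 := by exact_mod_cast h.hs
  rw [h2] at h1
  linarith

theorem Opt.nin_le (h : Opt G A d s g D) : ∀ x ∈ Aᶜ, nin G x A ≤ 1 := by
  intro x hx
  have h1 := h.gD
  have h2 := h.g10
  have h3 := Opt.low G h (X := {x}) (by simpa using hx) (by rw [Finset.card_singleton]; omega)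
  have h4 : E G {x} A = nin G x A := rfl
  have h5 := E_nonneg G {x} {x}
  rw [h4, Finset.card_singleton] at h3
  push_cast at h3
  omega

theorem Opt.not_adj (h : Opt G A d s g D) :
    ∀ x ∈ Aᶜ, ∀ y ∈ Aᶜ, 1 ≤ nin G x A → 1 ≤ nin G y A → ¬ G.Adj x y := by
  intro x hx y hy h1 h2 hadj
  have hne : x ≠ y := hadj.ne
  have hg := h.gD
  have hg' := h.g10
  have hcard : ({x, y} : Finset V).card = 2 := Finset.card_pair hne
  have hsub : ({x, y} : Finset V) ⊆ Aᶜ := by
    intro z hz
    rcases Finset.mem_insert.mp hz with rfl | hz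
    · exact hx
    · rw [Finset.mem_singleton.mp hz]; exact hy
  have h3 := Opt.low G h hsub (by rw [hcard]; omega)
  rw [E_eq_sum_nin, E_eq_sum_nin, Finset.sum_pair hne, Finset.sum_pair hne, hcard] at h3
  have h4 : 1 ≤ nin G x {x, y} := one_le_nin G (v := y) (by simp) hadj
  have h5 : 1 ≤ nin G y {x, y} := one_le_nin G (v := x) (by simp) hadj.symm
  push_cast at h3
  omega

theorem Opt.not_path (h : Opt G A d s g D) :
    ∀ x ∈ Aᶜ, ∀ y ∈ Aᶜ, x ≠ y → 1 ≤ nin G x A → 1 ≤ nin G y A →
      ∀ w ∈ Aᶜ, G.Adj x w → ¬ G.Adj w y := by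
  intro x hx y hy hxy h1 h2 w hw hxw hwy
  have hg := h.gD
  have hg' := h.g10
  have hn1 : x ∉ ({w, y} : Finset V) := by
    simp only [Finset.mem_insert, Finset.mem_singleton, not_or]
    exact ⟨hxw.ne, hxy⟩
  have hn2 : w ≠ y := hwy.ne
  have hcard : ({x, w, y} : Finset V).card = 3 := by
    rw [Finset.card_insert_of_notMem hn1, Finset.card_pair hn2]
  have hsub : ({x, w, y} : Finset V) ⊆ Aᶜ := by
    intro z hz
    simp only [Finset.mem_insert, Finset.mem_singleton] at hz
    rcases hz with rfl | rfl | rfl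
    · exact hx
    · exact hw
    · exact hy
  have h3 := Opt.low G h hsub (by rw [hcard]; omega)
  rw [E_eq_sum_nin, E_eq_sum_nin, Finset.sum_insert hn1, Finset.sum_pair hn2,
    Finset.sum_insert hn1, Finset.sum_pair hn2, hcard] at h3
  have h4 : 1 ≤ nin G x {x, w, y} := one_le_nin G (v := w) (by simp) hxw
  have h5 : 1 ≤ nin G y {x, w, y} := one_le_nin G (v := w) (by simp) hwy.symm
  have h6 : 2 ≤ nin G w {x, w, y} := by
    rw [nin_eq]
    have h7 : ({x, y} : Finset V) ⊆ G.neighborFinset w ∩ {x, w, y} := by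
      intro z hz
      rw [Finset.mem_inter, SimpleGraph.mem_neighborFinset]
      rcases Finset.mem_insert.mp hz with rfl | hz
      · exact ⟨hxw.symm, by simp⟩
      · rw [Finset.mem_singleton.mp hz]; exact ⟨hwy, by simp⟩
    have h8 := Finset.card_le_card h7
    rw [Finset.card_pair hxy] at h8
    exact_mod_cast h8
  have h9 := nin_nonneg G w A
  push_cast at h3
  omega

theorem Opt.exits (h : Opt G A d s g D) : 3 * E G Aᶜ A ≤ (Aᶜ.card : ℤ) := by
  classical
  set X : Finset V := Aᶜ.filter (fun x => 1 ≤ nin G x A) with hXdef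
  have hE : E G Aᶜ A = (X.card : ℤ) := by
    rw [E_eq_sum_nin, hXdef, Finset.card_filter]
    push_cast
    refine Finset.sum_congr rfl fun x hx => ?_
    have h1 := Opt.nin_le G h x hx
    have h2 := nin_nonneg G x A
    split_ifs with h3
    · omega
    · omega
  let N : V → Finset V := fun x => insert x (G.neighborFinset x ∩ Aᶜ)
  have hN : ∀ x ∈ X, 3 ≤ (N x).card := by
    intro x hx
    have hx' := Finset.mem_filter.mp hx
    have h1 := Opt.nin_le G h x hx'.1
    have h2 := nin_add_compl G x A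
    rw [h.reg x, nin_eq G x Aᶜ] at h2
    have h3 : x ∉ G.neighborFinset x ∩ Aᶜ := by
      simp
    show 3 ≤ (insert x (G.neighborFinset x ∩ Aᶜ)).card
    rw [Finset.card_insert_of_notMem h3]
    rcases h.hd with hd | hd
    · rw [hd] at h2; push_cast at h2; omega
    · rw [hd] at h2; push_cast at h2; omega
  have hdisj : ∀ x ∈ X, ∀ y ∈ X, x ≠ y → Disjoint (N x) (N y) := by
    intro x hx y hy hxy
    have hx' := Finset.mem_filter.mp hx
    have hy' := Finset.mem_filter.mp hy
    rw [Finset.disjoint_left]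
    intro z hzx hzy
    rcases Finset.mem_insert.mp hzx with h1 | h1
    · rcases Finset.mem_insert.mp hzy with h2 | h2
      · exact hxy (h1.symm.trans h2)
      · rw [Finset.mem_inter, SimpleGraph.mem_neighborFinset] at h2
        rw [h1] at h2
        exact Opt.not_adj G h y hy'.1 x hx'.1 hy'.2 hx'.2 h2.1
    · rw [Finset.mem_inter, SimpleGraph.mem_neighborFinset] at h1
      rcases Finset.mem_insert.mp hzy with h2 | h2
      · rw [h2] at h1
        exact Opt.not_adj G h x hx'.1 y hy'.1 hx'.2 hy'.2 h1.1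
      · rw [Finset.mem_inter, SimpleGraph.mem_neighborFinset] at h2
        exact Opt.not_path G h x hx'.1 y hy'.1 hxy hx'.2 hy'.2 z h1.2 h1.1 h2.1.symm
  have hsub : X.biUnion N ⊆ Aᶜ := by
    intro z hz
    obtain ⟨x, hx, hzx⟩ := Finset.mem_biUnion.mp hz
    rcases Finset.mem_insert.mp hzx with h1 | h1
    · rw [h1]; exact (Finset.mem_filter.mp hx).1
    · exact (Finset.mem_inter.mp h1).2
  have h1 := Finset.card_le_card hsub
  rw [Finset.card_biUnion hdisj] at h1
  have h2 : X.card * 3 ≤ ∑ x ∈ X, (N x).card := by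
    rw [← smul_eq_mul]
    exact Finset.card_nsmul_le_sum X _ 3 hN
  rw [hE]
  have h3 : 3 * X.card ≤ Aᶜ.card := by omega
  exact_mod_cast h3

end H10.IB
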