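import Pool.Agent.H10.IB.Defs

/-!
MODULE Low (about 120 lines). Degrees at most two.
Take `A` with both sides satisfied (exists: the empty set) and `|A| <= |Aᶜ|`, `imb A` minimal.
Suppose `imb A >= 9`, `B = Aᶜ`. Choose `X ⊆ B`, `1 <= |X| <= 4`, such that `A ∪ X` and `B \ X` are
satisfied: then `imb (A ∪ X) = |imb A - 2 |X|| < imb A`, a contradiction.
Let `u ∈ B`. If `nin G u B = 0` then `u` is isolated (satisfied), `X = {u}`. Otherwise let `u' ∈ B`
be a neighbour of `u`, `X₀ = {u, u'}` and add to `X₀` all `p ∈ B \ X₀` with `1 <= nin G p X₀` and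
`nin G p (B \ X₀) = 0` (at most two vertices: each of `u, u'` has at most one other neighbour).
Every vertex of `X` has a neighbour in `X`, degree at most 2: satisfied. Let `w ∈ B \ X`. If `w` has
no neighbour in `X₀`... : if `nin G w (B \ X₀) = 0` then also `nin G w X₀ = 0`, so `nin G w B = 0`
and `w` is isolated; otherwise `w` has a neighbour `z ∈ B \ X₀`, and `z ∉ X` since
`nin G z (B \ X₀) >= 1`; so `w` has a neighbour in `B \ X`, degree at most 2: satisfied.
-/

set_option autoImplicit false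
set_option linter.unusedSectionVars false

namespace H10.IB

open Finset H97.Int

variable {V : Type*} [Fintype V] [DecidableEq V] (G : SimpleGraph V) [DecidableRel G.Adj]

private lemma ok1 (hd : ∀ v, G.degree v ≤ 2) {v : V} {S : Finset V} (h : 1 ≤ nin G v S) :
    nin G v Sᶜ ≤ nin G v S := by
  have h1 := nin_add_compl G v S
  have h2 : (G.degree v : ℤ) ≤ 2 := by exact_mod_cast hd v
  linarith

private lemma iso_all {v : V} {A : Finset V} (hsat : nin G v A ≤ nin G v Aᶜ)
    (h : nin G v Aᶜ = 0) (S : Finset V) : nin G v S = 0 := by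
  have h1 := nin_add_compl G v A
  have h3 := nin_nonneg G v A
  have h4 : nin G v univ = 0 := by rw [nin_univ]; linarith
  have h5 := nin_mono G (Finset.subset_univ S) v
  exact le_antisymm (by linarith) (nin_nonneg G v S)

private lemma step (hd : ∀ v, G.degree v ≤ 2) {A X₀ : Finset V} (hA : Sat G A) (hAc : Sat G Aᶜ)
    (hX : X₀ ⊆ Aᶜ) (hc : X₀.card ≤ 2) (h1 : ∀ v ∈ X₀, nin G v (Aᶜ \ X₀) ≤ 1)
    (h2 : ∀ v ∈ X₀, 1 ≤ nin G v X₀ ∨ nin G v Aᶜ = 0) :
    ∃ X : Finset V, X₀ ⊆ X ∧ X ⊆ Aᶜ ∧ X.card ≤ 4 ∧ Sat G (A ∪ X) ∧ Sat G (A ∪ X)ᶜ := by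
  classical
  set P : Finset V := (Aᶜ \ X₀).filter fun p => 1 ≤ nin G p X₀ ∧ nin G p (Aᶜ \ X₀) = 0 with hP
  have hPc : P.card ≤ 2 := by
    have e1 : (P.card : ℤ) ≤ E G P X₀ := by
      rw [E_eq_sum_nin]
      calc (P.card : ℤ) = ∑ _p ∈ P, (1 : ℤ) := by simp
        _ ≤ _ := Finset.sum_le_sum fun p hp => (Finset.mem_filter.mp hp).2.1
    have e2 : E G P X₀ ≤ E G X₀ (Aᶜ \ X₀) := by
      rw [E_symm]
      exact E_mono_right G (Finset.filter_subset _ _) _
    have e3 : E G X₀ (Aᶜ \ X₀) ≤ X₀.card := by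
      rw [E_eq_sum_nin]
      calc _ ≤ ∑ _p ∈ X₀, (1 : ℤ) := Finset.sum_le_sum fun p hp => h1 p hp
        _ = _ := by simp
    have : (P.card : ℤ) ≤ (2 : ℕ) := by
      have : (X₀.card : ℤ) ≤ (2 : ℕ) := by exact_mod_cast hc
      linarith
    exact_mod_cast this
  have hAc' : ∀ v ∈ Aᶜ, nin G v A ≤ nin G v Aᶜ := by
    intro v hv
    have := hAc v hv
    rwa [compl_compl] at this
  refine ⟨X₀ ∪ P, Finset.subset_union_left, ?_, ?_, ?_, ?_⟩
  · exact Finset.union_subset hX ((Finset.filter_subset _ _).trans Finset.sdiff_subset)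
  · exact (Finset.card_union_le _ _).trans (by omega)
  · intro v hv
    rcases Finset.mem_union.mp hv with hvA | hvX
    · exact nin_sat_mono G Finset.subset_union_left (hA v hvA)
    · rcases Finset.mem_union.mp hvX with hv0 | hvP
      · rcases h2 v hv0 with h | h
        · apply ok1 G hd
          exact h.trans (nin_mono G
            (Finset.subset_union_left.trans Finset.subset_union_right) v)
        · rw [iso_all G (hAc' v (hX hv0)) h, iso_all G (hAc' v (hX hv0)) h]
      · apply ok1 G hd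
        exact (Finset.mem_filter.mp hvP).2.1.trans (nin_mono G
            (Finset.subset_union_left.trans Finset.subset_union_right) v)
  · intro w hw
    have hwA : w ∈ Aᶜ := by
      rw [Finset.mem_compl] at hw ⊢
      exact fun h => hw (Finset.mem_union_left _ h)
    have hw0 : w ∉ X₀ := by
      rw [Finset.mem_compl] at hw
      exact fun h => hw (Finset.mem_union_right _ (Finset.mem_union_left _ h))
    have hwP : w ∉ P := by
      rw [Finset.mem_compl] at hw
      exact fun h => hw (Finset.mem_union_right _ (Finset.mem_union_right _ h))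
    have hwB : w ∈ Aᶜ \ X₀ := Finset.mem_sdiff.mpr ⟨hwA, hw0⟩
    by_cases h0 : nin G w (Aᶜ \ X₀) = 0
    · have h3 : nin G w X₀ = 0 := by
        by_contra hne
        apply hwP
        rw [hP, Finset.mem_filter]
        have := nin_nonneg G w X₀
        exact ⟨hwB, by omega, h0⟩
      have h4 : nin G w Aᶜ = 0 := by
        have e : Aᶜ = X₀ ∪ (Aᶜ \ X₀) := (Finset.union_sdiff_of_subset hX).symm
        rw [e, nin_union G Finset.disjoint_sdiff, h3, h0]
        rfl
      rw [iso_all G (hAc' w hwA) h4, iso_all G (hAc' w hwA) h4]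
    · have hpos : 0 < nin G w (Aᶜ \ X₀) := lt_of_le_of_ne (nin_nonneg G _ _) (Ne.symm h0)
      obtain ⟨z, hz, hwz⟩ := exists_adj G hpos
      have hzP : z ∉ P := by
        intro h
        have h5 := (Finset.mem_filter.mp h).2.2
        have h6 := one_le_nin G hwB hwz.symm
        omega
      have hz' : z ∈ (A ∪ (X₀ ∪ P))ᶜ := by
        rw [Finset.mem_sdiff, Finset.mem_compl] at hz
        simp only [Finset.mem_compl, Finset.mem_union, not_or]
        exact ⟨hz.1, hz.2, hzP⟩
      exact ok1 G hd (one_le_nin G hz' hwz)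

theorem low_degree (hd : ∀ v, G.degree v ≤ 2) :
    ∃ A : Finset V, Sat G A ∧ Sat G Aᶜ ∧ imb A ≤ 8 := by
  classical
  have hne : ((univ : Finset (Finset V)).filter fun A => Sat G A ∧ Sat G Aᶜ ∧
      A.card ≤ Aᶜ.card).Nonempty := by
    refine ⟨∅, ?_⟩
    rw [Finset.mem_filter]
    refine ⟨Finset.mem_univ _, sat_empty G, ?_, by simp⟩
    intro v _
    rw [compl_compl]
    have : nin G v ∅ = 0 := by rw [nin_eq_zero_iff]; simp
    rw [this]
    exact nin_nonneg G _ _
  obtain ⟨A, hA, hmin⟩ := Finset.exists_min_image _ (fun A : Finset V => imb A) hne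
  rw [Finset.mem_filter] at hA
  obtain ⟨-, hS, hSc, hle⟩ := hA
  refine ⟨A, hS, hSc, ?_⟩
  by_contra hcon
  have hle' : (A.card : ℤ) ≤ Aᶜ.card := by exact_mod_cast hle
  have himb : imb A = (Aᶜ.card : ℤ) - A.card := by
    unfold imb; exact abs_of_nonneg (by linarith)
  have hpos : 0 < Aᶜ.card := by
    have : (0 : ℤ) < Aᶜ.card := by
      have := Int.natCast_nonneg A.card
      linarith
    exact_mod_cast this
  obtain ⟨u, hu⟩ := Finset.card_pos.mp hpos
  have key : ∃ X₀ : Finset V, u ∈ X₀ ∧ X₀ ⊆ Aᶜ ∧ X₀.card ≤ 2 ∧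
      (∀ v ∈ X₀, nin G v (Aᶜ \ X₀) ≤ 1) ∧ (∀ v ∈ X₀, 1 ≤ nin G v X₀ ∨ nin G v Aᶜ = 0) := by
    by_cases h0 : nin G u Aᶜ = 0
    · refine ⟨{u}, by simp, by simpa using hu, by simp, ?_, ?_⟩
      · intro v hv
        rw [Finset.mem_singleton] at hv
        subst hv
        have := nin_mono G (Finset.sdiff_subset (s := Aᶜ) (t := {v})) v
        linarith
      · intro v hv
        rw [Finset.mem_singleton] at hv
        subst hv
        exact Or.inr h0
    · have hp : 0 < nin G u Aᶜ := lt_of_le_of_ne (nin_nonneg G _ _) (Ne.symm h0)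
      obtain ⟨u', hu', huu⟩ := exists_adj G hp
      have hone : ∀ v ∈ ({u, u'} : Finset V), 1 ≤ nin G v {u, u'} := by
        intro v hv
        rw [Finset.mem_insert, Finset.mem_singleton] at hv
        rcases hv with rfl | rfl
        · exact one_le_nin G (by simp) huu
        · exact one_le_nin G (by simp) huu.symm
      refine ⟨{u, u'}, by simp, ?_, Finset.card_le_two, ?_, fun v hv => Or.inl (hone v hv)⟩
      · intro v hv
        rw [Finset.mem_insert, Finset.mem_singleton] at hv
        rcases hv with rfl | rfl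
        · exact hu
        · exact hu'
      · intro v hv
        have e1 := hone v hv
        have e2 := nin_union G (Finset.disjoint_sdiff (s := {u, u'}) (t := Aᶜ)) v
        have e3 := nin_mono G (Finset.subset_univ ({u, u'} ∪ (Aᶜ \ {u, u'}))) v
        have e4 := nin_univ G v
        have e5 : (G.degree v : ℤ) ≤ 2 := by exact_mod_cast hd v
        linarith
  obtain ⟨X₀, hu0, hX₀, hc, h1, h2⟩ := key
  obtain ⟨X, hX0X, hXA, hXc, hsX, hsXc⟩ := step G hd hS hSc hX₀ hc h1 h2
  have hdis : Disjoint A X := by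
    rw [Finset.disjoint_left]
    intro x hx hx'
    exact Finset.mem_compl.mp (hXA hx') hx
  have hXpos : 1 ≤ X.card := Finset.card_pos.mpr ⟨u, hX0X hu0⟩
  have hXc' : (X.card : ℤ) ≤ 4 := by exact_mod_cast hXc
  have hXpos' : (1 : ℤ) ≤ X.card := by exact_mod_cast hXpos
  have hun := imb_union hdis
  have hlt : imb (A ∪ X) < imb A := by
    rw [hun, himb, abs_lt]
    constructor <;> linarith
  have hcard : (A ∪ X).card ≤ (A ∪ X)ᶜ.card := by
    have e1 := card_compl_int (A ∪ X)
    have e2 := card_compl_int A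
    have e3 : (A ∪ X).card = A.card + X.card := Finset.card_union_of_disjoint hdis
    have : (((A ∪ X).card : ℕ) : ℤ) ≤ ((A ∪ X)ᶜ.card : ℕ) := by
      rw [e1, e3]
      push_cast
      linarith
    exact_mod_cast this
  have := hmin (A ∪ X) (by
    rw [Finset.mem_filter]
    exact ⟨Finset.mem_univ _, hsX, hsXc, hcard⟩)
  linarith

end H10.IB
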