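import Pool.Agent.H10.IB.Main34
import Pool.Agent.H10.IB.Low

/-!
Final assembly: the frozen statement of Q1 for all degrees at most four.
-/

set_option autoImplicit false
set_option linter.unusedSectionVars false

namespace H10.IB

open Finset H97.Int

variable {V : Type*} [Fintype V] [DecidableEq V] (G : SimpleGraph V) [DecidableRel G.Adj]

theorem result : ∀ d : ℕ, d ≤ 4 → ∃ C n₀ : ℕ, ∀ (V : Type) [Fintype V] [DecidableEq V]
      (G : SimpleGraph V) [DecidableRel G.Adj],
      G.IsRegularOfDegree d → n₀ < Fintype.card V →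
      ∃ A : Finset V, A.Nonempty ∧ Aᶜ.Nonempty ∧
        |(A.card : ℤ) - (Aᶜ.card : ℤ)| ≤ (C : ℤ) ∧
        ∀ v : V,
          (v ∈ A → (G.neighborFinset v ∩ Aᶜ).card ≤ (G.neighborFinset v ∩ A).card) ∧
          (v ∉ A → (G.neighborFinset v ∩ A).card ≤ (G.neighborFinset v ∩ Aᶜ).card) := by
  intro d hd
  obtain ⟨n₁, hn₁⟩ := main34
  refine ⟨2001, max n₁ 2001, ?_⟩
  intro V _ _ G _ hreg hn
  have h1 : n₁ < Fintype.card V := (le_max_left _ _).trans_lt hn
  have h2 : 2001 < Fintype.card V := (le_max_right _ _).trans_lt hn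
  have key : ∃ A : Finset V, Sat G A ∧ Sat G Aᶜ ∧ imb A ≤ 2001 := by
    by_cases hd2 : d ≤ 2
    · obtain ⟨A, hA, hAc, hi⟩ := low_degree G (fun v => by rw [hreg v]; exact hd2)
      exact ⟨A, hA, hAc, hi.trans (by norm_num)⟩
    · exact hn₁ d (d - 2) (by omega) (by omega) V G (fun v => hreg v) h1
  obtain ⟨A, hA, hAc, hi⟩ := key
  have hcards : (A.card : ℤ) + Aᶜ.card = Fintype.card V := by
    exact_mod_cast Finset.card_add_card_compl A
  have h2' : (2001 : ℤ) < Fintype.card V := by exact_mod_cast h2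
  unfold imb at hi
  have hi' := abs_le.mp hi
  refine ⟨A, ?_, ?_, ?_, ?_⟩
  · rw [← Finset.card_pos]
    have : (0 : ℤ) < A.card := by linarith [hi'.2]
    exact_mod_cast this
  · rw [← Finset.card_pos]
    have : (0 : ℤ) < Aᶜ.card := by linarith [hi'.1]
    exact_mod_cast this
  · rw [abs_sub_comm]; exact_mod_cast hi
  · intro v
    constructor
    · intro hv
      have := hA v hv
      rw [nin_eq, nin_eq] at this
      exact_mod_cast this
    · intro hv
      have := hAc v (by simpa using hv)
      rw [nin_eq, nin_eq, compl_compl] at this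
      exact_mod_cast this

end H10.IB
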