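import Pool.Agent.H10.IB.ExTheta
import Pool.Agent.H10.IB.Closed
import Pool.Agent.H10.IB.DenseB

/-!
MODULE Many (about 60 lines). A union of `J` disjoint thetas.
Induction on `J`: given `X` for `J`, `Opt.dense_compl` with `N = X` and `exists_theta` in `Aᶜ \ X`
(size at most `4 h + 2`) give `θ`; `E (X ∪ T) (X ∪ T) >= E X X + E T T` and
`E T T >= 2 |T| + 2` (`IsTheta.E_ge`, `card_vs`).
-/

set_option autoImplicit false
set_option linter.unusedSectionVars false

namespace H10.IB

open Finset H97.Int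

variable {V : Type*} [Fintype V] [DecidableEq V] (G : SimpleGraph V) [DecidableRel G.Adj]

theorem many {A : Finset V} {d s g D : ℕ} (hO : Opt G A d s g D) {h : ℕ}
    (hh : 11 ^ h * Fintype.card V < 13 ^ h) (J : ℕ)
    (hJ : 240 * (J * (4 * h + 2)) ≤ Fintype.card V) :
    ∃ X ⊆ Aᶜ, X.card ≤ J * (4 * h + 2) ∧ 2 * (X.card : ℤ) + 2 * J ≤ E G X X := by
  induction J with
  | zero => exact ⟨∅, Finset.empty_subset _, by simp, by simp [E_empty_left]⟩
  | succ J ih =>
    have hJ' : 240 * (J * (4 * h + 2)) ≤ Fintype.card V :=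
      le_trans (Nat.mul_le_mul_left _ (Nat.mul_le_mul_right _ (Nat.le_succ J))) hJ
    obtain ⟨X, hXA, hXc, hXE⟩ := ih hJ'
    have hN : 240 * X.card ≤ Fintype.card V :=
      le_trans (Nat.mul_le_mul_left _ hXc) hJ'
    obtain ⟨hne, hde⟩ := Opt.dense_compl G hO (N := X) hN
    have hhS : 11 ^ h * (Aᶜ \ X).card < 13 ^ h :=
      lt_of_le_of_lt (Nat.mul_le_mul_left _ (Finset.card_le_univ _)) hh
    have hgS : Girth G (Aᶜ \ X) g := fun Y hY hYn hYc =>
      hO.girth Y (hY.trans Finset.sdiff_subset) hYn hYc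
    obtain ⟨θ, hθ, hθS, hθz⟩ := exists_theta G hne hde hhS hgS hO.g10
    have hdisj : Disjoint X θ.vs := by
      rw [Finset.disjoint_left]
      intro x hx hx'
      exact (Finset.mem_sdiff.mp (hθS hx')).2 hx
    have hcard : (X ∪ θ.vs).card = X.card + θ.size := by
      rw [Finset.card_union_of_disjoint hdisj, IsTheta.card_vs G hθ]
    refine ⟨X ∪ θ.vs, Finset.union_subset hXA (hθS.trans Finset.sdiff_subset), ?_, ?_⟩
    · rw [hcard, Nat.succ_mul]
      exact Nat.add_le_add hXc hθz
    · rw [hcard, E_union_left G hdisj, E_union_right G hdisj, E_union_right G hdisj]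
      have h1 := IsTheta.E_ge G hθ
      have h2 := E_nonneg G X θ.vs
      have h3 := E_nonneg G θ.vs X
      push_cast
      linarith

end H10.IB
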