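import Pool.Agent.H10.IB.Defs

/-!
MODULE Popular (about 60 lines). One size vector works for all small `F`.
Otherwise for every vector `v = (u,x₁,x₂,x₃)` with entries at most `L` there is `F_v` with
`|F_v| <= b` and not `Region G A F_v L v`. The union `F` of the `(L+1)^4` sets `F_v` has at most
`(L+1)^4 b` elements; `hr F` gives a vector `v` (entries at most `L` by definition of `Region`) with
`Region G A F L v`, and `Region` is monotone in `F` (smaller `F`): contradiction.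
-/

set_option autoImplicit false
set_option linter.unusedSectionVars false

namespace H10.IB

open Finset H97.Int

variable {V : Type*} [Fintype V] [DecidableEq V] (G : SimpleGraph V) [DecidableRel G.Adj]

lemma Region.mono {A F F' : Finset V} {L u x₁ x₂ x₃ : ℕ} (hF : F' ⊆ F)
    (h : Region G A F L u x₁ x₂ x₃) : Region G A F' L u x₁ x₂ x₃ := by
  obtain ⟨U, X₁, X₂, X₃, hU, h1, h2, h3, hrest⟩ := h
  exact ⟨U, X₁, X₂, X₃, ⟨hU.1, hU.2.mono_right hF⟩, ⟨h1.1, h1.2.mono_right hF⟩,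
    ⟨h2.1, h2.2.mono_right hF⟩, ⟨h3.1, h3.2.mono_right hF⟩, hrest⟩

theorem popular {A : Finset V} {L b : ℕ}
    (hr : ∀ F : Finset V, F.card ≤ (L + 1) ^ 4 * b → ∃ u x₁ x₂ x₃, Region G A F L u x₁ x₂ x₃) :
    ∃ u x₁ x₂ x₃ : ℕ, ∀ F : Finset V, F.card ≤ b → Region G A F L u x₁ x₂ x₃ := by
  by_contra hcon
  push Not at hcon
  choose f hf hf' using hcon
  let I : Finset (ℕ × ℕ × ℕ × ℕ) :=
    range (L + 1) ×ˢ (range (L + 1) ×ˢ (range (L + 1) ×ˢ range (L + 1)))
  have hI : I.card = (L + 1) ^ 4 := by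
    simp only [I, Finset.card_product, Finset.card_range]; ring
  let F : Finset V := I.biUnion fun v => f v.1 v.2.1 v.2.2.1 v.2.2.2
  have hFc : F.card ≤ (L + 1) ^ 4 * b := by
    rw [← hI]
    exact Finset.card_biUnion_le_card_mul _ _ _ fun v _ => hf _ _ _ _
  obtain ⟨u, x₁, x₂, x₃, hreg⟩ := hr F hFc
  have hb : u ≤ L ∧ x₁ ≤ L ∧ x₂ ≤ L ∧ x₃ ≤ L := by
    obtain ⟨U, X₁, X₂, X₃, _, _, _, _, _, _, _, _, _, h1, h2, h3, h4, _⟩ := hreg
    exact ⟨h1, h2, h3, h4⟩
  refine hf' u x₁ x₂ x₃ (Region.mono G ?_ hreg)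
  have hm : (u, x₁, x₂, x₃) ∈ I := by
    simp only [I, Finset.mem_product, Finset.mem_range]
    omega
  exact Finset.subset_biUnion_of_mem (fun v => f v.1 v.2.1 v.2.2.1 v.2.2.2) hm

end H10.IB
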