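import Pool.Agent.H10.IB.Short

/-!
MODULE NearMin (about 110 lines). An ear free theta far from `F`.
For `k <= K` let `M k` be the least size of a theta in `B \ nb G (3 k) F` (exists by `hex`,
`M K <= L`). If `M (k+1) > M k + C` for all `k < K` then `M K >= K (C+1) > L`, contradiction. So
`M (k+1) <= M k + C` for some `k < K`; let `θ` be a theta in `B \ nb G (3 k + 3) F` of size
`M (k+1) <= L` (`hex`), in particular it avoids `nb G 3 F` (`nb_mono_left`).
`EarFree`: an ear (`e1`: `q = []`, `e2`: `q = [w]`, `e3`: `q = [w₁, w₂]`; for `e1` with `y ≠ z` by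
looplessness and not `Cons`) gives by `short` a theta `θ'` with `2 θ'.size + g <= 2 θ.size + 8`.
The vertices `w` of `q` are within two steps of `θ.vs`, so they are not in `nb G (3 k) F`
(`nb`-step: `w ∈ nb G (3k) F` implies that its neighbours are in `nb G (3k+1) F` and so on,
`θ.vs` is disjoint from `nb G (3k+3) F`); so `θ'` lies in `B \ nb G (3 k) F`,
`M k <= θ'.size`, `θ.size <= M k + C`: `g <= 2 C + 8`, a contradiction.
-/

set_option autoImplicit false
set_option linter.unusedSectionVars false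

namespace H10.IB

open Finset H97.Int

variable {V : Type*} [Fintype V] [DecidableEq V] (G : SimpleGraph V) [DecidableRel G.Adj]

theorem exists_earfree {B F : Finset V} {g K C L : ℕ} (hg : Girth G B g) (hg10 : 10 ≤ g)
    (hex : ∀ t ≤ 3 * K, ∃ θ : Th V, IsTheta G θ ∧ θ.vs ⊆ B \ nb G t F ∧ θ.size ≤ L)
    (hK : L < K * (C + 1)) (hgC : 2 * C + 8 < g) :
    ∃ θ : Th V, IsTheta G θ ∧ θ.vs ⊆ B \ nb G 3 F ∧ θ.size ≤ L ∧ EarFree G B θ := by
  set S : ℕ → Set ℕ := fun k =>
    {n | ∃ θ : Th V, IsTheta G θ ∧ θ.vs ⊆ B \ nb G (3 * k) F ∧ θ.size = n} with hS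
  set M : ℕ → ℕ := fun k => sInf (S k) with hM
  have hne : ∀ k ≤ K, (S k).Nonempty := by
    intro k hk
    obtain ⟨θ, h1, h2, -⟩ := hex (3 * k) (by omega)
    exact ⟨θ.size, θ, h1, h2, rfl⟩
  have hleL : ∀ k ≤ K, M k ≤ L := by
    intro k hk
    obtain ⟨θ, h1, h2, h3⟩ := hex (3 * k) (by omega)
    exact (Nat.sInf_le (show θ.size ∈ S k from ⟨θ, h1, h2, rfl⟩)).trans h3
  obtain ⟨k, hkK, hk⟩ : ∃ k < K, M (k + 1) ≤ M k + C := by
    by_contra hcon
    push Not at hcon
    have hind : ∀ k ≤ K, k * (C + 1) ≤ M k := by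
      intro k
      induction k with
      | zero => intro _; simp
      | succ k ih =>
        intro hk
        have h1 := ih (by omega)
        have h2 := hcon k (by omega)
        calc (k + 1) * (C + 1) = k * (C + 1) + (C + 1) := by ring
          _ ≤ M k + (C + 1) := by gcongr
          _ ≤ M (k + 1) := by omega
    have h1 := hind K le_rfl
    have h2 := hleL K le_rfl
    omega
  obtain ⟨θ, hθ, hθB, hθs⟩ : M (k + 1) ∈ S (k + 1) := Nat.sInf_mem (hne (k + 1) hkK)
  have hfar : ∀ w y, y ∈ θ.vs → G.Adj w y → w ∉ nb G (3 * k) F := by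
    intro w y hy hwy hw
    have h1 : y ∈ nb G (3 * k + 1) F := by
      show y ∈ nbr G (nb G (3 * k) F)
      rw [mem_nbr]
      exact Or.inr ⟨w, hw, hwy⟩
    have h2 := nb_mono_left G (show 3 * k + 1 ≤ 3 * (k + 1) by omega) F h1
    exact (Finset.mem_sdiff.1 (hθB hy)).2 h2
  have hvsB : θ.vs ⊆ B := hθB.trans Finset.sdiff_subset
  have hvs : θ.vs ⊆ B \ nb G (3 * k) F := by
    intro x hx
    have h1 := Finset.mem_sdiff.1 (hθB hx)
    exact Finset.mem_sdiff.2 ⟨h1.1, fun h2 =>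
      h1.2 (nb_mono_left G (show 3 * k ≤ 3 * (k + 1) by omega) F h2)⟩
  have key : ∀ y ∈ θ.vs, ∀ z ∈ θ.vs, y ≠ z → ∀ q : List V, q.length ≤ 2 → q.Nodup →
      (∀ w ∈ q, w ∈ B) → (∀ w ∈ q, w ∉ θ.vs) → (∀ w ∈ q, w ∉ nb G (3 * k) F) →
      (y :: (q ++ [z])).IsChain G.Adj → (q = [] → ¬ θ.Cons y z) → False := by
    intro y hy z hz hyz q hq2 hqn hqB hqθ hqF hch hcons
    obtain ⟨θ', h1, h2, h3⟩ := short G hg hg10 hθ hvsB hy hz hyz hq2 hqn hqB hqθ hch hcons
    have h4 : θ'.vs ⊆ B \ nb G (3 * k) F := by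
      intro x hx
      rcases Finset.mem_union.1 (h2 hx) with hx | hx
      · exact hvs hx
      · rw [List.mem_toFinset] at hx
        exact Finset.mem_sdiff.2 ⟨hqB x hx, hqF x hx⟩
    have h5 : M k ≤ θ'.size := Nat.sInf_le (show θ'.size ∈ S k from ⟨θ', h1, h4, rfl⟩)
    omega
  refine ⟨θ, hθ, ?_, ?_, ⟨?_, ?_, ?_⟩⟩
  · intro x hx
    have h1 := Finset.mem_sdiff.1 (hθB hx)
    exact Finset.mem_sdiff.2 ⟨h1.1, fun h2 =>
      h1.2 (nb_mono_left G (show 3 ≤ 3 * (k + 1) by omega) F h2)⟩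
  · rw [hθs]; exact hleL (k + 1) hkK
  · intro y hy z hz hyz
    by_contra hcons
    exact key y hy z hz (G.ne_of_adj hyz) [] (by simp) (by simp) (by simp) (by simp) (by simp)
      (by simpa using hyz) (fun _ => hcons)
  · intro y hy z hz hyz w hwB hwθ hyw hwz
    refine key y hy z hz hyz [w] (by simp) (by simp) ?_ ?_ ?_ ?_ ?_
    · simpa using hwB
    · simpa using hwθ
    · simpa using hfar w y hy hyw.symm
    · simp [hyw, hwz]
    · simp
  · intro y hy z hz hyz w₁ h₁B w₂ h₂B h₁θ h₂θ h12 hy1 h12' h2z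
    refine key y hy z hz hyz [w₁, w₂] (by simp) (by simpa using h12) ?_ ?_ ?_ ?_ ?_
    · simp [h₁B, h₂B]
    · simp [h₁θ, h₂θ]
    · have a1 := hfar w₁ y hy hy1.symm
      have a2 := hfar w₂ z hz h2z
      simp [a1, a2]
    · simp [hy1, h12', h2z]
    · simp

end H10.IB
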