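import Pool.Agent.H10.IB.Defs

/-!
MODULE Plus (about 110 lines). A closed set without ears can be moved together with its exits.
First part: `v ∈ Z`: two neighbours in `Z`; `v ∈ plus A Z \ Z`: a neighbour in `A` and one in `Z`
(disjoint sets, `nin_union`). Second part: let `w ∈ Aᶜ \ plus A Z` have two different neighbours
`p, p'` in `A ∪ plus A Z`. Not both in `A` (`h1`). If `p ∈ A`: `w` is an exit; `p' ∈ Z` would give
`w ∈ plus A Z`; `p' ∈ plus \ Z` is an exit adjacent to the exit `w` (`h2`). If `p, p' ∈ Z`: ear of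
length two. If both are exits in `plus \ Z`: `h3`. If `p ∈ Z` and `p'` is an exit in `plus \ Z`
with neighbour `z ∈ Z`: if `z ≠ p`, then `z, p', w, p` is an ear of length three; if `z = p`, then
`{p, p', w}` is a triangle, against `Girth` (`X = {p, p', w}`, all `nin` are 2).
-/

set_option autoImplicit false
set_option linter.unusedSectionVars false

namespace H10.IB

open Finset H97.Int

variable {V : Type*} [Fintype V] [DecidableEq V] (G : SimpleGraph V) [DecidableRel G.Adj]

/-- two different neighbours -/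
private lemma two_nbrs {v : V} {S : Finset V} (h : 2 ≤ nin G v S) :
    ∃ p ∈ S, ∃ q ∈ S, p ≠ q ∧ G.Adj v p ∧ G.Adj v q := by
  rw [nin_eq] at h
  have h' : 1 < (G.neighborFinset v ∩ S).card := by exact_mod_cast h
  obtain ⟨p, hp, q, hq, hpq⟩ := Finset.one_lt_card.1 h'
  rw [Finset.mem_inter, SimpleGraph.mem_neighborFinset] at hp hq
  exact ⟨p, hp.2, q, hq.2, hpq, hp.1, hq.1⟩

private lemma two_le_of {v p q : V} {S : Finset V} (hp : p ∈ S) (hq : q ∈ S) (hpq : p ≠ q)
    (h1 : G.Adj v p) (h2 : G.Adj v q) : 2 ≤ nin G v S := by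
  rw [nin_eq]
  have h' : 1 < (G.neighborFinset v ∩ S).card := by
    apply Finset.one_lt_card.2
    refine ⟨p, ?_, q, ?_, hpq⟩
    · rw [Finset.mem_inter, SimpleGraph.mem_neighborFinset]; exact ⟨h1, hp⟩
    · rw [Finset.mem_inter, SimpleGraph.mem_neighborFinset]; exact ⟨h2, hq⟩
  exact_mod_cast h'

theorem plus_sw {A Z : Finset V} {g : ℕ} (hg : Girth G Aᶜ g) (hg10 : 10 ≤ g)
    (h1 : ∀ x ∈ Aᶜ, nin G x A ≤ 1)
    (h2 : ∀ x ∈ Aᶜ, ∀ y ∈ Aᶜ, 1 ≤ nin G x A → 1 ≤ nin G y A → ¬ G.Adj x y)
    (h3 : ∀ x ∈ Aᶜ, ∀ y ∈ Aᶜ, x ≠ y → 1 ≤ nin G x A → 1 ≤ nin G y A →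
      ∀ w ∈ Aᶜ, G.Adj x w → ¬ G.Adj w y)
    (hZ : Z ⊆ Aᶜ) (hcl : ∀ v ∈ Z, 2 ≤ nin G v Z) (hne : NoEars G Aᶜ Z) :
    Sw G A (plus G A Z) := by
  have hsub : plus G A Z ⊆ Aᶜ := by
    intro x hx
    rcases Finset.mem_union.1 hx with hx | hx
    · exact hZ hx
    · exact (Finset.mem_filter.1 hx).1
  have hZp : Z ⊆ plus G A Z := fun x hx => Finset.mem_union_left _ hx
  have hdis : Disjoint A (plus G A Z) :=
    Finset.disjoint_left.2 fun x hx hx' => (Finset.mem_compl.1 (hsub hx')) hx
  have hex : ∀ x ∈ plus G A Z, x ∉ Z → 1 ≤ nin G x A ∧ 1 ≤ nin G x Z := by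
    intro x hx hxZ
    have := (Finset.mem_union.1 hx).resolve_left hxZ
    exact (Finset.mem_filter.1 this).2
  refine ⟨hsub, ?_, ?_⟩
  · intro v hv
    by_cases hvZ : v ∈ Z
    · exact (hcl v hvZ).trans (nin_mono G (fun x hx => Finset.mem_union_right _ (hZp hx)) v)
    · obtain ⟨ha, hz⟩ := hex v hv hvZ
      rw [nin_union G hdis]
      have := nin_mono G hZp v
      linarith
  · intro w hw hwp
    by_contra hcon
    have hcon2 : 2 ≤ nin G w (A ∪ plus G A Z) := by omega
    have hwZ : w ∉ Z := fun h => hwp (hZp h)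
    obtain ⟨p, hp, q, hq, hpq, hwp1, hwq1⟩ := two_nbrs G hcon2
    have hA2 : ∀ p q : V, p ∈ A → q ∈ A → p ≠ q → G.Adj w p → G.Adj w q → False := by
      intro p q hp hq hpq h h'
      have := two_le_of G hp hq hpq h h'
      have := h1 w hw
      omega
    have hAp : ∀ p q : V, p ∈ A → q ∈ plus G A Z → G.Adj w p → G.Adj w q → False := by
      intro p q hp hq h h'
      have hwA : 1 ≤ nin G w A := one_le_nin G hp h
      by_cases hqZ : q ∈ Z
      · apply hwp
        exact Finset.mem_union_right _ (Finset.mem_filter.2 ⟨hw, hwA, one_le_nin G hqZ h'⟩)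
      · exact h2 w hw q (hsub hq) hwA (hex q hq hqZ).1 h'
    have hmix : ∀ p q : V, p ∈ Z → q ∈ plus G A Z → q ∉ Z → G.Adj w p → G.Adj w q → False := by
      intro p q hp hq hqZ h h'
      have hqz : 0 < nin G q Z := by
        have := (hex q hq hqZ).2
        omega
      obtain ⟨z, hz, hqz'⟩ := exists_adj G hqz
      by_cases hzp : z = p
      · subst hzp
        have hne1 : z ≠ q := fun e => hqZ (e ▸ hz)
        have hne2 : z ≠ w := fun e => hwZ (e ▸ hz)
        have hne3 : q ≠ w := fun e => hwp (e ▸ hq)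
        obtain ⟨x, hx, hx2⟩ := hg {z, q, w} (by
          intro x hx
          simp only [Finset.mem_insert, Finset.mem_singleton] at hx
          rcases hx with rfl | rfl | rfl
          · exact hZ hz
          · exact hsub hq
          · exact hw) ⟨z, by simp⟩ (by
            have : ({z, q, w} : Finset V).card ≤ 3 := Finset.card_le_three
            omega)
        simp only [Finset.mem_insert, Finset.mem_singleton] at hx
        rcases hx with rfl | rfl | rfl
        · have := two_le_of G (v := x) (p := q) (q := w) (S := {x, q, w}) (by simp) (by simp) hne3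
            hqz'.symm h.symm
          omega
        · have := two_le_of G (v := x) (p := z) (q := w) (S := {z, x, w}) (by simp) (by simp) hne2
            hqz' h'.symm
          omega
        · have := two_le_of G (v := x) (p := z) (q := q) (S := {z, q, x}) (by simp) (by simp) hne1
            h h'
          omega
      · exact hne.2 z hz p hp hzp q (hsub hq) w hw hqZ hwZ (fun e => hwp (e ▸ hq)) hqz'.symm
          h'.symm h
    rcases Finset.mem_union.1 hp with hpA | hpP <;> rcases Finset.mem_union.1 hq with hqA | hqP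
    · exact hA2 p q hpA hqA hpq hwp1 hwq1
    · exact hAp p q hpA hqP hwp1 hwq1
    · exact hAp q p hqA hpP hwq1 hwp1
    · by_cases hpZ : p ∈ Z <;> by_cases hqZ : q ∈ Z
      · exact hne.1 p hpZ q hqZ hpq w hw hwZ hwp1.symm hwq1
      · exact hmix p q hpZ hqP hqZ hwp1 hwq1
      · exact hmix q p hqZ hpP hpZ hwq1 hwp1
      · exact h3 p (hsub hpP) q (hsub hqP) hpq (hex p hpP hpZ).1 (hex q hqP hqZ).1 w hw
          hwp1.symm hwq1

end H10.IB
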