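import Pool.Agent.H10.IB.ThBasic

/-!
MODULE SizeI (about 150 lines). Let `T = θ.vs`, `C_i = T \ l_i`.
`mem_two`: every vertex `v` of `plus A T` lies in `plus A C_i` for at least two `i` (if `v ∈ T`:
`v` is in at most one `l_i` (nodup); if `v ∉ T` it is an exit with a neighbour `z ∈ T`, and `z` is
in at least two `C_i`). Conversely `plus A C_i ⊆ plus A T`.
`mem_three`: if `v` lies in all three then `v ∈ nbr G {a, b}`: if `v ∈ l_i`, then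
`v ∈ plus A C_i \ C_i`, so `v` is adjacent to some `z ∈ C_i`, `Cons v z` by `e1`, so
`z ∈ {a,b}` (a vertex of `l_i` is only on side `i`); if `v ∉ T`, its neighbours in `C_1, C_2, C_3`
are in `T`, so they are equal by `e2`, this vertex is in no `l_i`, so it is `a` or `b`.
`card_nbr_le`: `|nbr G {a,b}| <= (d+1) * 2 <= 10`. `a` lies in all three.
Sum over `v ∈ plus A T` of the number of `i` with `v ∈ plus A C_i`.
-/

set_option autoImplicit false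
set_option linter.unusedSectionVars false

namespace H10.IB

open Finset H97.Int

variable {V : Type*} [Fintype V] [DecidableEq V] (G : SimpleGraph V) [DecidableRel G.Adj]

lemma sz_mem_plus {A C : Finset V} {v : V} :
    v ∈ plus G A C ↔ v ∈ C ∨ (v ∉ A ∧ 1 ≤ nin G v A ∧ ∃ z ∈ C, G.Adj v z) := by
  unfold plus
  rw [Finset.mem_union, Finset.mem_filter, Finset.mem_compl]
  constructor
  · rintro (h | ⟨h1, h2, h3⟩)
    · exact Or.inl h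
    · exact Or.inr ⟨h1, h2, exists_adj G (by omega)⟩
  · rintro (h | ⟨h1, h2, z, hz, hz'⟩)
    · exact Or.inl h
    · exact Or.inr ⟨h1, h2, one_le_nin G hz hz'⟩

lemma sz_plus_mono {A C C' : Finset V} (h : C ⊆ C') : plus G A C ⊆ plus G A C' := by
  intro v hv
  rw [sz_mem_plus] at hv ⊢
  rcases hv with hv | ⟨h1, h2, z, hz, hz'⟩
  · exact Or.inl (h hv)
  · exact Or.inr ⟨h1, h2, z, h hz, hz'⟩

lemma sz_disj {θ : Th V} (hθ : IsTheta G θ) :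
    (∀ v ∈ θ.l₁, v ∉ θ.l₂ ∧ v ∉ θ.l₃ ∧ v ≠ θ.a ∧ v ≠ θ.b) ∧
    (∀ v ∈ θ.l₂, v ∉ θ.l₁ ∧ v ∉ θ.l₃ ∧ v ≠ θ.a ∧ v ≠ θ.b) ∧
    (∀ v ∈ θ.l₃, v ∉ θ.l₁ ∧ v ∉ θ.l₂ ∧ v ≠ θ.a ∧ v ≠ θ.b) := by
  have h := hθ.nodup
  simp only [List.nodup_cons, List.nodup_append, List.mem_cons, List.mem_append, not_or] at h
  obtain ⟨⟨hab, ⟨ha1, ha2⟩, ha3⟩, ⟨⟨hb1, hb2⟩, hb3⟩, ⟨⟨-, -, h12⟩, -, h123⟩⟩ := h
  refine ⟨fun v hv => ⟨fun h2 => h12 v hv v h2 rfl, fun h3 => h123 v (Or.inl hv) v h3 rfl,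
      fun e => ha1 (e ▸ hv), fun e => hb1 (e ▸ hv)⟩,
    fun v hv => ⟨fun h2 => h12 v h2 v hv rfl, fun h3 => h123 v (Or.inr hv) v h3 rfl,
      fun e => ha2 (e ▸ hv), fun e => hb2 (e ▸ hv)⟩,
    fun v hv => ⟨fun h2 => h123 v (Or.inl h2) v hv rfl, fun h2 => h123 v (Or.inr h2) v hv rfl,
      fun e => ha3 (e ▸ hv), fun e => hb3 (e ▸ hv)⟩⟩

lemma sz_a_notin {θ : Th V} (hθ : IsTheta G θ) : θ.a ∉ θ.l₁ ∧ θ.a ∉ θ.l₂ ∧ θ.a ∉ θ.l₃ := by
  obtain ⟨h1, h2, h3⟩ := sz_disj G hθ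
  exact ⟨fun h => (h1 _ h).2.2.1 rfl, fun h => (h2 _ h).2.2.1 rfl, fun h => (h3 _ h).2.2.1 rfl⟩

lemma sz_infix_mem {y z : V} {s : List V} (h : [y, z] <:+: s) : y ∈ s ∧ z ∈ s :=
  ⟨h.subset (by simp), h.subset (by simp)⟩

lemma sz_mem_s {a b v : V} {l : List V} :
    v ∈ a :: (l ++ [b]) ↔ v = a ∨ v ∈ l ∨ v = b := by
  simp [List.mem_cons, List.mem_append]

lemma sz_cons {θ : Th V} {y z : V} (h : θ.Cons y z) :
    (y ∈ θ.s₁ ∧ z ∈ θ.s₁) ∨ (y ∈ θ.s₂ ∧ z ∈ θ.s₂) ∨ (y ∈ θ.s₃ ∧ z ∈ θ.s₃) := by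
  rcases h with h | h | h | h | h | h
  · exact Or.inl (sz_infix_mem h)
  · exact Or.inl (sz_infix_mem h).symm
  · exact Or.inr (Or.inl (sz_infix_mem h))
  · exact Or.inr (Or.inl (sz_infix_mem h).symm)
  · exact Or.inr (Or.inr (sz_infix_mem h))
  · exact Or.inr (Or.inr (sz_infix_mem h).symm)

/-- a vertex of `l₁` is only consecutive to vertices of the first side -/
lemma sz_cons1 {θ : Th V} (hθ : IsTheta G θ) {v z : V} (hv : v ∈ θ.l₁) (h : θ.Cons v z) :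
    z = θ.a ∨ z ∈ θ.l₁ ∨ z = θ.b := by
  obtain ⟨n2, n3, na, nb⟩ := (sz_disj G hθ).1 v hv
  rcases sz_cons h with ⟨_, hz⟩ | ⟨hv', _⟩ | ⟨hv', _⟩
  · exact sz_mem_s.1 hz
  · rcases sz_mem_s.1 hv' with e | e | e
    · exact absurd e na
    · exact absurd e n2
    · exact absurd e nb
  · rcases sz_mem_s.1 hv' with e | e | e
    · exact absurd e na
    · exact absurd e n3
    · exact absurd e nb

lemma sz_cons2 {θ : Th V} (hθ : IsTheta G θ) {v z : V} (hv : v ∈ θ.l₂) (h : θ.Cons v z) :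
    z = θ.a ∨ z ∈ θ.l₂ ∨ z = θ.b := by
  obtain ⟨n2, n3, na, nb⟩ := (sz_disj G hθ).2.1 v hv
  rcases sz_cons h with ⟨hv', _⟩ | ⟨_, hz⟩ | ⟨hv', _⟩
  · rcases sz_mem_s.1 hv' with e | e | e
    · exact absurd e na
    · exact absurd e n2
    · exact absurd e nb
  · exact sz_mem_s.1 hz
  · rcases sz_mem_s.1 hv' with e | e | e
    · exact absurd e na
    · exact absurd e n3
    · exact absurd e nb

lemma sz_cons3 {θ : Th V} (hθ : IsTheta G θ) {v z : V} (hv : v ∈ θ.l₃) (h : θ.Cons v z) :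
    z = θ.a ∨ z ∈ θ.l₃ ∨ z = θ.b := by
  obtain ⟨n2, n3, na, nb⟩ := (sz_disj G hθ).2.2 v hv
  rcases sz_cons h with ⟨hv', _⟩ | ⟨hv', _⟩ | ⟨_, hz⟩
  · rcases sz_mem_s.1 hv' with e | e | e
    · exact absurd e na
    · exact absurd e n2
    · exact absurd e nb
  · rcases sz_mem_s.1 hv' with e | e | e
    · exact absurd e na
    · exact absurd e n3
    · exact absurd e nb
  · exact sz_mem_s.1 hz

lemma sz_mem_C {θ : Th V} {l : List V} {v : V} :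
    v ∈ θ.vs \ l.toFinset ↔ v ∈ θ.vs ∧ v ∉ l := by
  simp [Finset.mem_sdiff]

lemma sz_a_mem_plus {A : Finset V} {θ : Th V} {l : List V} (h : θ.a ∉ l) :
    θ.a ∈ plus G A (θ.vs \ l.toFinset) := by
  rw [sz_mem_plus, sz_mem_C]
  exact Or.inl ⟨Th.mem_vs.2 (Or.inl rfl), h⟩

lemma sz_card {P Q : Finset V} (h : Q ⊆ P) : Q.card = ∑ v ∈ P, if v ∈ Q then 1 else 0 := by
  rw [← Finset.card_filter, Finset.filter_mem_eq_inter, Finset.inter_eq_right.2 h]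

theorem size_three {A : Finset V} {θ : Th V} {d : ℕ} (hd : ∀ v, G.degree v ≤ d) (hd4 : d ≤ 4)
    (hθ : IsTheta G θ) (hA : θ.vs ⊆ Aᶜ) (h : EarFree G Aᶜ θ) :
    2 * (plus G A θ.vs).card + 1 ≤ (plus G A (θ.vs \ θ.l₁.toFinset)).card +
        (plus G A (θ.vs \ θ.l₂.toFinset)).card + (plus G A (θ.vs \ θ.l₃.toFinset)).card ∧
      (plus G A (θ.vs \ θ.l₁.toFinset)).card + (plus G A (θ.vs \ θ.l₂.toFinset)).card +
        (plus G A (θ.vs \ θ.l₃.toFinset)).card ≤ 2 * (plus G A θ.vs).card + 20 := by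
  obtain ⟨d1, d2, d3⟩ := sz_disj G hθ
  obtain ⟨a1, a2, a3⟩ := sz_a_notin G hθ
  set P := plus G A θ.vs with hP
  set P1 := plus G A (θ.vs \ θ.l₁.toFinset) with hP1
  set P2 := plus G A (θ.vs \ θ.l₂.toFinset) with hP2
  set P3 := plus G A (θ.vs \ θ.l₃.toFinset) with hP3
  have s1 : P1 ⊆ P := sz_plus_mono G Finset.sdiff_subset
  have s2 : P2 ⊆ P := sz_plus_mono G Finset.sdiff_subset
  have s3 : P3 ⊆ P := sz_plus_mono G Finset.sdiff_subset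
  have two : ∀ v ∈ P, (v ∈ P1 ∧ v ∈ P2) ∨ (v ∈ P1 ∧ v ∈ P3) ∨ (v ∈ P2 ∧ v ∈ P3) := by
    intro v hv
    -- every vertex of the theta avoids two of the lists
    have key : ∀ z : V, (z ∉ θ.l₁ ∧ z ∉ θ.l₂) ∨ (z ∉ θ.l₁ ∧ z ∉ θ.l₃) ∨ (z ∉ θ.l₂ ∧ z ∉ θ.l₃) := by
      intro z
      by_cases z1 : z ∈ θ.l₁
      · exact Or.inr (Or.inr ⟨(d1 z z1).1, (d1 z z1).2.1⟩)
      · by_cases z2 : z ∈ θ.l₂
        · exact Or.inr (Or.inl ⟨z1, (d2 z z2).2.1⟩)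
        · exact Or.inl ⟨z1, z2⟩
    rw [hP, sz_mem_plus] at hv
    rcases hv with hv | ⟨v1, v2, z, hz, hvz⟩
    · rcases key v with ⟨k1, k2⟩ | ⟨k1, k2⟩ | ⟨k1, k2⟩
      · exact Or.inl ⟨(sz_mem_plus G).2 (Or.inl (sz_mem_C.2 ⟨hv, k1⟩)),
          (sz_mem_plus G).2 (Or.inl (sz_mem_C.2 ⟨hv, k2⟩))⟩
      · exact Or.inr (Or.inl ⟨(sz_mem_plus G).2 (Or.inl (sz_mem_C.2 ⟨hv, k1⟩)),
          (sz_mem_plus G).2 (Or.inl (sz_mem_C.2 ⟨hv, k2⟩))⟩)
      · exact Or.inr (Or.inr ⟨(sz_mem_plus G).2 (Or.inl (sz_mem_C.2 ⟨hv, k1⟩)),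
          (sz_mem_plus G).2 (Or.inl (sz_mem_C.2 ⟨hv, k2⟩))⟩)
    · rcases key z with ⟨k1, k2⟩ | ⟨k1, k2⟩ | ⟨k1, k2⟩
      · exact Or.inl ⟨(sz_mem_plus G).2 (Or.inr ⟨v1, v2, z, sz_mem_C.2 ⟨hz, k1⟩, hvz⟩),
          (sz_mem_plus G).2 (Or.inr ⟨v1, v2, z, sz_mem_C.2 ⟨hz, k2⟩, hvz⟩)⟩
      · exact Or.inr (Or.inl ⟨(sz_mem_plus G).2 (Or.inr ⟨v1, v2, z, sz_mem_C.2 ⟨hz, k1⟩, hvz⟩),
          (sz_mem_plus G).2 (Or.inr ⟨v1, v2, z, sz_mem_C.2 ⟨hz, k2⟩, hvz⟩)⟩)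
      · exact Or.inr (Or.inr ⟨(sz_mem_plus G).2 (Or.inr ⟨v1, v2, z, sz_mem_C.2 ⟨hz, k1⟩, hvz⟩),
          (sz_mem_plus G).2 (Or.inr ⟨v1, v2, z, sz_mem_C.2 ⟨hz, k2⟩, hvz⟩)⟩)
  have three : P1 ∩ P2 ∩ P3 ⊆ nbr G {θ.a, θ.b} := by
    intro v hv
    simp only [Finset.mem_inter] at hv
    obtain ⟨⟨v1, v2⟩, v3⟩ := hv
    rw [mem_nbr]
    have fin : ∀ z, G.Adj v z → z = θ.a ∨ z = θ.b →
        v ∈ ({θ.a, θ.b} : Finset V) ∨ ∃ u ∈ ({θ.a, θ.b} : Finset V), G.Adj u v := by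
      intro z hz hz'
      refine Or.inr ⟨z, ?_, hz.symm⟩
      simpa using hz'
    by_cases hvT : v ∈ θ.vs
    · rcases Th.mem_vs.1 hvT with e | e | e | e | e
      · left; simp [e]
      · left; simp [e]
      · rw [hP1, sz_mem_plus] at v1
        rcases v1 with v1 | ⟨-, -, z, hz, hvz⟩
        · exact absurd e (sz_mem_C.1 v1).2
        · obtain ⟨zT, zl⟩ := sz_mem_C.1 hz
          rcases sz_cons1 G hθ e (h.e1 v hvT z zT hvz) with e' | e' | e'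
          · exact fin z hvz (Or.inl e')
          · exact absurd e' zl
          · exact fin z hvz (Or.inr e')
      · rw [hP2, sz_mem_plus] at v2
        rcases v2 with v2 | ⟨-, -, z, hz, hvz⟩
        · exact absurd e (sz_mem_C.1 v2).2
        · obtain ⟨zT, zl⟩ := sz_mem_C.1 hz
          rcases sz_cons2 G hθ e (h.e1 v hvT z zT hvz) with e' | e' | e'
          · exact fin z hvz (Or.inl e')
          · exact absurd e' zl
          · exact fin z hvz (Or.inr e')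
      · rw [hP3, sz_mem_plus] at v3
        rcases v3 with v3 | ⟨-, -, z, hz, hvz⟩
        · exact absurd e (sz_mem_C.1 v3).2
        · obtain ⟨zT, zl⟩ := sz_mem_C.1 hz
          rcases sz_cons3 G hθ e (h.e1 v hvT z zT hvz) with e' | e' | e'
          · exact fin z hvz (Or.inl e')
          · exact absurd e' zl
          · exact fin z hvz (Or.inr e')
    · rw [hP1, sz_mem_plus] at v1
      rw [hP2, sz_mem_plus] at v2
      rw [hP3, sz_mem_plus] at v3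
      rcases v1 with v1 | ⟨vA, -, z1, hz1, hvz1⟩
      · exact absurd (sz_mem_C.1 v1).1 hvT
      rcases v2 with v2 | ⟨-, -, z2, hz2, hvz2⟩
      · exact absurd (sz_mem_C.1 v2).1 hvT
      rcases v3 with v3 | ⟨-, -, z3, hz3, hvz3⟩
      · exact absurd (sz_mem_C.1 v3).1 hvT
      obtain ⟨t1, l1⟩ := sz_mem_C.1 hz1
      obtain ⟨t2, l2⟩ := sz_mem_C.1 hz2
      obtain ⟨t3, l3⟩ := sz_mem_C.1 hz3
      have vB : v ∈ Aᶜ := Finset.mem_compl.2 vA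
      have e12 : z1 = z2 := by
        by_contra hne
        exact h.e2 z1 t1 z2 t2 hne v vB hvT hvz1.symm hvz2
      have e13 : z1 = z3 := by
        by_contra hne
        exact h.e2 z1 t1 z3 t3 hne v vB hvT hvz1.symm hvz3
      rw [← e12] at l2
      rw [← e13] at l3
      refine fin z1 hvz1 ?_
      rcases Th.mem_vs.1 t1 with e | e | e | e | e
      · exact Or.inl e
      · exact Or.inr e
      · exact absurd e l1
      · exact absurd e l2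
      · exact absurd e l3
  have hcard : P1.card + P2.card + P3.card = 2 * P.card + (P1 ∩ P2 ∩ P3).card := by
    have s4 : P1 ∩ P2 ∩ P3 ⊆ P := fun x hx => s3 (Finset.mem_of_mem_inter_right hx)
    rw [sz_card s1, sz_card s2, sz_card s3, sz_card s4, Finset.card_eq_sum_ones P,
      Finset.mul_sum, ← Finset.sum_add_distrib, ← Finset.sum_add_distrib,
      ← Finset.sum_add_distrib]
    refine Finset.sum_congr rfl fun v hv => ?_
    simp only [Finset.mem_inter]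
    rcases two v hv with ⟨u1, u2⟩ | ⟨u1, u2⟩ | ⟨u1, u2⟩
    · by_cases u3 : v ∈ P3 <;> simp [u1, u2, u3]
    · by_cases u3 : v ∈ P2 <;> simp [u1, u2, u3]
    · by_cases u3 : v ∈ P1 <;> simp [u1, u2, u3]
  have hlow : 1 ≤ (P1 ∩ P2 ∩ P3).card := by
    refine Finset.card_pos.2 ⟨θ.a, ?_⟩
    simp only [Finset.mem_inter]
    exact ⟨⟨sz_a_mem_plus G a1, sz_a_mem_plus G a2⟩, sz_a_mem_plus G a3⟩
  have hup : (P1 ∩ P2 ∩ P3).card ≤ 20 := by
    calc (P1 ∩ P2 ∩ P3).card ≤ (nbr G {θ.a, θ.b}).card := Finset.card_le_card three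
      _ ≤ (d + 1) * ({θ.a, θ.b} : Finset V).card := card_nbr_le G hd _
      _ ≤ 5 * 2 := Nat.mul_le_mul (by omega) Finset.card_le_two
      _ ≤ 20 := by norm_num
  omega

end H10.IB
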