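import Pool.Agent.H10.IB.ThBasic
import Pool.Agent.H10.IB.SizeI

/-!
MODULE SizeII (about 120 lines). Let `T = θ.vs`, `C_i = T \ l_i`, `S₁ = {a,b} ∪ l₁`, `|S₁| <= 4`.
Every vertex of `plus A T` lies in `plus A C₂` or in `plus A C₃` (as in `SizeI`), and
`plus A C_i ⊆ plus A T`. If `v` lies in both then `v ∈ nbr G S₁`: if `v ∈ l₂` then
`v ∈ plus A C₂ \ C₂` is adjacent to some `z ∈ C₂`, `Cons v z`, so `z ∈ {a,b}`; the same for `l₃`;
if `v ∈ T` is in neither `l₂` nor `l₃` then `v ∈ S₁`; if `v ∉ T` then its neighbours in `C₂` and in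
`C₃` are equal (`e2`), and this vertex is in `S₁`. `|nbr G S₁| <= 5 * 4 = 20`. `a` lies in both.
`|plus C₂| + |plus C₃| = |plus T| + |plus C₂ ∩ plus C₃|`.
-/

set_option autoImplicit false
set_option linter.unusedSectionVars false

namespace H10.IB

open Finset H97.Int

variable {V : Type*} [Fintype V] [DecidableEq V] (G : SimpleGraph V) [DecidableRel G.Adj]

theorem size_two {A : Finset V} {θ : Th V} {d : ℕ} (hd : ∀ v, G.degree v ≤ d) (hd4 : d ≤ 4)
    (hθ : IsTheta G θ) (hA : θ.vs ⊆ Aᶜ) (h : EarFree G Aᶜ θ) (hl : θ.l₁.length ≤ 2) :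
    (plus G A θ.vs).card + 1 ≤ (plus G A (θ.vs \ θ.l₂.toFinset)).card +
        (plus G A (θ.vs \ θ.l₃.toFinset)).card ∧
      (plus G A (θ.vs \ θ.l₂.toFinset)).card + (plus G A (θ.vs \ θ.l₃.toFinset)).card ≤
        (plus G A θ.vs).card + 20 := by
  obtain ⟨d1, d2, d3⟩ := sz_disj G hθ
  obtain ⟨a1, a2, a3⟩ := sz_a_notin G hθ
  set P := plus G A θ.vs with hP
  set P2 := plus G A (θ.vs \ θ.l₂.toFinset) with hP2
  set P3 := plus G A (θ.vs \ θ.l₃.toFinset) with hP3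
  set S₁ : Finset V := insert θ.a (insert θ.b θ.l₁.toFinset) with hS₁
  have s2 : P2 ⊆ P := sz_plus_mono G Finset.sdiff_subset
  have s3 : P3 ⊆ P := sz_plus_mono G Finset.sdiff_subset
  have hPU : P = P2 ∪ P3 := by
    refine Finset.Subset.antisymm ?_ (Finset.union_subset s2 s3)
    intro v hv
    have key : ∀ z : V, z ∉ θ.l₂ ∨ z ∉ θ.l₃ := by
      intro z
      by_cases z2 : z ∈ θ.l₂
      · exact Or.inr (d2 z z2).2.1
      · exact Or.inl z2
    rw [Finset.mem_union]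
    rw [hP, sz_mem_plus] at hv
    rcases hv with hv | ⟨v1, v2, z, hz, hvz⟩
    · rcases key v with k | k
      · exact Or.inl ((sz_mem_plus G).2 (Or.inl (sz_mem_C.2 ⟨hv, k⟩)))
      · exact Or.inr ((sz_mem_plus G).2 (Or.inl (sz_mem_C.2 ⟨hv, k⟩)))
    · rcases key z with k | k
      · exact Or.inl ((sz_mem_plus G).2 (Or.inr ⟨v1, v2, z, sz_mem_C.2 ⟨hz, k⟩, hvz⟩))
      · exact Or.inr ((sz_mem_plus G).2 (Or.inr ⟨v1, v2, z, sz_mem_C.2 ⟨hz, k⟩, hvz⟩))
  have hcard : P2.card + P3.card = P.card + (P2 ∩ P3).card := by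
    rw [hPU, Finset.card_union_add_card_inter]
  have memS : ∀ v : V, v ∈ S₁ ↔ v = θ.a ∨ v = θ.b ∨ v ∈ θ.l₁ := by
    intro v; simp [hS₁]
  have both : P2 ∩ P3 ⊆ nbr G S₁ := by
    intro v hv
    simp only [Finset.mem_inter] at hv
    obtain ⟨v2, v3⟩ := hv
    rw [mem_nbr]
    by_cases hvT : v ∈ θ.vs
    · rcases Th.mem_vs.1 hvT with e | e | e | e | e
      · exact Or.inl ((memS v).2 (Or.inl e))
      · exact Or.inl ((memS v).2 (Or.inr (Or.inl e)))
      · exact Or.inl ((memS v).2 (Or.inr (Or.inr e)))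
      · rw [hP2, sz_mem_plus] at v2
        rcases v2 with v2 | ⟨-, -, z, hz, hvz⟩
        · exact absurd e (sz_mem_C.1 v2).2
        · obtain ⟨zT, zl⟩ := sz_mem_C.1 hz
          rcases sz_cons2 G hθ e (h.e1 v hvT z zT hvz) with e' | e' | e'
          · exact Or.inr ⟨z, (memS z).2 (Or.inl e'), hvz.symm⟩
          · exact absurd e' zl
          · exact Or.inr ⟨z, (memS z).2 (Or.inr (Or.inl e')), hvz.symm⟩
      · rw [hP3, sz_mem_plus] at v3
        rcases v3 with v3 | ⟨-, -, z, hz, hvz⟩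
        · exact absurd e (sz_mem_C.1 v3).2
        · obtain ⟨zT, zl⟩ := sz_mem_C.1 hz
          rcases sz_cons3 G hθ e (h.e1 v hvT z zT hvz) with e' | e' | e'
          · exact Or.inr ⟨z, (memS z).2 (Or.inl e'), hvz.symm⟩
          · exact absurd e' zl
          · exact Or.inr ⟨z, (memS z).2 (Or.inr (Or.inl e')), hvz.symm⟩
    · rw [hP2, sz_mem_plus] at v2
      rw [hP3, sz_mem_plus] at v3
      rcases v2 with v2 | ⟨vA, -, z2, hz2, hvz2⟩
      · exact absurd (sz_mem_C.1 v2).1 hvT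
      rcases v3 with v3 | ⟨-, -, z3, hz3, hvz3⟩
      · exact absurd (sz_mem_C.1 v3).1 hvT
      obtain ⟨t2, l2⟩ := sz_mem_C.1 hz2
      obtain ⟨t3, l3⟩ := sz_mem_C.1 hz3
      have vB : v ∈ Aᶜ := Finset.mem_compl.2 vA
      have e23 : z2 = z3 := by
        by_contra hne
        exact h.e2 z2 t2 z3 t3 hne v vB hvT hvz2.symm hvz3
      rw [← e23] at l3
      refine Or.inr ⟨z2, ?_, hvz2.symm⟩
      rw [memS]
      rcases Th.mem_vs.1 t2 with e | e | e | e | e
      · exact Or.inl e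
      · exact Or.inr (Or.inl e)
      · exact Or.inr (Or.inr e)
      · exact absurd e l2
      · exact absurd e l3
  have hlow : 1 ≤ (P2 ∩ P3).card := by
    refine Finset.card_pos.2 ⟨θ.a, ?_⟩
    simp only [Finset.mem_inter]
    exact ⟨sz_a_mem_plus G a2, sz_a_mem_plus G a3⟩
  have hS : S₁.card ≤ 4 := by
    calc S₁.card ≤ (insert θ.b θ.l₁.toFinset).card + 1 := Finset.card_insert_le _ _
      _ ≤ (θ.l₁.toFinset.card + 1) + 1 := by gcongr; exact Finset.card_insert_le _ _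
      _ ≤ (θ.l₁.length + 1) + 1 := by gcongr; exact List.toFinset_card_le _
      _ ≤ 4 := by omega
  have hup : (P2 ∩ P3).card ≤ 20 := by
    calc (P2 ∩ P3).card ≤ (nbr G S₁).card := Finset.card_le_card both
      _ ≤ (d + 1) * S₁.card := card_nbr_le G hd _
      _ ≤ 5 * 4 := Nat.mul_le_mul (by omega) hS
      _ = 20 := by norm_num
  omega

end H10.IB
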