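import Pool.Agent.H10.IB.ExTheta
import Pool.Agent.H10.IB.NearMin
import Pool.Agent.H10.IB.Ears
import Pool.Agent.H10.IB.Closed
import Pool.Agent.H10.IB.Plus
import Pool.Agent.H10.IB.SizeI
import Pool.Agent.H10.IB.SizeII
import Pool.Agent.H10.IB.DenseB

/-!
MODULE RegionE (about 150 lines). Regions exist outside every small set `F`.
For `t <= 3 K`: `|nb G t F| <= 5 ^ t |F| <= 5 ^ (3K) |F|` (`card_nb_le`), so by `Opt.dense_compl`
and `exists_theta` (girth of `Aᶜ \ nb G t F` by monotonicity, `11^h * |S| < 13^h` from `|S| <= n`)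
there is a theta in `Aᶜ \ nb G t F` of size at most `4 h + 2`. `exists_earfree` gives an ear free
`θ` in `Aᶜ \ nb G 3 F`. Let `T = θ.vs`, `C_i = T \ l_i`. All sets `Z` used are `plus G A T` or
`plus G A C_i`; `Z ⊆ nbr G T`, so `|Z| <= 5 |T| <= 5 (4 h + 2)`, `nbr G Z ⊆ nb G 2 T`, disjoint from
`F` since `T` is disjoint from `nb G 2 F` (`mem_nb_singleton_symm`, `mem_nb_iff`).
`Sw`: `plus_sw` with `earFree_vs`, `two_le`, and for `C_i` with `3 <= |l_i|` by `noEars₁`,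
`two_le₁` (after `rot`, `swp`: `EarFree.rot` etc.).
If all `|l_i| >= 3`: `U = plus T`, `X_i = plus C_i`, `size_three`.
Otherwise permute so that `|l₁| <= 2`; the cycles through side 1 and side 2 (resp. 3) are longer
than `g >= 10`, so `|l₂|, |l₃| >= 3` (`Cyc.len_gt` for `a :: (l₁ ++ b :: l₂.reverse)`);
`U = plus T`, `X₁ = plus T`, `X₂ = plus C₂`, `X₃ = plus C₃`, `size_two`. `a ∈ U`, so `1 <= |U|`.
-/

set_option autoImplicit false
set_option linter.unusedSectionVars false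

namespace H10.IB

open Finset H97.Int

variable {V : Type*} [Fintype V] [DecidableEq V] (G : SimpleGraph V) [DecidableRel G.Adj]

private lemma region_girth_mono {B B' : Finset V} {g : ℕ} (h : Girth G B g) (hB : B' ⊆ B) :
    Girth G B' g := fun X hX hne hc => h X (hX.trans hB) hne hc

private lemma region_cyc {θ : Th V} (hθ : IsTheta G θ) :
    Cyc G.Adj (θ.a :: (θ.l₁ ++ θ.b :: θ.l₂.reverse)) := by
  have hnd := hθ.nodup
  refine ⟨?_, ?_, ?_, ?_⟩
  · rcases hθ.ne₁₂ with h | h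
    · have := List.length_pos_iff.mpr h
      simp; omega
    · have := List.length_pos_iff.mpr h
      simp; omega
  · have h1 : (θ.a :: (θ.l₁ ++ θ.b :: θ.l₂.reverse)).Perm (θ.a :: θ.b :: (θ.l₁ ++ θ.l₂)) := by
      refine List.Perm.cons _ ?_
      refine List.perm_middle.trans ?_
      exact List.Perm.cons _ (List.Perm.append_left _ (List.reverse_perm _))
    rw [h1.nodup_iff]
    refine hnd.sublist ?_
    refine List.Sublist.cons_cons _ (List.Sublist.cons_cons _ ?_)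
    exact List.sublist_append_left _ _
  · rw [← List.cons_append, List.isChain_split]
    refine ⟨?_, ?_⟩
    · have := hθ.chain₁
      unfold Th.s₁ at this
      simpa using this
    · have h2 := hθ.chain₂
      unfold Th.s₂ at h2
      have h3 : (θ.a :: (θ.l₂ ++ [θ.b])).reverse.IsChain G.Adj := by
        rw [List.isChain_reverse]
        exact h2.imp fun _ _ h => h.symm
      have h4 : (θ.a :: (θ.l₂ ++ [θ.b])).reverse = (θ.b :: θ.l₂.reverse) ++ [θ.a] := by simp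
      rw [h4] at h3
      exact h3.left_of_append
  · intro x y hx hy
    have hx' : x = θ.a := by simpa using hx.symm
    subst hx'
    have h2 := hθ.chain₂
    unfold Th.s₂ at h2
    have h3 : (θ.a :: (θ.l₂ ++ [θ.b])).reverse.IsChain G.Adj := by
      rw [List.isChain_reverse]
      exact h2.imp fun _ _ h => h.symm
    have h4 : (θ.a :: (θ.l₂ ++ [θ.b])).reverse = (θ.b :: θ.l₂.reverse) ++ [θ.a] := by simp
    rw [h4, List.isChain_append] at h3
    have h5 : y ∈ (θ.b :: θ.l₂.reverse).getLast? := by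
      have h6 : (θ.a :: (θ.l₁ ++ θ.b :: θ.l₂.reverse)) =
          (θ.a :: θ.l₁) ++ (θ.b :: θ.l₂.reverse) := by simp
      rw [h6, List.getLast?_append_of_ne_nil _ (by simp)] at hy
      exact hy
    exact h3.2.2 y h5 θ.a (by simp)

private lemma region_plus_sub {A Z T : Finset V} (hZ : Z ⊆ T) : plus G A Z ⊆ nbr G T := by
  intro x hx
  unfold plus at hx
  rw [Finset.mem_union, Finset.mem_filter] at hx
  rcases hx with hx | ⟨_, _, hx⟩
  · exact subset_nbr G T (hZ hx)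
  · obtain ⟨z, hz, hadj⟩ := exists_adj G (u := x) (Z := Z) (by omega)
    exact (mem_nbr G).2 (Or.inr ⟨z, hZ hz, hadj.symm⟩)

private lemma region_disj {T F : Finset V} (h : Disjoint T (nb G 3 F)) {Z : Finset V}
    (hZ : Z ⊆ nbr G T) : Disjoint (nbr G Z) F := by
  rw [Finset.disjoint_left]
  intro y hy hyF
  have h1 : y ∈ nb G 2 T := by
    have := nbr_mono G hZ hy
    simpa [nb] using this
  obtain ⟨t, ht, hyt⟩ := (mem_nb_iff G).1 h1
  have h2 := mem_nb_singleton_symm G hyt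
  have h3 : t ∈ nb G 2 F := nb_mono G (by simpa using hyF) 2 h2
  exact Finset.disjoint_left.mp h ht (nb_mono_left G (by norm_num) F h3)

private lemma region_two {A : Finset V} {d s g D : ℕ} (hO : Opt G A d s g D) {F : Finset V}
    {L : ℕ} {θ : Th V} (hθ : IsTheta G θ) (hsub : θ.vs ⊆ Aᶜ \ nb G 3 F)
    (hcard : ∀ Z ⊆ θ.vs, (∀ v ∈ Z, 2 ≤ nin G v Z) → NoEars G Aᶜ Z →
      Piece G A F (plus G A Z) ∧ (plus G A Z).card ≤ L)
    (hEF : EarFree G Aᶜ θ) (hl : θ.l₁.length ≤ 2) :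
    ∃ u x₁ x₂ x₃ : ℕ, Region G A F L u x₁ x₂ x₃ := by
  have hA : θ.vs ⊆ Aᶜ := hsub.trans Finset.sdiff_subset
  have hg10 := hO.g10
  have hmem : ∀ v ∈ θ.a :: (θ.l₁ ++ θ.b :: θ.l₂.reverse), v ∈ Aᶜ := by
    intro v hv
    apply hA
    rw [Th.mem_vs]
    simp only [List.mem_cons, List.mem_append, List.mem_reverse] at hv
    tauto
  have hlen2 := Cyc.len_gt G hO.girth (region_cyc G hθ) hmem
  have hθ' : IsTheta G θ.rot.swp := (hθ.rot).swp
  have hθ3 : IsTheta G (⟨θ.a, θ.b, θ.l₁, θ.l₃, θ.l₂⟩ : Th V) := by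
    have := ((hθ.rot).rot).swp
    simpa [Th.rot, Th.swp] using this
  have hmem3 : ∀ v ∈ θ.a :: (θ.l₁ ++ θ.b :: θ.l₃.reverse), v ∈ Aᶜ := by
    intro v hv
    apply hA
    rw [Th.mem_vs]
    simp only [List.mem_cons, List.mem_append, List.mem_reverse] at hv
    tauto
  have hlen3 := Cyc.len_gt G hO.girth (region_cyc G hθ3) hmem3
  simp only [List.length_cons, List.length_append, List.length_reverse] at hlen2 hlen3
  have h2 : 3 ≤ θ.l₂.length := by omega
  have h3 : 3 ≤ θ.l₃.length := by omega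
  -- the three pieces
  obtain ⟨pU, cU⟩ := hcard θ.vs subset_rfl (hθ.two_le G) (earFree_vs G hEF)
  obtain ⟨p2, c2⟩ := hcard (θ.vs \ θ.l₂.toFinset) Finset.sdiff_subset
    (by have := (hθ.rot).two_le₁ G; rwa [Th.rot_vs] at this)
    (by have := noEars₁ G (hθ.rot) (hEF.rot) (B := Aᶜ) h2; rwa [Th.rot_vs] at this)
  obtain ⟨p3, c3⟩ := hcard (θ.vs \ θ.l₃.toFinset) Finset.sdiff_subset
    (by have := ((hθ.rot).rot).two_le₁ G; rwa [Th.rot_vs, Th.rot_vs] at this)
    (by have := noEars₁ G ((hθ.rot).rot) ((hEF.rot).rot) (B := Aᶜ) h3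
        rwa [Th.rot_vs, Th.rot_vs] at this)
  have hd4 : d ≤ 4 := by rcases hO.hd with h | h <;> omega
  obtain ⟨s1, s2⟩ := size_two G (fun v => (hO.reg v).le) hd4 hθ hA hEF hl
  refine ⟨_, _, _, _, plus G A θ.vs, plus G A θ.vs, plus G A (θ.vs \ θ.l₂.toFinset),
    plus G A (θ.vs \ θ.l₃.toFinset), pU, pU, p2, p3, rfl, rfl, rfl, rfl, ?_, cU, cU, c2, c3,
    by omega, by omega⟩
  apply Finset.card_pos.mpr
  refine ⟨θ.a, ?_⟩
  unfold plus
  rw [Finset.mem_union]
  left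
  rw [Th.mem_vs]
  exact Or.inl rfl

theorem exists_region {A : Finset V} {d s g D : ℕ} (hO : Opt G A d s g D) {K C h : ℕ}
    {F : Finset V} (hh : 11 ^ h * Fintype.card V < 13 ^ h) (hK : 4 * h + 2 < K * (C + 1))
    (hgC : 2 * C + 8 < g) (hF : 240 * (5 ^ (3 * K) * F.card) ≤ Fintype.card V) :
    ∃ u x₁ x₂ x₃ : ℕ, Region G A F (5 * (4 * h + 2)) u x₁ x₂ x₃ := by
  have hd4 : d ≤ 4 := by rcases hO.hd with h | h <;> omega
  have hex : ∀ t ≤ 3 * K, ∃ θ : Th V, IsTheta G θ ∧ θ.vs ⊆ Aᶜ \ nb G t F ∧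
      θ.size ≤ 4 * h + 2 := by
    intro t ht
    have h1 : (nb G t F).card ≤ 5 ^ (3 * K) * F.card := by
      calc (nb G t F).card ≤ (d + 1) ^ t * F.card := card_nb_le G (fun v => (hO.reg v).le) t F
        _ ≤ 5 ^ t * F.card := by gcongr; omega
        _ ≤ 5 ^ (3 * K) * F.card := by gcongr; norm_num
    obtain ⟨hne, hd⟩ := hO.dense_compl G (N := nb G t F) (by omega)
    refine exists_theta G hne hd ?_ (region_girth_mono G hO.girth Finset.sdiff_subset) hO.g10
    refine lt_of_le_of_lt ?_ hh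
    gcongr
    exact Finset.card_le_univ _
  obtain ⟨θ, hθ, hsub, hsz, hEF⟩ := exists_earfree G hO.girth hO.g10 hex hK hgC
  have hA : θ.vs ⊆ Aᶜ := hsub.trans Finset.sdiff_subset
  have hdis : Disjoint θ.vs (nb G 3 F) := by
    rw [Finset.disjoint_left]
    intro v hv hvF
    exact (Finset.mem_sdiff.mp (hsub hv)).2 hvF
  have hcard : ∀ Z ⊆ θ.vs, (∀ v ∈ Z, 2 ≤ nin G v Z) → NoEars G Aᶜ Z →
      Piece G A F (plus G A Z) ∧ (plus G A Z).card ≤ 5 * (4 * h + 2) := by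
    intro Z hZ hcl hne
    refine ⟨⟨plus_sw G hO.girth hO.g10 (hO.nin_le G) (hO.not_adj G) (hO.not_path G)
      (hZ.trans hA) hcl hne, region_disj G hdis (region_plus_sub G hZ)⟩, ?_⟩
    calc (plus G A Z).card ≤ (nbr G θ.vs).card := Finset.card_le_card (region_plus_sub G hZ)
      _ ≤ (d + 1) * θ.vs.card := card_nbr_le G (fun v => (hO.reg v).le) _
      _ = (d + 1) * θ.size := by rw [hθ.card_vs]
      _ ≤ 5 * (4 * h + 2) := by gcongr; omega
  by_cases h1 : θ.l₁.length ≤ 2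
  · exact region_two G hO hθ hsub hcard hEF h1
  by_cases h2 : θ.l₂.length ≤ 2
  · refine region_two G hO (θ := θ.rot) (hθ.rot) (by rw [Th.rot_vs]; exact hsub) ?_ (hEF.rot) h2
    rw [Th.rot_vs]; exact hcard
  by_cases h3 : θ.l₃.length ≤ 2
  · refine region_two G hO (θ := θ.rot.rot) ((hθ.rot).rot)
      (by rw [Th.rot_vs, Th.rot_vs]; exact hsub) ?_ ((hEF.rot).rot) h3
    rw [Th.rot_vs, Th.rot_vs]; exact hcard
  push Not at h1 h2 h3
  obtain ⟨pU, cU⟩ := hcard θ.vs subset_rfl (hθ.two_le G) (earFree_vs G hEF)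
  obtain ⟨p1, c1⟩ := hcard (θ.vs \ θ.l₁.toFinset) Finset.sdiff_subset
    (hθ.two_le₁ G) (noEars₁ G hθ hEF h1)
  obtain ⟨p2, c2⟩ := hcard (θ.vs \ θ.l₂.toFinset) Finset.sdiff_subset
    (by have := (hθ.rot).two_le₁ G; rwa [Th.rot_vs] at this)
    (by have := noEars₁ G (hθ.rot) (hEF.rot) (B := Aᶜ) h2; rwa [Th.rot_vs] at this)
  obtain ⟨p3, c3⟩ := hcard (θ.vs \ θ.l₃.toFinset) Finset.sdiff_subset
    (by have := ((hθ.rot).rot).two_le₁ G; rwa [Th.rot_vs, Th.rot_vs] at this)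
    (by have := noEars₁ G ((hθ.rot).rot) ((hEF.rot).rot) (B := Aᶜ) h3
        rwa [Th.rot_vs, Th.rot_vs] at this)
  obtain ⟨s1, s2⟩ := size_three G (fun v => (hO.reg v).le) hd4 hθ hA hEF
  refine ⟨_, _, _, _, plus G A θ.vs, plus G A (θ.vs \ θ.l₁.toFinset),
    plus G A (θ.vs \ θ.l₂.toFinset), plus G A (θ.vs \ θ.l₃.toFinset), pU, p1, p2, p3, rfl, rfl,
    rfl, rfl, ?_, cU, c1, c2, c3, s1, s2⟩
  apply Finset.card_pos.mpr
  refine ⟨θ.a, ?_⟩
  unfold plus
  rw [Finset.mem_union]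
  left
  rw [Th.mem_vs]
  exact Or.inl rfl

end H10.IB
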