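import Pool.Agent.H10.IB.Reach

/-!
MODULE Tune (about 130 lines). Tuning the number of moved vertices.
Let `r = x₁ + x₂ + x₃ - 2u ∈ [1,20]`. From `Region`, pieces of the four sizes exist outside every
`F` with at most `b` elements, so by `reach_add` (`Reach 0`: `Z = ∅`) and induction
`Reach (i (2u) + p (x₁+x₂+x₃))` for all `i, p` with `5 (i (2u) + p (x₁+x₂+x₃)) + |Y| <= b`
(add the pieces one at a time; all intermediate totals are at most the final one). With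
`m = i + p` this is `Reach (2 u m + r p)` for `p <= m`.
`τ`: put `m = τ / (2u)`, `ρ = τ % (2u)`, `p = ρ / r <= 2u <= m` (because `4 u^2 <= 4 L^2 <= τ`):
`τ - 20 < 2 u m + r p <= τ`. So `Reach t` with `τ - 20 < t <= τ`.
`final`: `τ = (D + 2 |Y|) / 2`; `A' = (A \ Y) ∪ Z` with `|Z| = t`: `|A'| = |A| - |Y| + t`,
`|A'ᶜ| = |Aᶜ| + |Y| - t`, `|A'ᶜ| - |A'| = D + 2 |Y| - 2 t ∈ [0, 41]`.
-/

set_option autoImplicit false
set_option linter.unusedSectionVars false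

namespace H10.IB

open Finset H97.Int

variable {V : Type*} [Fintype V] [DecidableEq V] (G : SimpleGraph V) [DecidableRel G.Adj]

lemma tune_multi {A Y : Finset V} {d b L u x₁ x₂ x₃ : ℕ} (hd : d = 3 ∨ d = 4)
    (hreg : ∀ v, G.degree v = d) (hYA : Y ⊆ A) (h1 : Sat G (A \ Y)) (h2 : Sat G (A \ Y)ᶜ)
    (hR : ∀ F : Finset V, F.card ≤ b → Region G A F L u x₁ x₂ x₃) (i p : ℕ)
    (hb : 5 * (i * (2 * u) + p * (x₁ + x₂ + x₃)) + Y.card ≤ b) :
    Reach G A Y (i * (2 * u) + p * (x₁ + x₂ + x₃)) := by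
  have hu : ∀ F : Finset V, F.card ≤ b → ∃ Z, Piece G A F Z ∧ Z.card = u := by
    intro F hF
    obtain ⟨U, X₁, X₂, X₃, hU, -, -, -, hc, -⟩ := hR F hF
    exact ⟨U, hU, hc⟩
  have hx₁ : ∀ F : Finset V, F.card ≤ b → ∃ Z, Piece G A F Z ∧ Z.card = x₁ := by
    intro F hF
    obtain ⟨U, X₁, X₂, X₃, -, hX, -, -, -, hc, -⟩ := hR F hF
    exact ⟨X₁, hX, hc⟩
  have hx₂ : ∀ F : Finset V, F.card ≤ b → ∃ Z, Piece G A F Z ∧ Z.card = x₂ := by
    intro F hF
    obtain ⟨U, X₁, X₂, X₃, -, -, hX, -, -, -, hc, -⟩ := hR F hF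
    exact ⟨X₂, hX, hc⟩
  have hx₃ : ∀ F : Finset V, F.card ≤ b → ∃ Z, Piece G A F Z ∧ Z.card = x₃ := by
    intro F hF
    obtain ⟨U, X₁, X₂, X₃, -, -, -, hX, -, -, -, hc, -⟩ := hR F hF
    exact ⟨X₃, hX, hc⟩
  induction p with
  | zero =>
    induction i with
    | zero =>
      refine ⟨∅, Finset.empty_subset _, ?_, ?_, ?_⟩
      · simp
      · rw [Finset.union_empty]; exact h1
      · rw [Finset.union_empty]; exact h2
    | succ i ih =>
      have e : (i + 1) * (2 * u) + 0 * (x₁ + x₂ + x₃) = i * (2 * u) + 0 * (x₁ + x₂ + x₃) + u + u := by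
        ring
      rw [e] at hb ⊢
      have r0 := ih (by omega)
      have r1 := reach_add G hd hreg hYA h1 h2 hu (by omega) r0
      exact reach_add G hd hreg hYA h1 h2 hu (by omega) r1
  | succ p ih =>
    have e : i * (2 * u) + (p + 1) * (x₁ + x₂ + x₃) =
        i * (2 * u) + p * (x₁ + x₂ + x₃) + x₁ + x₂ + x₃ := by ring
    rw [e] at hb ⊢
    have r0 := ih (by omega)
    have r1 := reach_add G hd hreg hYA h1 h2 hx₁ (by omega) r0
    have r2 := reach_add G hd hreg hYA h1 h2 hx₂ (by omega) r1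
    exact reach_add G hd hreg hYA h1 h2 hx₃ (by omega) r2

theorem reach_tau {A Y : Finset V} {d b L u x₁ x₂ x₃ τ : ℕ} (hd : d = 3 ∨ d = 4)
    (hreg : ∀ v, G.degree v = d) (hYA : Y ⊆ A) (h1 : Sat G (A \ Y)) (h2 : Sat G (A \ Y)ᶜ)
    (hR : ∀ F : Finset V, F.card ≤ b → Region G A F L u x₁ x₂ x₃)
    (hτ : 4 * L ^ 2 ≤ τ) (hb : 5 * τ + Y.card ≤ b) :
    ∃ t, t ≤ τ ∧ τ < t + 20 ∧ Reach G A Y t := by
  obtain ⟨U, X₁, X₂, X₃, -, -, -, -, -, -, -, -, hu1, huL, -, -, -, hlo, hhi⟩ :=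
    hR ∅ (by simp)
  set S := x₁ + x₂ + x₃ with hS
  obtain ⟨r, hr⟩ : ∃ r, S = 2 * u + r := ⟨S - 2 * u, by omega⟩
  have hr1 : 1 ≤ r := by omega
  have hr2 : r ≤ 20 := by omega
  set m := τ / (2 * u) with hm
  set ρ := τ % (2 * u) with hρ
  have hτe : 2 * u * m + ρ = τ := Nat.div_add_mod τ (2 * u)
  have hρlt : ρ < 2 * u := Nat.mod_lt _ (by omega)
  set p := ρ / r with hp
  have hpe : r * p + ρ % r = ρ := Nat.div_add_mod ρ r
  have hmod : ρ % r < r := Nat.mod_lt _ (by omega)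
  have hpρ : p ≤ ρ := Nat.div_le_self _ _
  have hm2 : 2 * u ≤ m := by
    rw [hm, Nat.le_div_iff_mul_le (by omega)]
    calc 2 * u * (2 * u) = 4 * u ^ 2 := by ring
      _ ≤ 4 * L ^ 2 := by
        have := Nat.pow_le_pow_left huL 2
        omega
      _ ≤ τ := hτ
  obtain ⟨i, hi⟩ : ∃ i, m = i + p := ⟨m - p, by omega⟩
  have ht : i * (2 * u) + p * S = 2 * u * m + r * p := by
    rw [hi, hr]; ring
  have key := tune_multi G hd hreg hYA h1 h2 hR i p (by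
    rw [← hS, ht]; omega)
  rw [← hS, ht] at key
  exact ⟨2 * u * m + r * p, by omega, by omega, key⟩

theorem tune {A Y : Finset V} {d s g D b L u x₁ x₂ x₃ : ℕ} (hO : Opt G A d s g D)
    (hYA : Y ⊆ A) (h1 : Sat G (A \ Y)) (h2 : Sat G (A \ Y)ᶜ)
    (hR : ∀ F : Finset V, F.card ≤ b → Region G A F L u x₁ x₂ x₃)
    (hL : 4 * L ^ 2 ≤ Y.card) (hb : 5 * (D + Y.card) + Y.card ≤ b) :
    ∃ A' : Finset V, Sat G A' ∧ Sat G A'ᶜ ∧ imb A' ≤ 41 := by
  obtain ⟨t, ht1, ht2, Z, hZA, hZc, hs1, hs2⟩ := reach_tau G (τ := (D + 2 * Y.card) / 2) hO.hd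
    hO.reg hYA h1 h2 hR (by omega) (by omega)
  refine ⟨A \ Y ∪ Z, hs1, hs2, ?_⟩
  have hdis : Disjoint (A \ Y) Aᶜ := by
    rw [Finset.disjoint_left]
    intro y hy hyA
    exact (Finset.mem_compl.mp hyA) (Finset.mem_sdiff.mp hy).1
  have hd2 : Disjoint (A \ Y) Z := Finset.disjoint_of_subset_right hZA hdis
  rw [imb_union hd2]
  have c1 : ((A \ Y).card : ℤ) = A.card - Y.card := by
    rw [Finset.card_sdiff_of_subset hYA]
    have := Finset.card_le_card hYA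
    push_cast [Nat.cast_sub this]
    ring
  have c2 : ((A ∪ Aᶜ).card : ℤ) = A.card + Aᶜ.card := by
    rw [Finset.card_union_of_disjoint disjoint_compl_right]; push_cast; ring
  have c3 : ((A \ Y ∪ (A \ Y)ᶜ).card : ℤ) = (A \ Y).card + (A \ Y)ᶜ.card := by
    rw [Finset.card_union_of_disjoint disjoint_compl_right]; push_cast; ring
  rw [Finset.union_compl] at c2 c3
  have c4 : (Aᶜ.card : ℤ) = A.card + D := by exact_mod_cast hO.card
  have e : (((A \ Y)ᶜ.card : ℤ) - (A \ Y).card) - 2 * Z.card = D + 2 * Y.card - 2 * t := by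
    rw [hZc]
    linarith
  rw [e, abs_le]
  have h3 : 2 * ((D + 2 * Y.card) / 2) ≤ D + 2 * Y.card := Nat.mul_div_le _ _
  have h4 : D + 2 * Y.card ≤ 2 * ((D + 2 * Y.card) / 2) + 1 := by omega
  constructor <;> omega

end H10.IB
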