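import Pool.Agent.H10.IB.ExCyc
import Pool.Agent.H10.IB.DenseB

/-!
MODULE YZero (about 60 lines). Closed subsets of `A` of prescribed size up to `2 h + 1`.
Induction on `k`. `k = 0`: the empty set. Step: given `Y₀` for `k`; if `|Y₀| >= k + 1` done;
otherwise `|Y₀| = k`, `Opt.dense` with `N = Y₀` and `exists_small_closed` in `A \ Y₀` give `Z`;
take `Y₀ ∪ Z` (`nin_mono`).
-/

set_option autoImplicit false
set_option linter.unusedSectionVars false

namespace H10.IB

open Finset H97.Int

variable {V : Type*} [Fintype V] [DecidableEq V] (G : SimpleGraph V) [DecidableRel G.Adj]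

theorem exists_Y₀ {A : Finset V} {d s g D : ℕ} (hO : Opt G A d s g D) {h : ℕ}
    (hh : 11 ^ h * Fintype.card V < 13 ^ h) (k : ℕ)
    (hk : 240 * (k + D) ≤ Fintype.card V) :
    ∃ Y₀ ⊆ A, k ≤ Y₀.card ∧ Y₀.card ≤ k + (2 * h + 1) ∧ ∀ y ∈ Y₀, 2 ≤ nin G y Y₀ := by
  induction k with
  | zero => exact ⟨∅, Finset.empty_subset _, by simp, by simp, by simp⟩
  | succ k ih =>
    obtain ⟨Y, hYA, hk1, hk2, hY⟩ := ih (by omega)
    by_cases hc : k + 1 ≤ Y.card
    · exact ⟨Y, hYA, hc, by omega, hY⟩
    have hYk : Y.card = k := by omega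
    obtain ⟨hne, hdn⟩ := Opt.dense G hO (N := Y) (by rw [hYk]; omega)
    have hle : (A \ Y).card ≤ Fintype.card V := Finset.card_le_univ _
    obtain ⟨Z, hZS, hZne, hZc, hZ⟩ := exists_small_closed G hne hdn
      (lt_of_le_of_lt (Nat.mul_le_mul_left _ hle) hh)
    have hdisj : Disjoint Y Z := by
      rw [Finset.disjoint_left]
      intro x hx hx'
      exact (Finset.mem_sdiff.mp (hZS hx')).2 hx
    have hZ0 : 0 < Z.card := Finset.card_pos.mpr hZne
    have hcu : (Y ∪ Z).card = Y.card + Z.card := Finset.card_union_of_disjoint hdisj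
    refine ⟨Y ∪ Z, Finset.union_subset hYA (hZS.trans Finset.sdiff_subset), by omega, by omega, ?_⟩
    intro y hy
    rcases Finset.mem_union.mp hy with h1 | h1
    · exact (hY y h1).trans (nin_mono G Finset.subset_union_left y)
    · exact (hZ y h1).trans (nin_mono G Finset.subset_union_right y)

end H10.IB
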