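import Pool.Agent.H10.IB.OptB
import Pool.Agent.H10.IB.RegionE
import Pool.Agent.H10.IB.Popular
import Pool.Agent.H10.IB.Many
import Pool.Agent.H10.IB.Closure
import Pool.Agent.H10.IB.YZero
import Pool.Agent.H10.IB.Tune
import Pool.Agent.H10.IB.Asym

/-!
MODULE Main34 (about 120 lines). Assembly for `d = 3, 4`.
Let `l = Nat.log 2 n` be large, `h = 5 (l+1)`, `L₀ = 4 h + 2 = 20 l + 22`, `L = 5 L₀`, `K = l / 14`,
`C = 400`, `g = 1000`. `opt_or_small`: either done (`imb <= 2001`) or `Opt G A d s 1000 D`,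
`D <= 8 l + 13`. `exists_Y₀` with `k = 4 L^2`; `J = s |Y₀| + 1`; `many`; `exists_Y` gives `Y`,
`4 L^2 <= |Y| <= J L₀`; `b = 5 (D + |Y|) + |Y|`; `popular` with `exists_region`: for
`|F| <= (L+1)^4 b`: `240 (5^(3K) |F|) <= n` because `240 (L+1)^4 b <= 10^20 (l+1)^8 <= 2^(l/2)`
(`pow_large`), `5^(3K) 2^(l/2) <= 2^l <= n` (`pow_K`, `Nat.pow_log_le_self`); `tune`.
Bounds: `L <= 110 (l+1)`, `|Y₀| <= 48411 (l+1)^2`, `J L₀ <= 2.2 * 10^6 (l+1)^3`,
`b <= 1.4 * 10^7 (l+1)^3`, `(L+1)^4 <= 1.6 * 10^8 (l+1)^4`, so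
`240 (L+1)^4 b <= 10^18 (l+1)^7`. `L₀ < K * 401` for `l >= 60`. `l >= l₀'` from `n >= 2^l₀'`.
-/

set_option autoImplicit false
set_option linter.unusedSectionVars false

namespace H10.IB

open Finset H97.Int

variable {V : Type*} [Fintype V] [DecidableEq V] (G : SimpleGraph V) [DecidableRel G.Adj]

/-- the numbers of the assembly: `t = l + 1` -/
private lemma numbers {t s y D Y L : ℕ} (ht : 1 ≤ t) (hs : s ≤ 2) (hL : L = 5 * (4 * (5 * t) + 2))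
    (hy : y ≤ 4 * L ^ 2 + (2 * (5 * t) + 1)) (hD : D ≤ 13 * t)
    (hY : Y ≤ (s * y + 1) * (4 * (5 * t) + 2)) :
    240 * (4 * L ^ 2 + D) ≤ 10 ^ 20 * t ^ 8 ∧
    240 * ((s * y + 1) * (4 * (5 * t) + 2)) ≤ 10 ^ 20 * t ^ 8 ∧
    240 * ((L + 1) ^ 4 * (5 * (D + Y) + Y)) ≤ 10 ^ 20 * t ^ 8 := by
  have hpw : ∀ i, i ≤ 8 → t ^ i ≤ t ^ 8 := fun i hi => Nat.pow_le_pow_right ht hi
  have ht2 : t ≤ t ^ 2 := by nlinarith
  have ht3 : t ≤ t ^ 3 := by
    calc t = t ^ 1 := (pow_one t).symm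
      _ ≤ t ^ 3 := Nat.pow_le_pow_right ht (by norm_num)
  have hL1 : L ≤ 110 * t := by omega
  have hL2 : 4 * L ^ 2 ≤ 48400 * t ^ 2 := by
    calc 4 * L ^ 2 ≤ 4 * (110 * t) ^ 2 := by gcongr
      _ = 48400 * t ^ 2 := by ring
  have hy1 : y ≤ 48411 * t ^ 2 := by omega
  have hJ : s * y + 1 ≤ 96823 * t ^ 2 := by
    have h1 : s * y ≤ 2 * (48411 * t ^ 2) := Nat.mul_le_mul hs hy1
    have h2 : 1 ≤ t ^ 2 := Nat.one_le_pow _ _ ht
    omega
  have hJL : (s * y + 1) * (4 * (5 * t) + 2) ≤ 2130106 * t ^ 3 := by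
    calc (s * y + 1) * (4 * (5 * t) + 2) ≤ (96823 * t ^ 2) * (22 * t) :=
          Nat.mul_le_mul hJ (by omega)
      _ = 2130106 * t ^ 3 := by ring
  have hY1 : Y ≤ 2130106 * t ^ 3 := hY.trans hJL
  have hb : 5 * (D + Y) + Y ≤ 12780701 * t ^ 3 := by omega
  have hL4 : (L + 1) ^ 4 ≤ 151807041 * t ^ 4 := by
    calc (L + 1) ^ 4 ≤ (111 * t) ^ 4 := by gcongr; omega
      _ = 151807041 * t ^ 4 := by ring
  refine ⟨?_, ?_, ?_⟩
  · have h1 := hpw 2 (by norm_num)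
    have h2 : D ≤ 13 * t ^ 2 := hD.trans (by omega)
    omega
  · have h1 := hpw 3 (by norm_num)
    omega
  · have h1 := hpw 7 (by norm_num)
    calc 240 * ((L + 1) ^ 4 * (5 * (D + Y) + Y))
        ≤ 240 * ((151807041 * t ^ 4) * (12780701 * t ^ 3)) := by gcongr
      _ = (240 * 151807041 * 12780701) * t ^ 7 := by ring
      _ ≤ 10 ^ 20 * t ^ 8 := Nat.mul_le_mul (by norm_num) h1

theorem main34 : ∃ n₀ : ℕ, ∀ (d s : ℕ), (d = 3 ∨ d = 4) → d = s + 2 →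
    ∀ (V : Type) [Fintype V] [DecidableEq V] (G : SimpleGraph V) [DecidableRel G.Adj],
    (∀ v, G.degree v = d) → n₀ < Fintype.card V →
    ∃ A : Finset V, Sat G A ∧ Sat G Aᶜ ∧ imb A ≤ 2001 := by
  obtain ⟨l₀, hl₀⟩ := pow_large
  refine ⟨2 ^ (max l₀ 100), ?_⟩
  intro d s hd hs V _ _ G _ hreg hn
  have hn0 : 0 < Fintype.card V := lt_of_le_of_lt (Nat.zero_le _) hn
  set n := Fintype.card V with hndef
  set l := Nat.log 2 n with hl
  have hlm : max l₀ 100 ≤ l := Nat.le_log_of_pow_le (by norm_num) hn.le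
  have hl1 : l₀ ≤ l := (le_max_left _ _).trans hlm
  have hl2 : 100 ≤ l := (le_max_right _ _).trans hlm
  have hq := hl₀ l hl1
  have hln : 2 ^ l ≤ n := Nat.pow_log_le_self 2 hn0.ne'
  have hK := pow_K l
  have hqn : 2 ^ (l / 2) ≤ n := by
    have h1 : 1 * 2 ^ (l / 2) ≤ 5 ^ (3 * (l / 14)) * 2 ^ (l / 2) :=
      Nat.mul_le_mul_right _ (Nat.one_le_pow _ _ (by norm_num))
    rw [one_mul] at h1
    exact h1.trans (hK.trans hln)
  have hh := pow_h n hn0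
  rcases opt_or_small G (g := 1000) hd hs hreg hn0 (by norm_num) with ⟨A, h1, h2, h3⟩ | ⟨A, D, hO⟩
  · exact ⟨A, h1, h2, by simpa using h3⟩
  have hDle : D ≤ 13 * (l + 1) := by
    have : D ≤ 8 * l + 13 := hO.Dle
    omega
  have hs2 : s ≤ 2 := by rcases hd with h | h <;> omega
  set L := 5 * (4 * (5 * (l + 1)) + 2) with hL
  have num0 := numbers (t := l + 1) (s := s) (y := 0) (D := D) (Y := 0) (L := L) (by omega) hs2 hL
    (by omega) hDle (by omega)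
  obtain ⟨Y₀, hY₀A, hk1, hk2, hcl⟩ := exists_Y₀ G hO hh (4 * L ^ 2)
    (num0.1.trans (hq.trans hqn))
  have num1 := numbers (t := l + 1) (s := s) (y := Y₀.card) (D := D) (Y := 0) (L := L) (by omega)
    hs2 hL hk2 hDle (by omega)
  obtain ⟨X, hXA, hXc, hXE⟩ := many G hO hh (s * Y₀.card + 1)
    (num1.2.1.trans (hq.trans hqn))
  obtain ⟨Y, hY₀Y, hYA, hYc, hS1, hS2⟩ := exists_Y G hO (L₀ := 4 * (5 * (l + 1)) + 2) (by omega)
    hY₀A hcl ⟨X, hXA, hXc, hXE⟩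
  have num2 := numbers (t := l + 1) (s := s) (y := Y₀.card) (D := D) (Y := Y.card) (L := L)
    (by omega) hs2 hL hk2 hDle hYc
  obtain ⟨u, x₁, x₂, x₃, hR⟩ := popular G (A := A) (L := L) (b := 5 * (D + Y.card) + Y.card) (by
    intro F hF
    have h1 : 240 * (5 ^ (3 * (l / 14)) * F.card) ≤ n := by
      calc 240 * (5 ^ (3 * (l / 14)) * F.card)
          = 5 ^ (3 * (l / 14)) * (240 * F.card) := by ring
        _ ≤ 5 ^ (3 * (l / 14)) *
              (240 * ((L + 1) ^ 4 * (5 * (D + Y.card) + Y.card))) := by gcongr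
        _ ≤ 5 ^ (3 * (l / 14)) * 2 ^ (l / 2) := by
            apply Nat.mul_le_mul_left
            exact num2.2.2.trans hq
        _ ≤ n := hK.trans hln
    exact exists_region G hO (K := l / 14) (C := 400) (h := 5 * (l + 1)) (F := F) hh
      (by omega) (by norm_num) h1)
  obtain ⟨A', h1, h2, h3⟩ := tune G hO hYA hS1 hS2 hR
    (hk1.trans (Finset.card_le_card hY₀Y)) le_rfl
  exact ⟨A', h1, h2, h3.trans (by norm_num)⟩

end H10.IB
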