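import Pool.Agent.H10.IB.Defs

/-!
MODULE OptB (about 170 lines). The optimal partition with the smallest imbalance.
By `exists_optF` (with `s = d - 2`; `d = 4`: all degrees even) there are `A` with `Sat G A`,
`Sat G Aᶜ`, minimising `s imb + 2 cut` over all sets; among all such `A` (both satisfied and
minimising; finitely many) take one with the smallest `imb`, and replace it by its complement if
necessary (`cut_compl`, `imb_compl`) so that `A.card <= Aᶜ.card`; `D = Aᶜ.card - A.card = imb A`.
If `D <= 2 g + 1` the first alternative holds. Otherwise `2 g + 2 <= D`.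
`low1`: `2 |X| <= D`, `X` disjoint from `A` gives `s |X| <= cut (A ∪ X) - cut A`, so by
`cut_union_regular` `E X X + 2 E X A <= 2 |X|` (*).
Girth: let `X ⊆ Aᶜ` be nonempty, `|X| <= g`, all `nin G x X >= 2`. Then `E X X >= 2 |X|`, so by (*)
`E X X = 2 |X|`, `E X A = 0`, `cut (A ∪ X) - cut A = s |X|`, `imb (A ∪ X) = D - 2 |X|`
(`imb_union`): `A ∪ X` is a minimiser of `s imb + 2 cut` too. `Sat G (A ∪ X)`: `v ∈ A` by
monotonicity (`nin_sat_mono`), `v ∈ X` has two neighbours in `X` and `d <= 4`.
`Sat G (A ∪ X)ᶜ`: otherwise some `w` has `nin G w (A ∪ X) >= 2`; then `X' = insert w X` has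
`E X' X' + 2 E X' A >= 2 |X| + 4 > 2 |X'|`, against (*) (`2 |X'| <= 2 g + 2 <= D`).
Smaller imbalance: contradiction.
`Dle`: as at the end of `H97.Int.exists_log`: if `D > 8 log n + 13` then `exists_dense` with
`r = log n + 1` gives `X` with `|X| <= 4 r + 3`, `0 < psi G A X`, i.e. against (*).
-/

set_option autoImplicit false
set_option linter.unusedSectionVars false

namespace H10.IB

open Finset H97.Int

variable {V : Type*} [Fintype V] [DecidableEq V] (G : SimpleGraph V) [DecidableRel G.Adj]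

/-- the standing inequality of an optimal set -/
lemma opt_psi_le {A : Finset V} {d s D : ℕ} (hs : d = s + 2) (hreg : ∀ v, G.degree v = d)
    (hcard : Aᶜ.card = A.card + D)
    (hmin : ∀ A' : Finset V, (s : ℤ) * imb A + 2 * cut G A ≤ s * imb A' + 2 * cut G A')
    {X : Finset V} (hX : Disjoint A X) (hle : 2 * X.card ≤ D) : psi G A X ≤ 0 := by
  have h1 := low1 G (A := A) (s := (s : ℤ)) (by omega) hmin hX (by
    have : ((2 * X.card : ℕ) : ℤ) ≤ (D : ℤ) := by exact_mod_cast hle
    rw [hcard]
    push_cast at this ⊢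
    linarith)
  rw [cut_union_regular G hX hreg] at h1
  unfold psi
  have h2 : (d : ℤ) = s + 2 := by exact_mod_cast hs
  rw [h2] at h1
  linarith

/-- no small cycle in the larger side -/
lemma opt_girth {A : Finset V} {d s g D : ℕ} (hd : d = 3 ∨ d = 4) (hs : d = s + 2)
    (hreg : ∀ v, G.degree v = d) (hsat : Sat G A) (hcard : Aᶜ.card = A.card + D)
    (hmin : ∀ A' : Finset V, (s : ℤ) * imb A + 2 * cut G A ≤ s * imb A' + 2 * cut G A')
    (hgD : 2 * g + 2 ≤ D)
    (hsmall : ∀ A' : Finset V, Sat G A' → Sat G A'ᶜ →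
      (∀ A'' : Finset V, (s : ℤ) * imb A' + 2 * cut G A' ≤ s * imb A'' + 2 * cut G A'') →
      imb A ≤ imb A') : Girth G Aᶜ g := by
  intro X hXA hXne hXg
  by_contra hcon
  push Not at hcon
  have hdis : Disjoint A X := by
    rw [Finset.disjoint_left]
    intro u hu hx
    have := hXA hx
    simp [hu] at this
  have hpsi : ∀ {Y : Finset V}, Disjoint A Y → 2 * Y.card ≤ D → psi G A Y ≤ 0 := fun hY hle =>
    opt_psi_le G hs hreg hcard hmin hY hle
  have hEE : 2 * (X.card : ℤ) ≤ E G X X := by
    rw [E_eq_sum_nin]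
    calc 2 * (X.card : ℤ) = ∑ _x ∈ X, (2 : ℤ) := by simp [mul_comm]
      _ ≤ ∑ x ∈ X, nin G x X := Finset.sum_le_sum fun x hx => hcon x hx
  have hEA := E_nonneg G X A
  have h0 := hpsi hdis (by omega)
  have h0' := h0
  unfold psi at h0
  have hA0 : E G X A = 0 := by linarith
  have hX0 : E G X X = 2 * X.card := by linarith
  have hpsi0 : psi G A X = 0 := by
    unfold psi
    rw [hA0, hX0]
    ring
  have hcut : cut G (A ∪ X) = cut G A + s * X.card := by
    rw [cut_union_regular G hdis hreg, hA0, hX0]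
    have h2 : (d : ℤ) = s + 2 := by exact_mod_cast hs
    rw [h2]
    ring
  have hcardZ : (Aᶜ.card : ℤ) - A.card = D := by
    rw [hcard]
    push_cast
    ring
  have hXD : 2 * (X.card : ℤ) ≤ D := by
    have : 2 * X.card ≤ D := by omega
    exact_mod_cast this
  have himbA : imb A = D := by
    unfold imb
    rw [hcardZ, abs_of_nonneg (by positivity)]
  have himb : imb (A ∪ X) = D - 2 * X.card := by
    rw [imb_union hdis, hcardZ, abs_of_nonneg (by linarith)]
  have hmin' : ∀ A'' : Finset V, (s : ℤ) * imb (A ∪ X) + 2 * cut G (A ∪ X) ≤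
      s * imb A'' + 2 * cut G A'' := by
    intro A''
    have h1 := hmin A''
    rw [himbA] at h1
    rw [himb, hcut]
    have h3 : (s : ℤ) * (D - 2 * X.card) + 2 * (cut G A + s * X.card) = s * D + 2 * cut G A := by
      ring
    rw [h3]
    exact h1
  have hd3 : (3 : ℤ) ≤ d ∧ (d : ℤ) ≤ 4 := by rcases hd with rfl | rfl <;> norm_num
  have hsat1 : Sat G (A ∪ X) := by
    intro v hv
    rcases Finset.mem_union.mp hv with h | h
    · exact nin_sat_mono G Finset.subset_union_left (hsat v h)
    · have h1 := nin_add_compl G v (A ∪ X)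
      rw [hreg v] at h1
      have h2 := nin_mono G (Finset.subset_union_right (s₁ := A) (s₂ := X)) v
      have h3 := hcon v h
      linarith [hd3.2]
  have hsat2 : Sat G (A ∪ X)ᶜ := by
    intro v hv
    rw [compl_compl]
    have h1 := nin_add_compl G v (A ∪ X)
    rw [hreg v] at h1
    have hvA : v ∉ A := by
      intro h
      simp [h] at hv
    have hvX : v ∉ X := by
      intro h
      simp [h] at hv
    have h2 : nin G v (A ∪ X) ≤ 1 := by
      by_contra h3
      push Not at h3
      have hdis' : Disjoint A (insert v X) := by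
        rw [Finset.disjoint_insert_right]
        exact ⟨hvA, hdis⟩
      have h4 := hpsi hdis' (by
        rw [Finset.card_insert_of_notMem hvX]
        omega)
      rw [psi_insert G hvX, hpsi0] at h4
      rw [nin_union G hdis] at h3
      linarith
    linarith [hd3.1]
  have h5 := hsmall (A ∪ X) hsat1 hsat2 hmin'
  rw [himb, himbA] at h5
  have h6 : (0 : ℤ) < X.card := by
    exact_mod_cast Finset.card_pos.mpr hXne
  linarith

theorem opt_or_small {d s g : ℕ} (hd : d = 3 ∨ d = 4) (hs : d = s + 2)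
    (hreg : ∀ v, G.degree v = d) (hne : 0 < Fintype.card V) (hg : 10 ≤ g) :
    (∃ A : Finset V, Sat G A ∧ Sat G Aᶜ ∧ imb A ≤ 2 * g + 1) ∨
      ∃ (A : Finset V) (D : ℕ), Opt G A d s g D := by
  classical
  have hs' : (s : ℤ) = 1 ∨ ((s : ℤ) = 2 ∧ ∀ v, Even (G.degree v)) := by
    rcases hd with rfl | rfl
    · left
      have : s = 1 := by omega
      rw [this]
      norm_num
    · right
      refine ⟨?_, fun v => by rw [hreg v]; decide⟩
      have : s = 2 := by omega
      rw [this]
      norm_num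
  obtain ⟨A₀, -, hA₀1, hA₀2, hA₀3⟩ := exists_optF G hs'
  set P : Finset V → Prop := fun A => Sat G A ∧ Sat G Aᶜ ∧
    ∀ A' : Finset V, (s : ℤ) * imb A + 2 * cut G A ≤ s * imb A' + 2 * cut G A' with hP
  obtain ⟨A₁, hA₁, hA₁min⟩ := Finset.exists_min_image (univ.filter P) (fun A => imb A)
    ⟨A₀, by simp only [Finset.mem_filter, Finset.mem_univ, true_and]; exact ⟨hA₀1, hA₀2, hA₀3⟩⟩
  rw [Finset.mem_filter] at hA₁
  obtain ⟨A, hcard, hPA, himin⟩ : ∃ A : Finset V, A.card ≤ Aᶜ.card ∧ P A ∧
      ∀ A', P A' → imb A ≤ imb A' := by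
    have hmin1 : ∀ A', P A' → imb A₁ ≤ imb A' := fun A' hA' =>
      hA₁min A' (Finset.mem_filter.mpr ⟨Finset.mem_univ _, hA'⟩)
    rcases le_total A₁.card A₁ᶜ.card with h | h
    · exact ⟨A₁, h, hA₁.2, hmin1⟩
    · refine ⟨A₁ᶜ, by rw [compl_compl]; exact h, ⟨hA₁.2.2.1, ?_, ?_⟩, ?_⟩
      · rw [compl_compl]
        exact hA₁.2.1
      · intro A'
        rw [imb_compl, cut_compl]
        exact hA₁.2.2.2 A'
      · intro A' hA'
        rw [imb_compl]
        exact hmin1 A' hA'
  obtain ⟨D, hD⟩ : ∃ D, Aᶜ.card = A.card + D := ⟨Aᶜ.card - A.card, by omega⟩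
  have himbA : imb A = D := by
    unfold imb
    rw [hD]
    push_cast
    rw [add_sub_cancel_left, abs_of_nonneg (by positivity)]
  by_cases hDg : D ≤ 2 * g + 1
  · left
    refine ⟨A, hPA.1, hPA.2.1, ?_⟩
    rw [himbA]
    exact_mod_cast hDg
  · right
    have hgD : 2 * g + 2 ≤ D := by omega
    refine ⟨A, D, hd, hs, hreg, hPA.1, hPA.2.1, hD, hPA.2.2, hgD, hg, ?_, ?_⟩
    · exact opt_girth G hd hs hreg hPA.1 hD hPA.2.2 hgD
        fun A' h1 h2 h3 => himin A' ⟨h1, h2, h3⟩
    · by_contra hcon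
      push Not at hcon
      set r := Nat.log 2 (Fintype.card V) + 1 with hr
      have hlt : Fintype.card V < 2 ^ r := by
        rw [hr]; exact Nat.lt_pow_succ_log_self (by norm_num) _
      have hAc : Aᶜ.Nonempty := by
        rw [← Finset.card_pos]; omega
      obtain ⟨X, hXA, hXc, hXp⟩ := exists_dense G (A := A) hlt
        (fun v => by rw [hreg v]; omega) hAc
      have h5 := opt_psi_le G hs hreg hD hPA.2.2 hXA (by omega)
      linarith

end H10.IB
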