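import Pool.Agent.H10.IB.Defs

/-!
MODULE Reach (about 120 lines). Moving pieces one after the other.
Let `A₁ = A \ Y`. `piece_sat`: `Z ⊆ Aᶜ` is disjoint from `A₁` and from `Y`, no vertex of `Y` has a
neighbour in `Z` or in... (`Disjoint (nbr G Z) F`, `Y ⊆ F`), so for `v ∈ Z`
`nin G v (A₁ ∪ Z) = nin G v (A ∪ Z) >= 2` and `d <= 4`: satisfied; `v ∈ A₁`: monotonicity.
Complement: `v ∈ Y`: `nin G v Z = 0`, so `nin G v (A₁ ∪ Z) = nin G v A₁`, satisfied as before;
`v ∈ Aᶜ \ Z`: `nin G v (A₁ ∪ Z) <= nin G v (A ∪ Z) <= 1` and `d >= 3`. (`nin_add_compl`.)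
`reach_add`: let `Z` be as in `Reach` with `|Z| = t`, apply `hP` with `F = nbr G Z ∪ Y`
(`card_nbr_le`: `|F| <= 5 t + |Y| <= b`), `good_union` for `A₁`, `Z`, `Z'`; `Z`, `Z'` are disjoint
(`subset_nbr`).
-/

set_option autoImplicit false
set_option linter.unusedSectionVars false

namespace H10.IB

open Finset H97.Int

variable {V : Type*} [Fintype V] [DecidableEq V] (G : SimpleGraph V) [DecidableRel G.Adj]

/-- `t` vertices can be moved from `Aᶜ` to `A \ Y` -/
def Reach (A Y : Finset V) (t : ℕ) : Prop :=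
  ∃ Z ⊆ Aᶜ, Z.card = t ∧ Sat G ((A \ Y) ∪ Z) ∧ Sat G ((A \ Y) ∪ Z)ᶜ

theorem piece_sat {A Y F Z : Finset V} {d : ℕ} (hd : d = 3 ∨ d = 4)
    (hreg : ∀ v, G.degree v = d) (hYA : Y ⊆ A) (h1 : Sat G (A \ Y)) (h2 : Sat G (A \ Y)ᶜ)
    (hF : Y ⊆ F) (hP : Piece G A F Z) :
    Sat G ((A \ Y) ∪ Z) ∧ Sat G ((A \ Y) ∪ Z)ᶜ := by
  obtain ⟨⟨hZA, hZ2, hZ1⟩, hdisj⟩ := hP
  have hdd : (3 : ℤ) ≤ d ∧ (d : ℤ) ≤ 4 := by rcases hd with h | h <;> subst h <;> norm_num
  have hZY : ∀ v ∈ Z, nin G v Y = 0 := by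
    intro v hv
    rw [nin_eq_zero_iff]
    intro u hu hadj
    exact Finset.disjoint_left.mp hdisj ((mem_nbr G).2 (Or.inr ⟨v, hv, hadj⟩)) (hF hu)
  have hYZ : ∀ v ∈ Y, nin G v Z = 0 := by
    intro v hv
    rw [nin_eq_zero_iff]
    intro u hu hadj
    exact Finset.disjoint_left.mp hdisj ((mem_nbr G).2 (Or.inr ⟨u, hu, hadj.symm⟩)) (hF hv)
  constructor
  · intro v hv
    rcases Finset.mem_union.mp hv with h | h
    · exact nin_sat_mono G Finset.subset_union_left (h1 v h)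
    · have h3 : nin G v (A ∪ Z) = nin G v ((A \ Y) ∪ Z) + nin G v (Y \ ((A \ Y) ∪ Z)) := by
        rw [← nin_union G Finset.disjoint_sdiff]
        congr 1
        ext x
        have := @hYA x
        simp only [Finset.mem_union, Finset.mem_sdiff]
        tauto
      have h4 : nin G v (Y \ ((A \ Y) ∪ Z)) ≤ 0 := by
        rw [← hZY v h]; exact nin_mono G Finset.sdiff_subset v
      have h5 := hZ2 v h
      have h6 := nin_add_compl G v ((A \ Y) ∪ Z)
      rw [hreg v] at h6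
      linarith [hdd.2]
  · intro v hv
    rw [compl_compl]
    have hv1 : v ∉ A \ Y := fun h => by simp [h] at hv
    have hvZ : v ∉ Z := fun h => by simp [h] at hv
    by_cases hY : v ∈ Y
    · have h3 := h2 v (by simpa using hv1)
      rw [compl_compl] at h3
      have h4 : nin G v ((A \ Y) ∪ Z) = nin G v (A \ Y) + nin G v (Z \ (A \ Y)) := by
        rw [← nin_union G Finset.disjoint_sdiff]
        congr 1
        ext x; simp
      have h5 : nin G v (Z \ (A \ Y)) ≤ 0 := by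
        rw [← hYZ v hY]; exact nin_mono G Finset.sdiff_subset v
      have h6 := nin_add_compl G v ((A \ Y) ∪ Z)
      have h7 := nin_add_compl G v (A \ Y)
      linarith
    · have hvA : v ∉ A := fun h => hv1 (Finset.mem_sdiff.mpr ⟨h, hY⟩)
      have h3 := hZ1 v (by simpa using hvA) hvZ
      have h4 : nin G v ((A \ Y) ∪ Z) ≤ nin G v (A ∪ Z) :=
        nin_mono G (Finset.union_subset_union_left Finset.sdiff_subset) v
      have h6 := nin_add_compl G v ((A \ Y) ∪ Z)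
      rw [hreg v] at h6
      linarith [hdd.1]

theorem reach_add {A Y : Finset V} {d b k t : ℕ} (hd : d = 3 ∨ d = 4)
    (hreg : ∀ v, G.degree v = d) (hYA : Y ⊆ A) (h1 : Sat G (A \ Y)) (h2 : Sat G (A \ Y)ᶜ)
    (hP : ∀ F : Finset V, F.card ≤ b → ∃ Z, Piece G A F Z ∧ Z.card = k)
    (hb : 5 * t + Y.card ≤ b) (h : Reach G A Y t) : Reach G A Y (t + k) := by
  obtain ⟨Z, hZA, hZt, hs, hsc⟩ := h
  have hcard : (nbr G Z ∪ Y).card ≤ b := by
    have h3 : (nbr G Z).card ≤ (d + 1) * Z.card := card_nbr_le G (fun v => (hreg v).le) Z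
    have h4 : (d + 1) * Z.card ≤ 5 * Z.card := by
      apply Nat.mul_le_mul_right
      rcases hd with h | h <;> omega
    have h5 := Finset.card_union_le (nbr G Z) Y
    omega
  obtain ⟨Z', hZ', hk⟩ := hP _ hcard
  obtain ⟨hs', hsc'⟩ := piece_sat G hd hreg hYA h1 h2 Finset.subset_union_right hZ'
  have hdn : Disjoint (nbr G Z) (nbr G Z') :=
    (Disjoint.mono_right Finset.subset_union_left hZ'.2).symm
  have hd2 : Disjoint Z Z' :=
    Disjoint.mono (subset_nbr G Z) (subset_nbr G Z') hdn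
  obtain ⟨h6, h7⟩ := good_union G hs hsc hs' hsc' hdn
  exact ⟨Z ∪ Z', Finset.union_subset hZA hZ'.1.1,
    by rw [Finset.card_union_of_disjoint hd2, hZt, hk], h6, h7⟩

end H10.IB
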