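import Pool.Agent.H10.IB.Lists
import Pool.Agent.H10.IB.ThBasic

/-!
MODULE ShDiff (about 130 lines). A path `q` between interior vertices of the sides 1 and 2.
`sh_diff`: `θ' = ⟨z, b, x₄, q.reverse ++ y :: x₂, x₃.reverse ++ a :: l₃⟩`. Sides: `z :: x₄ ++ [b]`
is a suffix of `s₂`; `z, q.reverse, y, x₂, b`; `z, x₃.reverse, a, l₃, b`. The interior lists 2 and 3
are nonempty. Size: `|x₄| + |q| + 1 + |x₂| + |x₃| + 1 + |l₃| + 2`.
`sh_diff_len`: `a :: (x₁ ++ y :: (q ++ z :: x₃.reverse))` is a cycle inside `B` (last element of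
`z :: x₃.reverse` is adjacent to `a`), `Cyc.len_gt`.
-/

set_option autoImplicit false
set_option linter.unusedSectionVars false

namespace H10.IB

open Finset H97.Int

variable {V : Type*} [Fintype V] [DecidableEq V] (G : SimpleGraph V) [DecidableRel G.Adj]

/-- gluing two chains at a common element -/
lemma shd_glue {W : Type*} {R : W → W → Prop} {u w : List W} {m : W} (h₁ : (u ++ [m]).IsChain R)
    (h₂ : (m :: w).IsChain R) : (u ++ m :: w).IsChain R := by
  have h := List.IsChain.append_overlap (l₁ := u) (l₂ := [m]) (l₃ := w) h₁ h₂ (by simp)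
  simpa using h

/-- reversing a chain of a symmetric relation -/
lemma shd_rev {l : List V} (h : l.IsChain G.Adj) : l.reverse.IsChain G.Adj := by
  rw [List.isChain_reverse]
  exact h.imp fun a b hab => hab.symm

lemma shd_left {W : Type*} {R : W → W → Prop} {u w : List W} (h : (u ++ w).IsChain R) :
    u.IsChain R := (List.isChain_append.1 h).1

lemma shd_right {W : Type*} {R : W → W → Prop} {u w : List W} (h : (u ++ w).IsChain R) :
    w.IsChain R := (List.isChain_append.1 h).2.1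

/-- a closed chain is a cycle -/
lemma shd_cyc {W : Type*} {R : W → W → Prop} {a : W} {l : List W} (hlen : 2 ≤ l.length)
    (hnd : (a :: l).Nodup) (hch : (a :: (l ++ [a])).IsChain R) : Cyc R (a :: l) := by
  rw [← List.cons_append, List.isChain_append] at hch
  refine ⟨by simp; omega, hnd, hch.1, ?_⟩
  intro x y hx hy
  simp only [List.head?_cons, Option.some.injEq] at hx
  subst hx
  exact hch.2.2 y hy a (by simp)

theorem sh_diff {θ : Th V} (hθ : IsTheta G θ) {x₁ x₂ x₃ x₄ q : List V} {y z : V}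
    (h₁ : θ.l₁ = x₁ ++ y :: x₂) (h₂ : θ.l₂ = x₃ ++ z :: x₄) (hq : q.Nodup)
    (hqθ : ∀ w ∈ q, w ∉ θ.vs) (hch : (y :: (q ++ [z])).IsChain G.Adj) :
    ∃ θ' : Th V, IsTheta G θ' ∧ θ'.vs ⊆ θ.vs ∪ q.toFinset ∧
      θ'.size + x₁.length = θ.size + q.length := by
  obtain ⟨a, b, l₁, l₂, l₃⟩ := θ
  simp only at h₁ h₂
  subst h₁ h₂
  have hc1 := hθ.chain₁
  have hc2 := hθ.chain₂
  have hc3 := hθ.chain₃
  simp only [Th.s₁, Th.s₂, Th.s₃] at hc1 hc2 hc3
  have hold := hθ.nodup
  simp only at hold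
  have hdis : ((a :: b :: ((x₁ ++ y :: x₂) ++ (x₃ ++ z :: x₄) ++ l₃)) ++ q).Nodup := by
    rw [List.nodup_append]
    refine ⟨hold, hq, ?_⟩
    rintro u hu v hv rfl
    refine hqθ u hv ?_
    rw [Th.mem_vs]
    simp only [List.mem_cons, List.mem_append] at hu ⊢
    tauto
  have hperm : ((z :: b :: (x₄ ++ (q.reverse ++ y :: x₂) ++ (x₃.reverse ++ a :: l₃))) ++ x₁).Perm
      ((a :: b :: ((x₁ ++ y :: x₂) ++ (x₃ ++ z :: x₄) ++ l₃)) ++ q) := by
    rw [List.perm_iff_count]
    intro u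
    simp only [List.count_append, List.count_cons, List.count_reverse]
    ring
  refine ⟨⟨z, b, x₄, q.reverse ++ y :: x₂, x₃.reverse ++ a :: l₃⟩, ⟨?_, ?_, ?_, ?_, ?_, ?_, ?_⟩,
    ?_, ?_⟩
  · simp only [Th.s₁]
    have : a :: (x₃ ++ z :: x₄ ++ [b]) = (a :: x₃) ++ (z :: (x₄ ++ [b])) := by simp
    rw [this] at hc2
    exact shd_right hc2
  · simp only [Th.s₂]
    have e1 : a :: (x₁ ++ y :: x₂ ++ [b]) = (a :: x₁) ++ (y :: (x₂ ++ [b])) := by simp
    rw [e1] at hc1
    have e2 : z :: (q.reverse ++ y :: x₂ ++ [b]) = (z :: q.reverse) ++ y :: (x₂ ++ [b]) := by simp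
    rw [e2]
    refine shd_glue ?_ (shd_right hc1)
    have e3 : z :: q.reverse ++ [y] = (y :: (q ++ [z])).reverse := by simp
    rw [e3]
    exact shd_rev G hch
  · simp only [Th.s₃]
    have e1 : a :: (x₃ ++ z :: x₄ ++ [b]) = (a :: (x₃ ++ [z])) ++ (x₄ ++ [b]) := by simp
    rw [e1] at hc2
    have e2 : z :: (x₃.reverse ++ a :: l₃ ++ [b]) = (z :: x₃.reverse) ++ a :: (l₃ ++ [b]) := by
      simp
    rw [e2]
    refine shd_glue ?_ hc3
    have e3 : z :: x₃.reverse ++ [a] = (a :: (x₃ ++ [z])).reverse := by simp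
    rw [e3]
    exact shd_rev G (shd_left hc2)
  · exact (List.nodup_append.1 (hperm.nodup_iff.2 hdis)).1
  · right; simp
  · right; simp
  · left; simp
  · intro u hu
    rw [Finset.mem_union, Th.mem_vs]
    rw [Th.mem_vs] at hu
    simp only [List.mem_append, List.mem_cons, List.mem_reverse, List.mem_toFinset] at hu ⊢
    tauto
  · simp only [Th.size, List.length_append, List.length_cons, List.length_reverse]
    ring

theorem sh_diff_len {B : Finset V} {g : ℕ} (hg : Girth G B g) {θ : Th V} (hθ : IsTheta G θ)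
    (hB : θ.vs ⊆ B) {x₁ x₂ x₃ x₄ q : List V} {y z : V}
    (h₁ : θ.l₁ = x₁ ++ y :: x₂) (h₂ : θ.l₂ = x₃ ++ z :: x₄) (hq : q.Nodup)
    (hqθ : ∀ w ∈ q, w ∉ θ.vs) (hqB : ∀ w ∈ q, w ∈ B) (hch : (y :: (q ++ [z])).IsChain G.Adj) :
    g < x₁.length + x₃.length + q.length + 3 := by
  obtain ⟨a, b, l₁, l₂, l₃⟩ := θ
  simp only at h₁ h₂
  subst h₁ h₂
  have hc1 := hθ.chain₁
  have hc2 := hθ.chain₂
  simp only [Th.s₁, Th.s₂] at hc1 hc2
  have hold := hθ.nodup
  simp only at hold
  have hdis : ((a :: b :: ((x₁ ++ y :: x₂) ++ (x₃ ++ z :: x₄) ++ l₃)) ++ q).Nodup := by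
    rw [List.nodup_append]
    refine ⟨hold, hq, ?_⟩
    rintro u hu v hv rfl
    refine hqθ u hv ?_
    rw [Th.mem_vs]
    simp only [List.mem_cons, List.mem_append] at hu ⊢
    tauto
  have hperm : ((a :: (x₁ ++ y :: (q ++ z :: x₃.reverse))) ++ (b :: (x₂ ++ x₄ ++ l₃))).Perm
      ((a :: b :: ((x₁ ++ y :: x₂) ++ (x₃ ++ z :: x₄) ++ l₃)) ++ q) := by
    rw [List.perm_iff_count]
    intro u
    simp only [List.count_append, List.count_cons, List.count_reverse]
    ring
  have hcyc : Cyc G.Adj (a :: (x₁ ++ y :: (q ++ z :: x₃.reverse))) := by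
    refine shd_cyc ?_ (List.nodup_append.1 (hperm.nodup_iff.2 hdis)).1 ?_
    · simp
      omega
    · have e1 : a :: (x₁ ++ y :: x₂ ++ [b]) = (a :: (x₁ ++ [y])) ++ (x₂ ++ [b]) := by simp
      rw [e1] at hc1
      have e2 : a :: (x₃ ++ z :: x₄ ++ [b]) = (a :: (x₃ ++ [z])) ++ (x₄ ++ [b]) := by simp
      rw [e2] at hc2
      have e3 : a :: (x₁ ++ y :: (q ++ z :: x₃.reverse) ++ [a]) =
          (a :: x₁) ++ y :: (q ++ z :: (x₃.reverse ++ [a])) := by simp
      rw [e3]
      refine shd_glue (shd_left hc1) ?_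
      have e4 : y :: (q ++ z :: (x₃.reverse ++ [a])) = (y :: q) ++ z :: (x₃.reverse ++ [a]) := by
        simp
      rw [e4]
      refine shd_glue (by simpa using hch) ?_
      have e5 : z :: (x₃.reverse ++ [a]) = (a :: (x₃ ++ [z])).reverse := by simp
      rw [e5]
      exact shd_rev G (shd_left hc2)
  have hlt := Cyc.len_gt G hg hcyc (by
    intro v hv
    simp only [List.mem_cons, List.mem_append, List.mem_reverse] at hv
    by_cases hvq : v ∈ q
    · exact hqB v hvq
    · refine hB ?_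
      rw [Th.mem_vs]
      simp only [List.mem_cons, List.mem_append]
      tauto)
  simp only [List.length_cons, List.length_append, List.length_reverse] at hlt
  omega

end H10.IB
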