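import Pool.Agent.H10.IB.Lists
import Pool.Agent.H10.IB.ThBasic

/-!
MODULE ShSame (about 150 lines). Replace a segment of the first side by the path `q`.
`s₁ = x ++ y :: (m ++ z :: x')`. New first side `x ++ y :: (q ++ z :: x')`; it starts with `a` and
ends with `b`: if `x = []` then `y = a`, otherwise `x = a :: x₀`; if `x' = []` then `z = b`,
otherwise `x' = x₀' ++ [b]`. So the new interior `l₁'` is `q`, `x₀ ++ y :: q`, `q ++ z :: x₀'` or
`x₀ ++ y :: (q ++ z :: x₀')`; the other sides are unchanged. `ne₁₂`, `ne₁₃`: if `l₁' = []` then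
`q = []`, `y = a`, `z = b`, and `l₂ = []` or `l₃ = []` would give `θ.Cons a b`.
`sh_same_len`: `y :: (m ++ z :: q.reverse)` is a cycle inside `B` (the part `y :: (m ++ [z])` is an
infix of `s₁`, the part `z :: (q.reverse ++ [y])` is the reverse of `y :: (q ++ [z])`), its length
`|m| + |q| + 2` is at least 3 because `m = q = []` would give `θ.Cons y z`. Apply `Cyc.len_gt`.
-/

set_option autoImplicit false
set_option linter.unusedSectionVars false

namespace H10.IB

open Finset H97.Int

variable {V : Type*} [Fintype V] [DecidableEq V] (G : SimpleGraph V) [DecidableRel G.Adj]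

/-- gluing two chains at a common element -/
lemma shs_glue {W : Type*} {R : W → W → Prop} {u w : List W} {m : W} (h₁ : (u ++ [m]).IsChain R)
    (h₂ : (m :: w).IsChain R) : (u ++ m :: w).IsChain R := by
  have h := List.IsChain.append_overlap (l₁ := u) (l₂ := [m]) (l₃ := w) h₁ h₂ (by simp)
  simpa using h

/-- reversing a chain of a symmetric relation -/
lemma shs_rev {l : List V} (h : l.IsChain G.Adj) : l.reverse.IsChain G.Adj := by
  rw [List.isChain_reverse]
  exact h.imp fun a b hab => hab.symm

lemma shs_left {W : Type*} {R : W → W → Prop} {u w : List W} (h : (u ++ w).IsChain R) :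
    u.IsChain R := (List.isChain_append.1 h).1

lemma shs_right {W : Type*} {R : W → W → Prop} {u w : List W} (h : (u ++ w).IsChain R) :
    w.IsChain R := (List.isChain_append.1 h).2.1

/-- a closed chain is a cycle -/
lemma shs_cyc {W : Type*} {R : W → W → Prop} {a : W} {l : List W} (hlen : 2 ≤ l.length)
    (hnd : (a :: l).Nodup) (hch : (a :: (l ++ [a])).IsChain R) : Cyc R (a :: l) := by
  rw [← List.cons_append, List.isChain_append] at hch
  refine ⟨by simp; omega, hnd, hch.1, ?_⟩
  intro x y hx hy
  simp only [List.head?_cons, Option.some.injEq] at hx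
  subst hx
  exact hch.2.2 y hy a (by simp)

/-- the two ends of the first side -/
lemma shs_split {W : Type*} {a b y z : W} {l₁ x m x' : List W}
    (hs : a :: (l₁ ++ [b]) = x ++ y :: (m ++ z :: x')) :
    ∃ v w : List W, x ++ [y] = a :: v ∧ z :: x' = w ++ [b] ∧ l₁ = v ++ m ++ w := by
  have h1 : ∃ v, x ++ [y] = a :: v := by
    cases x with
    | nil =>
      simp only [List.nil_append, List.cons.injEq] at hs
      exact ⟨[], by simp [hs.1]⟩
    | cons c x =>
      simp only [List.cons_append, List.cons.injEq] at hs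
      exact ⟨x ++ [y], by simp [hs.1]⟩
  obtain ⟨v, hv⟩ := h1
  have h2 : ∃ w c, z :: x' = w ++ [c] := by
    refine ⟨(z :: x').dropLast, (z :: x').getLast (by simp), ?_⟩
    rw [List.dropLast_append_getLast]
  obtain ⟨w, c, hw⟩ := h2
  have h3 : a :: (l₁ ++ [b]) = a :: ((v ++ m ++ w) ++ [c]) := by
    rw [hs]
    have e1 : x ++ y :: (m ++ z :: x') = (x ++ [y]) ++ m ++ (z :: x') := by simp
    rw [e1, hv, hw]
    simp
  rw [List.cons.injEq] at h3
  obtain ⟨h4, h5⟩ := List.append_inj' h3.2 (by simp)
  simp only [List.cons.injEq, and_true] at h5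
  exact ⟨v, w, hv, by rw [hw, h5], h4⟩

theorem sh_same {θ : Th V} (hθ : IsTheta G θ) {x m x' q : List V} {y z : V}
    (hs : θ.s₁ = x ++ y :: (m ++ z :: x')) (hq : q.Nodup) (hqθ : ∀ w ∈ q, w ∉ θ.vs)
    (hch : (y :: (q ++ [z])).IsChain G.Adj) (hcons : q = [] → ¬ θ.Cons y z) :
    ∃ θ' : Th V, IsTheta G θ' ∧ θ'.vs ⊆ θ.vs ∪ q.toFinset ∧
      θ'.size + m.length = θ.size + q.length := by
  obtain ⟨a, b, l₁, l₂, l₃⟩ := θ
  obtain ⟨v, w, hv, hw, hl⟩ := shs_split hs
  subst hl
  have hc1 := hθ.chain₁
  have hc2 := hθ.chain₂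
  have hc3 := hθ.chain₃
  have hs' := hs
  simp only [Th.s₁, Th.s₂, Th.s₃] at hc1 hc2 hc3 hs'
  have hold := hθ.nodup
  simp only at hold
  have hdis : ((a :: b :: ((v ++ m ++ w) ++ l₂ ++ l₃)) ++ q).Nodup := by
    rw [List.nodup_append]
    refine ⟨hold, hq, ?_⟩
    rintro u hu t ht rfl
    refine hqθ u ht ?_
    rw [Th.mem_vs]
    simp only [List.mem_cons, List.mem_append] at hu ⊢
    tauto
  have hperm : ((a :: b :: ((v ++ q ++ w) ++ l₂ ++ l₃)) ++ m).Perm
      ((a :: b :: ((v ++ m ++ w) ++ l₂ ++ l₃)) ++ q) := by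
    rw [List.perm_iff_count]
    intro u
    simp only [List.count_append, List.count_cons]
    ring
  have hne : v ++ q ++ w = [] → ¬ (Th.mk a b (v ++ m ++ w) l₂ l₃).Cons a b := by
    intro h
    simp only [List.append_eq_nil_iff] at h
    obtain ⟨⟨h1, h2⟩, h3⟩ := h
    have hx : x = [] ∧ y = a := by
      rw [h1] at hv
      cases x with
      | nil => simpa using hv
      | cons c x => simp at hv
    have hx' : z = b := by
      rw [h3] at hw
      simp only [List.nil_append, List.cons.injEq] at hw
      exact hw.1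
    have := hcons h2
    rw [hx.2, hx'] at this
    exact this
  refine ⟨⟨a, b, v ++ q ++ w, l₂, l₃⟩, ⟨?_, hc2, hc3, ?_, ?_, ?_, hθ.ne₂₃⟩, ?_, ?_⟩
  · simp only [Th.s₁]
    have e1 : a :: (v ++ q ++ w ++ [b]) = x ++ y :: (q ++ z :: x') := by
      have e2 : x ++ y :: (q ++ z :: x') = (x ++ [y]) ++ q ++ (z :: x') := by simp
      rw [e2, hv, hw]
      simp
    rw [e1]
    rw [hs'] at hc1
    have e3 : x ++ y :: (m ++ z :: x') = (x ++ [y]) ++ (m ++ z :: x') := by simp
    have e4 : x ++ y :: (m ++ z :: x') = (x ++ y :: m) ++ (z :: x') := by simp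
    refine shs_glue (shs_left (e3 ▸ hc1)) ?_
    have e5 : y :: (q ++ z :: x') = (y :: q) ++ z :: x' := by simp
    rw [e5]
    exact shs_glue (by simpa using hch) (shs_right (e4 ▸ hc1))
  · exact (List.nodup_append.1 (hperm.nodup_iff.2 hdis)).1
  · by_contra hcon
    push Not at hcon
    refine hne hcon.1 ?_
    right; right; left
    have : l₂ = [] := hcon.2
    subst this
    simp only [Th.s₂, List.nil_append]
    exact List.infix_refl _
  · by_contra hcon
    push Not at hcon
    refine hne hcon.1 ?_
    right; right; right; right; left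
    have : l₃ = [] := hcon.2
    subst this
    simp only [Th.s₃, List.nil_append]
    exact List.infix_refl _
  · intro u hu
    rw [Finset.mem_union, Th.mem_vs]
    rw [Th.mem_vs] at hu
    simp only [List.mem_append, List.mem_toFinset] at hu ⊢
    tauto
  · simp only [Th.size, List.length_append]
    ring

theorem sh_same_len {B : Finset V} {g : ℕ} (hg : Girth G B g) {θ : Th V} (hθ : IsTheta G θ)
    (hB : θ.vs ⊆ B) {x m x' q : List V} {y z : V}
    (hs : θ.s₁ = x ++ y :: (m ++ z :: x')) (hq : q.Nodup) (hqθ : ∀ w ∈ q, w ∉ θ.vs)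
    (hqB : ∀ w ∈ q, w ∈ B)
    (hch : (y :: (q ++ [z])).IsChain G.Adj) (hcons : q = [] → ¬ θ.Cons y z) :
    g < m.length + q.length + 2 := by
  have hnd : θ.s₁.Nodup := by
    have h := hθ.nodup
    have hp : (θ.s₁ ++ (θ.l₂ ++ θ.l₃)).Perm (θ.a :: θ.b :: (θ.l₁ ++ θ.l₂ ++ θ.l₃)) := by
      rw [List.perm_iff_count]
      intro u
      simp only [Th.s₁, List.count_append, List.count_cons, List.count_nil]
      ring
    exact (List.nodup_append.1 (hp.nodup_iff.2 h)).1
  have hmem : ∀ v ∈ θ.s₁, v ∈ θ.vs := by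
    intro v hv
    rw [Th.mem_vs]
    simp only [Th.s₁, List.mem_cons, List.mem_append, List.not_mem_nil, or_false] at hv
    tauto
  have hdis : (θ.s₁ ++ q).Nodup := by
    rw [List.nodup_append]
    refine ⟨hnd, hq, ?_⟩
    rintro u hu t ht rfl
    exact hqθ u ht (hmem u hu)
  have hc1 := hθ.chain₁
  rw [hs] at hc1 hdis hmem
  have hperm : ((y :: (m ++ z :: q.reverse)) ++ (x ++ x')).Perm
      ((x ++ y :: (m ++ z :: x')) ++ q) := by
    rw [List.perm_iff_count]
    intro u
    simp only [List.count_append, List.count_cons, List.count_reverse]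
    ring
  have hmq : m ≠ [] ∨ q ≠ [] := by
    by_contra hcon
    push Not at hcon
    obtain ⟨rfl, rfl⟩ := hcon
    refine hcons rfl ?_
    left
    rw [hs]
    exact ⟨x, x', by simp⟩
  have hcyc : Cyc G.Adj (y :: (m ++ z :: q.reverse)) := by
    refine shs_cyc ?_ (List.nodup_append.1 (hperm.nodup_iff.2 hdis)).1 ?_
    · simp only [List.length_append, List.length_cons, List.length_reverse]
      rcases hmq with h | h
      · have := List.length_pos_iff.2 h
        omega
      · have := List.length_pos_iff.2 h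
        omega
    · have e1 : x ++ y :: (m ++ z :: x') = x ++ ((y :: (m ++ [z])) ++ x') := by simp
      rw [e1] at hc1
      have e2 : y :: (m ++ z :: q.reverse ++ [y]) = (y :: m) ++ z :: (q.reverse ++ [y]) := by simp
      rw [e2]
      refine shs_glue (by simpa using shs_left (shs_right hc1)) ?_
      have e3 : z :: (q.reverse ++ [y]) = (y :: (q ++ [z])).reverse := by simp
      rw [e3]
      exact shs_rev G hch
  have hlt := Cyc.len_gt G hg hcyc (by
    intro v hv
    simp only [List.mem_cons, List.mem_append, List.mem_reverse] at hv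
    by_cases hvq : v ∈ q
    · exact hqB v hvq
    · refine hB (hmem v ?_)
      simp only [List.mem_cons, List.mem_append]
      tauto)
  simp only [List.length_cons, List.length_append, List.length_reverse] at hlt
  omega

end H10.IB
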