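import Pool.Agent.H10.IB.ShSame
import Pool.Agent.H10.IB.ShDiff

/-!
MODULE Short (about 150 lines). An ear of length at most three gives a much smaller theta.
If `y, z` lie on a common closed side (this includes `y` or `z` in `{a, b}`), permute the sides
(`rot`, `swp`: `IsTheta`, `vs`, `size`, `Cons`) so that it is the first one; `y ≠ z` are both in
`s₁` (nodup), so `s₁ = x ++ y :: (m ++ z :: x')` or the same with `y, z` exchanged (then use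
`q.reverse`, `Th.cons_comm`). `sh_same`, `sh_same_len`: `|m| >= g - 1 - |q|`, `|q| <= 2`.
Otherwise `y`, `z` are interior vertices of different sides; permute so that `y ∈ l₁`, `z ∈ l₂`,
`l₁ = x₁ ++ y :: x₂`, `l₂ = x₃ ++ z :: x₄`, `|x₁| + |x₃| + |q| + 3 > g` (`sh_diff_len`). If
`|x₁| >= |x₃|` use `sh_diff`, otherwise `sh_diff` for `θ.swp` with `y, z` exchanged and
`q.reverse`. In all cases `2 θ'.size + g <= 2 θ.size + 8`.
-/

set_option autoImplicit false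
set_option linter.unusedSectionVars false

namespace H10.IB

open Finset H97.Int

variable {V : Type*} [Fintype V] [DecidableEq V] (G : SimpleGraph V) [DecidableRel G.Adj]

lemma short_rev_chain {y z : V} {q : List V} (h : (y :: (q ++ [z])).IsChain G.Adj) :
    (z :: (q.reverse ++ [y])).IsChain G.Adj := by
  have h1 : (z :: (q.reverse ++ [y])) = (y :: (q ++ [z])).reverse := by simp
  rw [h1, List.isChain_reverse]
  exact h.imp (fun a b hab => hab.symm)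

/-- both ends on the first side, `y` first -/
lemma short_same_aux {B : Finset V} {g : ℕ} (hg : Girth G B g) (hg10 : 10 ≤ g) {θ : Th V}
    (hθ : IsTheta G θ) (hB : θ.vs ⊆ B) {y z : V} {x m x' : List V}
    (hs : θ.s₁ = x ++ y :: (m ++ z :: x'))
    {q : List V} (hq2 : q.length ≤ 2) (hq : q.Nodup) (hqB : ∀ w ∈ q, w ∈ B)
    (hqθ : ∀ w ∈ q, w ∉ θ.vs) (hch : (y :: (q ++ [z])).IsChain G.Adj)
    (hcons : q = [] → ¬ θ.Cons y z) :
    ∃ θ' : Th V, IsTheta G θ' ∧ θ'.vs ⊆ θ.vs ∪ q.toFinset ∧ 2 * θ'.size + g ≤ 2 * θ.size + 8 := by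
  obtain ⟨θ', h1, h2, h3⟩ := sh_same G hθ hs hq hqθ hch hcons
  have h4 := sh_same_len G hg hθ hB hs hq hqθ hqB hch hcons
  exact ⟨θ', h1, h2, by omega⟩

lemma short_same {B : Finset V} {g : ℕ} (hg : Girth G B g) (hg10 : 10 ≤ g) {θ : Th V}
    (hθ : IsTheta G θ) (hB : θ.vs ⊆ B) {y z : V} (hy : y ∈ θ.s₁) (hz : z ∈ θ.s₁) (hyz : y ≠ z)
    {q : List V} (hq2 : q.length ≤ 2) (hq : q.Nodup) (hqB : ∀ w ∈ q, w ∈ B)
    (hqθ : ∀ w ∈ q, w ∉ θ.vs) (hch : (y :: (q ++ [z])).IsChain G.Adj)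
    (hcons : q = [] → ¬ θ.Cons y z) :
    ∃ θ' : Th V, IsTheta G θ' ∧ θ'.vs ⊆ θ.vs ∪ q.toFinset ∧ 2 * θ'.size + g ≤ 2 * θ.size + 8 := by
  obtain ⟨x, r, hxr⟩ := List.append_of_mem hy
  rw [hxr] at hz
  rcases List.mem_append.1 hz with hz | hz
  · obtain ⟨x₁, m, hm⟩ := List.append_of_mem hz
    have hs : θ.s₁ = x₁ ++ z :: (m ++ y :: r) := by rw [hxr, hm]; simp
    have hqr : q.reverse.toFinset = q.toFinset := by
      ext w; simp
    rw [← hqr]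
    refine short_same_aux G hg hg10 hθ hB hs (by simpa using hq2) (List.nodup_reverse.2 hq)
      (fun w hw => hqB w (List.mem_reverse.1 hw)) (fun w hw => hqθ w (List.mem_reverse.1 hw))
      (short_rev_chain G hch) ?_
    intro h
    rw [List.reverse_eq_nil_iff] at h
    rw [Th.cons_comm]
    exact hcons h
  · rcases List.mem_cons.1 hz with hz | hz
    · exact absurd hz.symm hyz
    · obtain ⟨m, x', hm⟩ := List.append_of_mem hz
      have hs : θ.s₁ = x ++ y :: (m ++ z :: x') := by rw [hxr, hm]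
      exact short_same_aux G hg hg10 hθ hB hs hq2 hq hqB hqθ hch hcons

lemma short_diff {B : Finset V} {g : ℕ} (hg : Girth G B g) {θ : Th V}
    (hθ : IsTheta G θ) (hB : θ.vs ⊆ B) {y z : V} (hy : y ∈ θ.l₁) (hz : z ∈ θ.l₂)
    {q : List V} (hq2 : q.length ≤ 2) (hq : q.Nodup) (hqB : ∀ w ∈ q, w ∈ B)
    (hqθ : ∀ w ∈ q, w ∉ θ.vs) (hch : (y :: (q ++ [z])).IsChain G.Adj) :
    ∃ θ' : Th V, IsTheta G θ' ∧ θ'.vs ⊆ θ.vs ∪ q.toFinset ∧ 2 * θ'.size + g ≤ 2 * θ.size + 8 := by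
  obtain ⟨x₁, x₂, h₁⟩ := List.append_of_mem hy
  obtain ⟨x₃, x₄, h₂⟩ := List.append_of_mem hz
  have hlen := sh_diff_len G hg hθ hB h₁ h₂ hq hqθ hqB hch
  by_cases hle : x₃.length ≤ x₁.length
  · obtain ⟨θ', h1, h2, h3⟩ := sh_diff G hθ h₁ h₂ hq hqθ hch
    exact ⟨θ', h1, h2, by omega⟩
  · have hqr : q.reverse.toFinset = q.toFinset := by
      ext w; simp
    obtain ⟨θ', h1, h2, h3⟩ := sh_diff G (hθ.swp G) (θ := θ.swp) (x₁ := x₃) (x₂ := x₄) (x₃ := x₁)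
      (x₄ := x₂) (y := z) (z := y) h₂ h₁ (List.nodup_reverse.2 hq)
      (fun w hw => by rw [Th.swp_vs]; exact hqθ w (List.mem_reverse.1 hw)) (short_rev_chain G hch)
    rw [hqr, Th.swp_vs] at h2
    rw [Th.swp_size, List.length_reverse] at h3
    exact ⟨θ', h1, h2, by omega⟩

/-- the two normal positions -/
def ShortCond {V : Type*} (θ : Th V) (y z : V) : Prop :=
  (y ∈ θ.s₁ ∧ z ∈ θ.s₁) ∨ (y ∈ θ.l₁ ∧ z ∈ θ.l₂)

lemma short_cond {B : Finset V} {g : ℕ} (hg : Girth G B g) (hg10 : 10 ≤ g) {θ : Th V}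
    (hθ : IsTheta G θ) (hB : θ.vs ⊆ B) {y z : V} (hyz : y ≠ z)
    {q : List V} (hq2 : q.length ≤ 2) (hq : q.Nodup) (hqB : ∀ w ∈ q, w ∈ B)
    (hqθ : ∀ w ∈ q, w ∉ θ.vs) (hch : (y :: (q ++ [z])).IsChain G.Adj)
    (hcons : q = [] → ¬ θ.Cons y z) (h : ShortCond θ y z) :
    ∃ θ' : Th V, IsTheta G θ' ∧ θ'.vs ⊆ θ.vs ∪ q.toFinset ∧ 2 * θ'.size + g ≤ 2 * θ.size + 8 := by
  rcases h with ⟨h1, h2⟩ | ⟨h1, h2⟩
  · exact short_same G hg hg10 hθ hB h1 h2 hyz hq2 hq hqB hqθ hch hcons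
  · exact short_diff G hg hθ hB h1 h2 hq2 hq hqB hqθ hch

lemma short_rot {B : Finset V} {g : ℕ} {θ : Th V} {y z : V} {q : List V}
    (H : ∀ θ : Th V, IsTheta G θ → θ.vs ⊆ B → (∀ w ∈ q, w ∉ θ.vs) → (q = [] → ¬ θ.Cons y z) →
      ShortCond θ y z → ∃ θ' : Th V, IsTheta G θ' ∧ θ'.vs ⊆ θ.vs ∪ q.toFinset ∧
        2 * θ'.size + g ≤ 2 * θ.size + 8)
    (hθ : IsTheta G θ) (hB : θ.vs ⊆ B) (hqθ : ∀ w ∈ q, w ∉ θ.vs)
    (hcons : q = [] → ¬ θ.Cons y z)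
    (h : ShortCond θ y z ∨ ShortCond θ.rot y z ∨ ShortCond θ.rot.rot y z) :
    ∃ θ' : Th V, IsTheta G θ' ∧ θ'.vs ⊆ θ.vs ∪ q.toFinset ∧
        2 * θ'.size + g ≤ 2 * θ.size + 8 := by
  rcases h with h | h | h
  · exact H θ hθ hB hqθ hcons h
  · have := H θ.rot (hθ.rot G) (by rw [Th.rot_vs]; exact hB)
      (by rw [Th.rot_vs]; exact hqθ) (by rw [Th.rot_cons]; exact hcons) h
    rw [Th.rot_vs, Th.rot_size] at this
    exact this
  · have := H θ.rot.rot ((hθ.rot G).rot G) (by rw [Th.rot_vs, Th.rot_vs]; exact hB)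
      (by rw [Th.rot_vs, Th.rot_vs]; exact hqθ) (by rw [Th.rot_cons, Th.rot_cons]; exact hcons) h
    rw [Th.rot_vs, Th.rot_vs, Th.rot_size, Th.rot_size] at this
    exact this

theorem short {B : Finset V} {g : ℕ} (hg : Girth G B g) (hg10 : 10 ≤ g) {θ : Th V}
    (hθ : IsTheta G θ) (hB : θ.vs ⊆ B) {y z : V} (hy : y ∈ θ.vs) (hz : z ∈ θ.vs) (hyz : y ≠ z)
    {q : List V} (hq2 : q.length ≤ 2) (hq : q.Nodup) (hqB : ∀ w ∈ q, w ∈ B)
    (hqθ : ∀ w ∈ q, w ∉ θ.vs) (hch : (y :: (q ++ [z])).IsChain G.Adj)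
    (hcons : q = [] → ¬ θ.Cons y z) :
    ∃ θ' : Th V, IsTheta G θ' ∧ θ'.vs ⊆ θ.vs ∪ q.toFinset ∧ 2 * θ'.size + g ≤ 2 * θ.size + 8 := by
  have H : ∀ θ : Th V, IsTheta G θ → θ.vs ⊆ B → (∀ w ∈ q, w ∉ θ.vs) →
      (q = [] → ¬ θ.Cons y z) →
      ShortCond θ y z → ∃ θ' : Th V, IsTheta G θ' ∧ θ'.vs ⊆ θ.vs ∪ q.toFinset ∧
        2 * θ'.size + g ≤ 2 * θ.size + 8 := fun θ h1 h2 h3 h4 h5 =>
    short_cond G hg hg10 h1 h2 hyz hq2 hq hqB h3 hch h4 h5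
  have hcase : (ShortCond θ y z ∨ ShortCond θ.rot y z ∨ ShortCond θ.rot.rot y z) ∨
      (ShortCond θ.swp y z ∨ ShortCond θ.swp.rot y z ∨ ShortCond θ.swp.rot.rot y z) := by
    rw [Th.mem_vs] at hy hz
    simp only [ShortCond, Th.rot, Th.swp, Th.s₁, List.mem_cons, List.mem_append,
      List.not_mem_nil, or_false]
    rcases hy with hy | hy | hy | hy | hy <;> rcases hz with hz | hz | hz | hz | hz <;>
      simp only [hy, hz, true_or, or_true, true_and, and_true, and_self]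
  rcases hcase with h | h
  · exact short_rot G H hθ hB hqθ hcons h
  · have := short_rot G H (hθ.swp G) (by rw [Th.swp_vs]; exact hB)
      (by rw [Th.swp_vs]; exact hqθ) (by rw [Th.swp_cons]; exact hcons) h
    rw [Th.swp_vs, Th.swp_size] at this
    exact this

end H10.IB
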